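import Pool.Agent.V8H40.OG.Dob

/-!
# Every computable torsion free group of infinite rank is a c.e. group of rational vectors
-/

set_option autoImplicit false

namespace Pool.Agent.V8H40.OG

open Submodule

/-- a sequence in which no term depends on the previous ones is independent -/
theorem indep_of_seq {V : Type*} [AddCommGroup V] [Module ℚ V] {B : ℕ → V}
    (h : ∀ m, B m ∉ span ℚ {v | ∃ i < m, v = B i}) : LinearIndependent ℚ B := by
  classical
  rw [linearIndependent_iff']
  intro s g hg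
  by_contra hcon
  push Not at hcon
  obtain ⟨i₀, hi₀, hgi₀⟩ := hcon
  obtain ⟨m, hm, hmax⟩ := (s.filter fun i => g i ≠ 0).exists_max_image id
    ⟨i₀, Finset.mem_filter.2 ⟨hi₀, hgi₀⟩⟩
  rw [Finset.mem_filter] at hm
  apply h m
  have h1 : g m • B m = - ∑ i ∈ s.erase m, g i • B i := by
    rw [← Finset.add_sum_erase s _ hm.1] at hg
    exact eq_neg_of_add_eq_zero_left hg
  have h2 : g m • B m ∈ span ℚ {v | ∃ i < m, v = B i} := by
    rw [h1]
    refine Submodule.neg_mem _ (Submodule.sum_mem _ fun i hi => ?_)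
    rw [Finset.mem_erase] at hi
    by_cases hgi : g i = 0
    · rw [hgi, zero_smul]; exact Submodule.zero_mem _
    · have h3 := hmax i (Finset.mem_filter.2 ⟨hi.2, hgi⟩)
      have h4 : i < m := lt_of_le_of_ne h3 hi.1
      exact Submodule.smul_mem _ _ (subset_span ⟨i, h4, rfl⟩)
  exact (Submodule.smul_mem_iff _ hm.2).1 h2

/-- infinite rank gives elements outside of finitely generated subspaces -/
theorem exists_outside {H : Type} [AddCommGroup H] {ν : ℕ ≃ H} {V : Type} [AddCommGroup V]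
    [Module ℚ V] {ι : H →+ V} (hι : Function.Injective ι)
    (hdiv : ∀ x : V, ∃ n : ℕ, 0 < n ∧ ∃ a, n • x = ι a)
    (hrank : Cardinal.aleph0 ≤ Module.rank ℤ H) (L : List ℕ) :
    ∃ j, ι (ν j) ∉ SpL ν ι L := by
  by_contra hcon
  push Not at hcon
  have htop : SpL ν ι L = ⊤ := by
    rw [eq_top_iff]
    intro x _
    obtain ⟨n, hn, a, ha⟩ := hdiv x
    have h1 := hcon (ν.symm a)
    rw [Equiv.apply_symm_apply, ← ha, ← Nat.cast_smul_eq_nsmul ℚ] at h1
    have h2 : (n : ℚ) ≠ 0 := by exact_mod_cast hn.ne'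
    exact (Submodule.smul_mem_iff _ h2).1 h1
  have hfin : Module.Finite ℚ V := by
    refine Module.finite_def.2 ?_
    rw [← htop]
    refine Submodule.fg_def.2 ⟨_, ?_, rfl⟩
    have h2 : {v | ∃ i < L.length, v = ι (ν (L.getD i 0))} =
        Set.range (fun i : Fin L.length => ι (ν (L.getD i 0))) := by
      ext v
      constructor
      · rintro ⟨i, hi, rfl⟩
        exact ⟨⟨i, hi⟩, rfl⟩
      · rintro ⟨i, rfl⟩
        exact ⟨i, i.2, rfl⟩
    rw [h2]
    exact Set.finite_range _
  have hr : Module.rank ℤ H ≤ Module.rank ℚ V := by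
    have h1 : Module.rank ℚ V = Module.rank ℤ V :=
      IsLocalization.rank_eq ℚ (nonZeroDivisors ℤ) le_rfl
    rw [h1]
    exact LinearMap.rank_le_of_injective ι.toIntLinearMap hι
  exact absurd (hrank.trans hr) (not_le.2 (Module.rank_lt_aleph0 ℚ V))

/-- the code of the sum side of a relation -/
theorem val_smul_eq (c : Vc) : (c.2 + 1) • val c =
    ∑ i ∈ Finset.range c.1.length, c.1.getD i 0 • Finsupp.single i (1 : ℚ) := by
  have h3 : ((c.2 : ℚ) + 1) ≠ 0 := by positivity
  ext j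
  rw [Finsupp.finsetSum_apply]
  have h4 : ((c.2 + 1) • val c) j = (c.1.getD j 0 : ℚ) := by
    rw [Finsupp.smul_apply, val_apply, nsmul_eq_mul]
    push_cast
    field_simp
  rw [h4]
  have h5 : ∀ i ∈ Finset.range c.1.length, (c.1.getD i 0 • Finsupp.single i (1 : ℚ)) j =
      if i = j then (c.1.getD i 0 : ℚ) else 0 := by
    intro i _
    rw [Finsupp.smul_apply, Finsupp.single_apply, zsmul_eq_mul]
    split_ifs <;> simp
  rw [Finset.sum_congr rfl h5, Finset.sum_ite_eq' (Finset.range c.1.length) j]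
  by_cases hj : j < c.1.length
  · rw [if_pos (Finset.mem_range.2 hj)]
  · rw [if_neg (fun h => hj (Finset.mem_range.1 h)), List.getD_eq_getElem?_getD,
      List.getElem?_eq_none (by omega)]
    simp

/-- Dobritsa's theorem in the form needed here -/
theorem exists_rep (H : Type) [AddCommGroup H]
    (htf : ∀ (n : ℕ) (x : H), n ≠ 0 → n • x = 0 → x = 0)
    (hrank : Cardinal.aleph0 ≤ Module.rank ℤ H)
    (ν : ℕ ≃ H) (hν : Computable₂ (fun a b : ℕ => ν.symm (ν a + ν b))) :
    ∃ (φ : H →+ QV) (kk : ℕ → Vc), Function.Injective φ ∧ Computable kk ∧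
      (∀ v, v ∈ φ.range ↔ ∃ i, val (kk i) = v) ∧ ∀ M, Finsupp.single M 1 ∈ φ.range := by
  classical
  obtain ⟨V, _, _, ι, _, hι, hdiv, _⟩ := Pool.Agent.Helper794NC.exists_rat H
    (fun n x hn => htf n x hn.ne') (Multiplicative (Fin 1)) 1
  have hinf := exists_outside (ν := ν) hι hdiv hrank
  obtain ⟨Y, hYc, hY0, hY⟩ := exists_drun ν hν
  have hset := settle hY0 hY hι hinf
  choose sm hsm1 hsm2 using hset
  let b : ℕ → H := fun m => EE ν Y (sm (m + 1)) m
  have hb : ∀ m, ∃ s₀, m ≤ s₀ ∧ ∀ s, s₀ ≤ s → ∀ i < m, EE ν Y s i = b i := by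
    intro m
    refine ⟨(∑ i ∈ Finset.range m, sm (i + 1)) + m, by omega, fun s hs i hi => ?_⟩
    have h1 : sm (i + 1) ≤ ∑ i ∈ Finset.range m, sm (i + 1) :=
      Finset.single_le_sum (f := fun i => sm (i + 1)) (fun _ _ => Nat.zero_le _)
        (Finset.mem_range.2 hi)
    exact (hsm2 (i + 1) s (by omega) i (by omega)).1
  have hbn : ∀ m, ι (b m) ∉ span ℚ {v | ∃ i < m, v = ι (b i)} := by
    intro m
    obtain ⟨s₀, hs₀, h1⟩ := hb (m + 1)
    let s := s₀ + sm (m + 1)
    have h2 := (hsm2 (m + 1) s (by omega) m (by omega)).2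
    rw [h1 s (by omega) m (by omega)] at h2
    intro h3
    apply h2
    refine (span_le.2 ?_) h3
    rintro v ⟨i, hi, rfl⟩
    rw [SetLike.mem_coe, ← h1 s (by omega) i (by omega)]
    exact mem_SQ hi
  have hli : LinearIndependent ℚ fun m => ι (b m) := indep_of_seq hbn
  have hsp : ⊤ ≤ span ℚ (Set.range fun m => ι (b m)) := by
    intro x _
    obtain ⟨n, hn, a, ha⟩ := hdiv x
    have h2 : (n : ℚ) ≠ 0 := by exact_mod_cast hn.ne'
    rw [← Submodule.smul_mem_iff _ h2, Nat.cast_smul_eq_nsmul ℚ, ha]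
    obtain ⟨s₀, hs₀, h1⟩ := hb (ν.symm a + 1)
    have h3 : ι (ν (ν.symm a)) ∈ SQ ν Y ι s₀ (ν.symm a + 1) := elt_mem hY0 hY (by omega)
    rw [Equiv.apply_symm_apply] at h3
    refine (span_le.2 ?_) h3
    rintro v ⟨i, hi, rfl⟩
    rw [h1 s₀ le_rfl i hi]
    exact subset_span ⟨i, rfl⟩
  let B := Module.Basis.mk hli hsp
  let φ : H →+ QV := (B.repr : V →+ QV).comp ι
  have hφ : Function.Injective φ := B.repr.injective.comp hι
  have hφb : ∀ m, φ (b m) = Finsupp.single m 1 := by
    intro m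
    have h1 : B m = ι (b m) := Module.Basis.mk_apply hli hsp m
    show B.repr (ι (b m)) = _
    rw [← h1, Module.Basis.repr_self]
  -- relations
  have hrel : ∀ (c : Vc) (h : H), φ h = val c ↔
      (c.2 + 1) • h = ∑ i ∈ Finset.range c.1.length, c.1.getD i 0 • b i := by
    intro c h
    have h1 : φ (∑ i ∈ Finset.range c.1.length, c.1.getD i 0 • b i) = (c.2 + 1) • val c := by
      rw [map_sum, val_smul_eq]
      exact Finset.sum_congr rfl fun i _ => by rw [map_zsmul, hφb]
    rw [← hφ.eq_iff, h1, map_nsmul, ← Nat.cast_smul_eq_nsmul ℚ, ← Nat.cast_smul_eq_nsmul ℚ]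
    have h3 : ((c.2 + 1 : ℕ) : ℚ) ≠ 0 := by positivity
    exact (smul_right_injective QV h3).eq_iff.symm
  -- congruences
  have hcong : ∀ c : Vc, ∃ z : H,
      ∑ i ∈ Finset.range c.1.length, c.1.getD i 0 • b i =
      (∑ i ∈ Finset.range c.1.length, c.1.getD i 0 •
        ν ((Y (c.1.length + c.2 + 1)).getD i 0)) + (c.2 + 1) • z := by
    intro c
    have h1 : ∀ i ∈ Finset.range c.1.length, ∃ z : H, c.1.getD i 0 • b i = c.1.getD i 0 •
        ν ((Y (c.1.length + c.2 + 1)).getD i 0) + (c.2 + 1) • z := by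
      intro i hi
      rw [Finset.mem_range] at hi
      obtain ⟨s₀, hs₀, h2⟩ := hb (i + 1)
      obtain ⟨z, hz⟩ := EE_congr hY0 hY (s := c.1.length + c.2 + 1)
        (t := s₀ + (c.1.length + c.2 + 1)) (i := i) (by omega) (by omega)
      rw [h2 _ (by omega) i (by omega)] at hz
      obtain ⟨d, hd⟩ : c.2 + 1 ∣ (c.1.length + c.2 + 1).factorial :=
        Nat.dvd_factorial (by omega) (by omega)
      refine ⟨c.1.getD i 0 • d • z, ?_⟩
      rw [hz, hd, smul_add, mul_smul]
      congr 1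
      exact smul_comm _ _ _
    choose! z hz using h1
    refine ⟨∑ i ∈ Finset.range c.1.length, z i, ?_⟩
    rw [Finset.sum_congr rfl hz, Finset.sum_add_distrib, Finset.smul_sum]
  have hrel2 : ∀ c : Vc, val c ∈ φ.range ↔ ∃ h : ℕ, (c.2 + 1) • ν h =
      ∑ i ∈ Finset.range c.1.length, c.1.getD i 0 •
        ν ((Y (c.1.length + c.2 + 1)).getD i 0) := by
    intro c
    obtain ⟨z, hz⟩ := hcong c
    constructor
    · rintro ⟨h, hh⟩
      rw [hrel, hz] at hh
      refine ⟨ν.symm (h - z), ?_⟩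
      rw [Equiv.apply_symm_apply, smul_sub, hh, add_sub_cancel_right]
    · rintro ⟨h, hh⟩
      refine ⟨ν h + z, ?_⟩
      rw [hrel, hz, smul_add, hh]
  let kk : ℕ → Vc := fun n =>
    if ν.symm (((wv n.unpair.1).2 + 1) • ν n.unpair.2) =
      ν.symm (∑ i ∈ Finset.range (wv n.unpair.1).1.length, (wv n.unpair.1).1.getD i 0 •
        ν ((Y ((wv n.unpair.1).1.length + (wv n.unpair.1).2 + 1)).getD i 0))
    then wv n.unpair.1 else ([], 0)
  have hkk : Computable kk := by
    have u1 : Computable fun n : ℕ => n.unpair.1 := Computable.fst.comp Computable.unpair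
    have u2 : Computable fun n : ℕ => n.unpair.2 := Computable.snd.comp Computable.unpair
    have w1 : Computable fun n : ℕ => wv n.unpair.1 := wv_comp.comp u1
    have l1 : Computable fun n : ℕ => (wv n.unpair.1).1.length :=
      Computable.list_length.comp (Computable.fst.comp w1)
    refine Pool.Agent.R557.CK.c_ite' ?_ w1 (Computable.const _)
    refine Pool.Agent.H166R3.AT.c_eq ?_ ?_
    · exact g_nsmul hν (Computable.succ.comp (Computable.snd.comp w1)) u2
    · refine g_lc hν (Computable.fst.comp w1) (hYc.comp ?_) l1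
      exact Computable.succ.comp (Pool.Agent.H166R3.AT.c_add l1 (Computable.snd.comp w1))
  refine ⟨φ, kk, hφ, hkk, fun v => ⟨fun hv => ?_, ?_⟩, fun M => ⟨b M, hφb M⟩⟩
  · obtain ⟨c, rfl⟩ := val_surj v
    obtain ⟨h, hh⟩ := (hrel2 c).1 hv
    refine ⟨Nat.pair (Encodable.encode c) h, ?_⟩
    have h1 : kk (Nat.pair (Encodable.encode c) h) = c := by
      simp only [kk, Nat.unpair_pair, wv_encode]
      rw [if_pos (by rw [hh])]
    rw [h1]
  · rintro ⟨n, rfl⟩
    by_cases hc : ν.symm (((wv n.unpair.1).2 + 1) • ν n.unpair.2) =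
      ν.symm (∑ i ∈ Finset.range (wv n.unpair.1).1.length, (wv n.unpair.1).1.getD i 0 •
        ν ((Y ((wv n.unpair.1).1.length + (wv n.unpair.1).2 + 1)).getD i 0))
    · have h1 : kk n = wv n.unpair.1 := if_pos hc
      rw [h1]
      exact (hrel2 _).2 ⟨n.unpair.2, ν.symm.injective hc⟩
    · have h1 : kk n = ([], 0) := if_neg hc
      rw [h1]
      refine ⟨0, ?_⟩
      rw [map_zero]
      ext i
      rw [val_apply]
      simp

end Pool.Agent.V8H40.OG
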