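import Pool.Agent.V8H40.OG.Two
import Pool.Agent.Helper743.Oracle

/-!
# A generic sequence which computes only the computable orders
-/

set_option autoImplicit false

namespace Pool.Agent.V8H40.OG

open Nat.Partrec (Code)
open Pool.Agent.Helper743 (pre pre_length pre_succ pre_getElem? pre_prefix)

theorem countable_computable (α σ : Type*) [Primcodable α] [Primcodable σ] :
    Countable {f : α → σ // Computable f} := by
  classical
  have h1 : ∀ f : {f : α → σ // Computable f}, ∃ c : Code, c.eval =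
      fun n => Part.bind (Encodable.decode (α := α) n) fun a =>
        ((f.1 : α →. σ) a).map Encodable.encode := by
    intro f
    exact Code.exists_code.1 f.2
  choose c hc using h1
  have hinj : Function.Injective c := by
    intro f g hfg
    apply Subtype.ext
    funext a
    have h2 := congrFun (hc f) (Encodable.encode a)
    have h3 := congrFun (hc g) (Encodable.encode a)
    rw [hfg, h3] at h2
    simpa using h2.symm
  exact hinj.countable

/-- meeting countably many dense requirements -/
theorem exists_meet {I : Type*} [Countable I] (D : I → List ℕ → Prop)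
    (h : ∀ i σ, ∃ τ, σ <+: τ ∧ D i τ) : ∃ X : ℕ → ℕ, ∀ i, ∃ n, D i (pre X n) := by
  classical
  by_cases hI : Nonempty I
  · obtain ⟨e, he⟩ := exists_surjective_nat I
    choose ext hext hD using h
    let seq : ℕ → List ℕ := fun n => Nat.rec (motive := fun _ => List ℕ) []
      (fun n σ => ext (e n) σ ++ [0]) n
    have hs : ∀ n, seq (n + 1) = ext (e n) (seq n) ++ [0] := fun n => rfl
    have hpre1 : ∀ n, ext (e n) (seq n) <+: seq (n + 1) := by
      intro n; rw [hs]; exact List.prefix_append _ _
    have hstep : ∀ n, seq n <+: seq (n + 1) := fun n => (hext _ _).trans (hpre1 n)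
    have hmono : ∀ n m, n ≤ m → seq n <+: seq m := by
      intro n m hnm
      induction m, hnm using Nat.le_induction with
      | base => exact List.prefix_refl _
      | succ m _ ih => exact ih.trans (hstep m)
    have hlen : ∀ n, n ≤ (seq n).length := by
      intro n
      induction n with
      | zero => exact Nat.zero_le _
      | succ n ih =>
        rw [hs, List.length_append, List.length_singleton]
        have := (hext (e n) (seq n)).length_le
        omega
    let X : ℕ → ℕ := fun k => (seq (k + 1)).getD k 0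
    have hX : ∀ n k, k < (seq n).length → (seq n)[k]? = some (X k) := by
      intro n k hk
      have h1 : k < (seq (k + 1)).length := by have := hlen (k + 1); omega
      have h2 : (seq (k + 1))[k]? = some (X k) := by
        simp only [X, List.getD_eq_getElem?_getD]
        rw [List.getElem?_eq_getElem h1]
        rfl
      rcases le_total n (k + 1) with h3 | h3
      · obtain ⟨ρ, hρ⟩ := hmono n (k + 1) h3
        rw [← h2, ← hρ, List.getElem?_append_left hk]
      · obtain ⟨ρ, hρ⟩ := hmono (k + 1) n h3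
        rw [← h2, ← hρ, List.getElem?_append_left h1]
    have hXpre : ∀ n (σ : List ℕ), σ <+: seq n → pre X σ.length = σ := by
      intro n σ hσ
      apply List.ext_getElem?
      intro k
      rw [pre_getElem?]
      by_cases hk : k < σ.length
      · rw [if_pos hk]
        have h1 := hX n k (lt_of_lt_of_le hk hσ.length_le)
        obtain ⟨ρ, hρ⟩ := hσ
        rw [← hρ, List.getElem?_append_left hk] at h1
        exact h1.symm
      · rw [if_neg hk, List.getElem?_eq_none (by omega)]
    refine ⟨X, fun i => ?_⟩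
    obtain ⟨n, rfl⟩ := he i
    refine ⟨(ext (e n) (seq n)).length, ?_⟩
    rw [hXpre (n + 1) _ (hpre1 n)]
    exact hD _ _
  · exact ⟨fun _ => 0, fun i => absurd ⟨i⟩ hI⟩

/-- a sequence computing only the two given orders -/
theorem exists_generic {q : ℕ → QV} (hneg : ∀ a, ∃ b, q b = - q a)
    {Pos : ℕ → Prop} (hcone : IsCone q Pos)
    (htwo : ∀ Q : ℕ → Prop, CP Q → IsCone q Q →
          (∀ a, Q a ↔ Pos a) ∨ (∀ a b, q b = - q a → (Q a ↔ Pos b))) :
    ∃ X : ℕ → ℕ, ¬ Computable X ∧ ∀ (Q : ℕ → Prop) (χ : ℕ → ℕ), IsCone q Q →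
      (∀ a, χ a = 1 ↔ Q a) → (∀ a, χ a ≠ 1 → χ a = 0) →
      Nat.RecursiveIn {(X : ℕ →. ℕ)} (χ : ℕ →. ℕ) →
          (∀ a, Q a ↔ Pos a) ∨ (∀ a b, q b = - q a → (Q a ↔ Pos b)) := by
  classical
  -- functionals
  let Ev : Type := {f : List ℕ × ℕ → Option ℕ // Computable f}
  have hEv : Countable Ev := countable_computable _ _
  have hFn : Countable {f : ℕ → ℕ // Computable f} := countable_computable _ _
  -- bad sequences
  let Bad : (List ℕ × ℕ → Option ℕ) → ℕ → ℕ → (ℕ → ℕ) → Prop := fun ev u v X =>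
    (∀ σ τ x y, σ <+: τ → ev (σ, x) = some y → ev (τ, x) = some y) ∧
    ∃ Q : ℕ → Prop, IsCone q Q ∧ ¬ Q u ∧ Q v ∧
      ∀ a, ∃ n, ev (pre X n, a) = some (if Q a then 1 else 0)
  have hdense : ∀ (ev : Ev) (u v : ℕ), Pos u → q u ≠ 0 → Pos v → q v ≠ 0 → ∀ σ : List ℕ,
      ∃ τ, σ <+: τ ∧ ∀ X : ℕ → ℕ, pre X τ.length = τ → ¬ Bad ev.1 u v X := by
    intro ev u v hu hu0 hv hv0 σ
    by_contra hcon
    push Not at hcon
    have hmono : ∀ σ τ x y, σ <+: τ → ev.1 (σ, x) = some y → ev.1 (τ, x) = some y := by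
      obtain ⟨X, _, hX⟩ := hcon σ (List.prefix_refl _)
      exact hX.1
    have hpreCP : CP fun x : (List ℕ × ℕ) × List ℕ => x.1.1 <+: x.2 := by
      have h1 : CP fun x : (List ℕ × ℕ) × List ℕ => x.2.take x.1.1.length = x.1.1 := by
        refine CP.eq ?_ (Computable.fst.comp Computable.fst)
        exact Primrec.list_take.to_comp.comp (Computable.list_length.comp
          (Computable.fst.comp Computable.fst)) Computable.snd
      refine h1.of_iff fun x => ?_
      rw [List.prefix_iff_eq_take]
      exact eq_comm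
    obtain ⟨g, hg, hgR⟩ := CP.search (α := List ℕ × ℕ) (β := List ℕ)
      (R := fun x τ => ¬ (σ <+: x.1) ∨ (x.1 <+: τ ∧ (ev.1 (τ, x.2)).isSome = true)) (by
        refine CP.or (CP.not ?_) (CP.and hpreCP ?_)
        · exact hpreCP.comp (f := fun x : (List ℕ × ℕ) × List ℕ => ((σ, 0), x.1.1))
            (Computable.pair (Computable.const _) (Computable.fst.comp Computable.fst))
        · exact ⟨_, Primrec.option_isSome.to_comp.comp (ev.2.comp (Computable.pair
            Computable.snd (Computable.snd.comp Computable.fst))), fun _ => Iff.rfl⟩)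
      (fun x => by
        by_cases hσ : σ <+: x.1
        · obtain ⟨X, hX, _, Q, hQ, _, _, hval⟩ := hcon x.1 hσ
          obtain ⟨n, hn⟩ := hval x.2
          refine ⟨pre X (max n x.1.length), Or.inr ⟨?_, ?_⟩⟩
          · rw [← hX]
            simp only [pre_length]
            exact pre_prefix X (le_max_right _ _)
          · rw [hmono _ _ _ _ (pre_prefix X (le_max_left n x.1.length)) hn]
            rfl
        · exact ⟨[], Or.inl hσ⟩)
    -- the computable sequence of strings
    let T : ℕ → List ℕ := fun n => Nat.rec (motive := fun _ => List ℕ) σ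
      (fun i τ => g (τ, i)) n
    have hT : Computable T := by
      have h1 : Computable₂ fun (_ : ℕ) (b : ℕ × List ℕ) => g (b.2, b.1) :=
        hg.comp (Computable.pair (Computable.snd.comp Computable.snd)
          (Computable.fst.comp Computable.snd))
      exact Computable.nat_rec Computable.id (Computable.const σ) h1
    have hTs : ∀ i, T (i + 1) = g (T i, i) := fun i => rfl
    have hT0 : T 0 = σ := rfl
    have hTσ : ∀ i, σ <+: T i ∧ T i <+: T (i + 1) ∧ (ev.1 (T (i + 1), i)).isSome = true := by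
      intro i
      induction i with
      | zero =>
        have := (hgR (T 0, 0)).resolve_left (not_not_intro (List.prefix_refl _))
        exact ⟨List.prefix_refl _, this.1, this.2⟩
      | succ i ih =>
        have h1 := ih.1.trans ih.2.1
        have := (hgR (T (i + 1), i + 1)).resolve_left (not_not_intro h1)
        exact ⟨h1, this.1, this.2⟩
    have hTmono : ∀ n m, n ≤ m → T n <+: T m := by
      intro n m hnm
      induction m, hnm using Nat.le_induction with
      | base => exact List.prefix_refl _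
      | succ m _ ih => exact ih.trans (hTσ m).2.1
    -- the computable order
    let Q' : ℕ → Prop := fun i => ev.1 (T (i + 1), i) = some 1
    have hQ' : CP Q' := by
      refine CP.eq (ev.2.comp (Computable.pair (hT.comp Computable.succ) Computable.id))
        (Computable.const _)
    have happrox : ∀ m, ∃ Q : ℕ → Prop, IsCone q Q ∧ ¬ Q u ∧ Q v ∧ ∀ a < m, (Q' a ↔ Q a) := by
      intro m
      obtain ⟨X, hX, _, Q, hQ, hQu, hQv, hval⟩ := hcon (T m) (hTσ m).1
      refine ⟨Q, hQ, hQu, hQv, fun a ha => ?_⟩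
      obtain ⟨n, hn⟩ := hval a
      obtain ⟨y, hy⟩ := Option.isSome_iff_exists.1 (hTσ a).2.2
      have h1 : T (a + 1) <+: pre X (max n (T m).length) := by
        refine (hTmono _ _ ha).trans ?_
        conv_lhs => rw [← hX]
        exact pre_prefix X (le_max_right _ _)
      have h2 := hmono _ _ _ _ h1 hy
      have h3 := hmono _ _ _ _ (pre_prefix X (le_max_left n (T m).length)) hn
      rw [h3, Option.some_inj] at h2
      simp only [Q']
      rw [hy, ← h2, Option.some_inj]
      by_cases h4 : Q a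
      · simp [h4]
      · simp [h4]
    have hQ'cone : IsCone q Q' := by
      refine ⟨fun a b c ha hb hc => ?_, fun a b ha hb hab => ?_, fun a b hab => ?_⟩
      · obtain ⟨Q, hQ, _, _, h1⟩ := happrox (a + b + c + 1)
        rw [h1 c (by omega)]
        exact hQ.add a b c ((h1 a (by omega)).1 ha) ((h1 b (by omega)).1 hb) hc
      · obtain ⟨Q, hQ, _, _, h1⟩ := happrox (a + b + 1)
        exact hQ.anti a b ((h1 a (by omega)).1 ha) ((h1 b (by omega)).1 hb) hab
      · obtain ⟨Q, hQ, _, _, h1⟩ := happrox (a + b + 1)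
        rw [h1 a (by omega), h1 b (by omega)]
        exact hQ.tot a b hab
    obtain ⟨Q, hQ, hQu, hQv, h1⟩ := happrox (u + v + 1)
    have hu' : ¬ Q' u := by rw [h1 u (by omega)]; exact hQu
    have hv' : Q' v := by rw [h1 v (by omega)]; exact hQv
    rcases htwo Q' hQ' hQ'cone with h2 | h2
    · exact hu' ((h2 u).2 hu)
    · obtain ⟨b, hb⟩ := hneg v
      have h3 := (h2 v b hb).1 hv'
      exact hv0 (hcone.anti v b hv h3 hb)
  -- the requirements
  let I : Type := (Ev × ℕ × ℕ) ⊕ {f : ℕ → ℕ // Computable f}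
  have hI : Countable I := inferInstance
  let Dn : I → List ℕ → Prop := fun i τ => match i with
    | Sum.inl (ev, u, v) => Pos u → q u ≠ 0 → Pos v → q v ≠ 0 →
        ∀ X : ℕ → ℕ, pre X τ.length = τ → ¬ Bad ev.1 u v X
    | Sum.inr f => ∀ X : ℕ → ℕ, pre X τ.length = τ → X ≠ f.1
  obtain ⟨X, hX⟩ := exists_meet Dn (by
    intro i σ
    rcases i with ⟨ev, u, v⟩ | f
    · by_cases h : Pos u ∧ q u ≠ 0 ∧ Pos v ∧ q v ≠ 0
      · obtain ⟨τ, hτ, h1⟩ := hdense ev u v h.1 h.2.1 h.2.2.1 h.2.2.2 σ
        exact ⟨τ, hτ, fun _ _ _ _ => h1⟩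
      · exact ⟨σ, List.prefix_refl _, fun h1 h2 h3 h4 => absurd ⟨h1, h2, h3, h4⟩ h⟩
    · refine ⟨σ ++ [f.1 σ.length + 1], List.prefix_append _ _, fun X hX hXf => ?_⟩
      have h1 := congrArg (fun l : List ℕ => l[σ.length]?) hX
      simp only [List.length_append, List.length_singleton] at h1
      rw [pre_getElem?, if_pos (by omega)] at h1
      simp only [List.getElem?_append_right (le_refl _), Nat.sub_self] at h1
      rw [hXf] at h1
      simp at h1)
  refine ⟨X, fun hXc => ?_, fun Q χ hQ hχ1 hχ0 hrec => ?_⟩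
  · obtain ⟨n, hn⟩ := hX (Sum.inr ⟨X, hXc⟩)
    exact hn X (by simp) rfl
  · by_contra hcon
    push Not at hcon
    obtain ⟨hcon1, a₂, b₂, hab₂, hcon2⟩ := hcon
    have hQ0 : ∀ a, q a = 0 → Q a := fun a ha => (hQ.tot a a (by rw [ha, neg_zero])).elim id id
    have hP0 : ∀ a, q a = 0 → Pos a := fun a ha =>
      (hcone.tot a a (by rw [ha, neg_zero])).elim id id
    obtain ⟨u, hu1, hu2, hu3⟩ : ∃ u, Pos u ∧ q u ≠ 0 ∧ ¬ Q u := by
      obtain ⟨a, ha⟩ := hcon1
      rcases ha with ⟨h1, h2⟩ | ⟨h1, h2⟩
      · obtain ⟨b, hb⟩ := hneg a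
        refine ⟨b, (hcone.tot a b hb).resolve_left h2, fun h3 => ?_, fun h3 => ?_⟩
        · rw [h3] at hb
          exact h2 (hP0 a (neg_eq_zero.1 hb.symm))
        · exact h2 (hP0 a (hQ.anti a b h1 h3 hb))
      · exact ⟨a, h2, fun h3 => h1 (hQ0 a h3), h1⟩
    obtain ⟨v, hv1, hv2, hv3⟩ : ∃ v, Pos v ∧ q v ≠ 0 ∧ Q v := by
      rcases hcon2 with ⟨h1, h2⟩ | ⟨h1, h2⟩
      · refine ⟨a₂, (hcone.tot a₂ b₂ hab₂).resolve_right h2, fun h3 => ?_, h1⟩
        exact h2 (hP0 b₂ (by rw [hab₂, h3, neg_zero]))
      · refine ⟨b₂, h2, fun h3 => ?_, (hQ.tot a₂ b₂ hab₂).resolve_left h1⟩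
        rw [h3] at hab₂
        exact h1 (hQ0 a₂ (neg_eq_zero.1 hab₂.symm))
    obtain ⟨ev, hev, hevm, hevv⟩ := Pool.Agent.Helper743.use_principle X _ hrec
    have hev' : Computable fun x : List ℕ × ℕ => ev x.1 x.2 := hev
    obtain ⟨n, hn⟩ := hX (Sum.inl (⟨fun x => ev x.1 x.2, hev'⟩, u, v))
    refine hn hu1 hu2 hv1 hv2 X (by simp) ⟨fun σ τ x y => hevm σ τ x y, Q, hQ, hu3, hv3,
      fun a => ?_⟩
    apply (hevv a _).1
    have h1 : χ a = if Q a then 1 else 0 := by
      by_cases h2 : Q a
      · rw [if_pos h2, (hχ1 a).2 h2]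
      · rw [if_neg h2]
        exact hχ0 a fun h3 => h2 ((hχ1 a).1 h3)
    rw [← h1]
    exact Part.mem_some _

end Pool.Agent.V8H40.OG
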