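import Pool.Agent.V8H40.OG.Lim

/-!
# A computable copy with exactly two computable orders
-/

set_option autoImplicit false

namespace Pool.Agent.V8H40.OG

open Nat.Partrec (Code)
open Pool.Agent.R557.DS (CQ)

/-- orders of the group with names `q` -/
structure IsCone (q : ℕ → QV) (Q : ℕ → Prop) : Prop where
  add : ∀ a b c, Q a → Q b → q c = q a + q b → Q c
  anti : ∀ a b, Q a → Q b → q b = - q a → q a = 0
  tot : ∀ a b, q b = - q a → Q a ∨ Q b

theorem exists_stage {n : ℕ} {P : ℕ → ℕ → Prop} (h : ∀ a < n, ∃ s₀, ∀ s, s₀ ≤ s → P a s) :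
    ∃ s₀, ∀ a < n, ∀ s, s₀ ≤ s → P a s := by
  induction n with
  | zero => exact ⟨0, fun a ha => absurd ha (Nat.not_lt_zero _)⟩
  | succ n ih =>
    obtain ⟨s₀, h0⟩ := ih fun a ha => h a (by omega)
    obtain ⟨s₁, h1⟩ := h n (Nat.lt_succ_self n)
    refine ⟨max s₀ s₁, fun a ha s hs => ?_⟩
    rcases Nat.lt_succ_iff_lt_or_eq.1 ha with h2 | h2
    · exact h0 a h2 s ((le_max_left _ _).trans hs)
    · subst h2
      exact h1 s ((le_max_right _ _).trans hs)

theorem two_orders {kk : ℕ → Vc} (hk : Computable kk) {K : AddSubgroup QV}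
    (hK : ∀ v, v ∈ K ↔ ∃ i, val (kk i) = v) (hunit : ∀ M : ℕ, Finsupp.single M (1 : ℚ) ∈ K) :
    ∃ q : ℕ → QV, Function.Injective q ∧ (∀ v, v ∈ K ↔ ∃ a, q a = v) ∧
      (∃ A : ℕ → ℕ → ℕ, Computable₂ A ∧ ∀ a b, q (A a b) = q a + q b) ∧
      ∃ Pos : ℕ → Prop, CP Pos ∧ IsCone q Pos ∧
        ∀ Q : ℕ → Prop, CP Q → IsCone q Q →
          (∀ a, Q a ↔ Pos a) ∨ (∀ a b, q b = - q a → (Q a ↔ Pos b)) := by
  classical
  have hinf : ∀ p : List ℕ, ∃ i, ∀ a < p.length, nm kk p a ≠ val (kk i) := by
    intro p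
    have h1 : Function.Injective fun M : ℕ => (Finsupp.single M (1 : ℚ) : QV) :=
      Finsupp.single_left_injective one_ne_zero
    obtain ⟨v, ⟨M, hM⟩, hv⟩ := (Set.infinite_range_of_injective h1).exists_notMem_finset
      ((Finset.range p.length).image (nm kk p))
    obtain ⟨i, hi⟩ := (hK v).1 (by rw [← hM]; exact hunit M)
    refine ⟨i, fun a ha hab => hv ?_⟩
    exact Finset.mem_image.2 ⟨a, Finset.mem_range.2 ha, by rw [hab, hi]⟩
  obtain ⟨S, hS, hI0, hl0, hd0, hstep⟩ := exists_run hk hK hinf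
  have hR : IsRun kk S := ⟨hI0, hl0, hstep⟩
  -- limits
  have hlim := exists_lim hR
  choose L hL1 hL2 using hlim
  let q : ℕ → QV := fun a => PP kk S (L a) a
  have hq : ∀ a s, L a ≤ s → PP kk S s a = q a := fun a s hs => hL2 a s hs
  have hqinj : Function.Injective q := by
    intro a b hab
    have h1 := hq a (max (L a) (L b)) (le_max_left _ _)
    have h2 := hq b (max (L a) (L b)) (le_max_right _ _)
    exact PP_inj hR ((hL1 a).trans (le_max_left _ _)) ((hL1 b).trans (le_max_right _ _))
      (by rw [h1, h2, hab])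
  have hqK : ∀ v, v ∈ K ↔ ∃ a, q a = v := by
    intro v
    constructor
    · intro hv
      obtain ⟨i, hi⟩ := (hK v).1 hv
      obtain ⟨s₀, a, ha, hs⟩ := exists_cover hR i
      refine ⟨a, ?_⟩
      rw [← hq a (max (L a) s₀) (le_max_left _ _), hs _ (le_max_right _ _), hi]
    · rintro ⟨a, rfl⟩
      exact (hK _).2 ⟨_, rfl⟩
  have hq0 : q 0 = 0 := PP_zero hR _
  -- the order
  let Pos : ℕ → Prop := fun a => 0 ≤ FF S a (PP kk S a a)
  have hposlt : ∀ a s, a ≤ s → (0 < FF S s (PP kk S s a) ↔ 0 < FF S a (PP kk S a a)) := by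
    intro a s has
    have h1 := order_iff hR has (Nat.zero_le a) (le_refl a)
    rw [PP_zero hR, PP_zero hR, map_zero, map_zero] at h1
    exact h1
  have hne : ∀ a s, a ≤ s → a ≠ 0 → FF S s (PP kk S s a) ≠ 0 := by
    intro a s has ha0 h
    apply FF_inj hR has (Nat.zero_le s) ha0
    rw [h, PP_zero hR, map_zero]
  have hpos : ∀ a s, a ≤ s → (Pos a ↔ 0 ≤ FF S s (PP kk S s a)) := by
    intro a s has
    by_cases ha0 : a = 0
    · subst ha0
      simp only [Pos]
      rw [PP_zero hR, PP_zero hR, map_zero, map_zero]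
    · simp only [Pos]
      constructor
      · intro h
        exact ((hposlt a s has).2 (lt_of_le_of_ne h (hne a a (le_refl a) ha0).symm)).le
      · intro h
        exact ((hposlt a s has).1 (lt_of_le_of_ne h (hne a s has ha0).symm)).le
  have hposq : ∀ a, ∃ s₀, a ≤ s₀ ∧ ∀ s, s₀ ≤ s → (Pos a ↔ 0 ≤ FF S s (q a)) ∧
      (FF S s (q a) = 0 → q a = 0) := by
    intro a
    refine ⟨L a, hL1 a, fun s hs => ⟨?_, fun h => ?_⟩⟩
    · rw [← hq a s hs]
      exact hpos a s ((hL1 a).trans hs)
    · by_contra h2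
      have ha0 : a ≠ 0 := fun h3 => h2 (by rw [h3, hq0])
      rw [← hq a s hs] at h
      exact hne a s ((hL1 a).trans hs) ha0 h
  have hcone : IsCone q Pos := by
    refine ⟨fun a b c ha hb hc => ?_, fun a b ha hb hab => ?_, fun a b hab => ?_⟩
    · obtain ⟨sa, -, h1⟩ := hposq a
      obtain ⟨sb, -, h2⟩ := hposq b
      obtain ⟨sc, -, h3⟩ := hposq c
      have h1' := (h1 (max sa (max sb sc)) (le_max_left _ _)).1.1 ha
      have h2' := (h2 (max sa (max sb sc)) ((le_max_left _ _).trans (le_max_right _ _))).1.1 hb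
      refine (h3 (max sa (max sb sc)) ((le_max_right _ _).trans (le_max_right _ _))).1.2 ?_
      rw [hc, map_add]
      linarith
    · obtain ⟨sa, -, h1⟩ := hposq a
      obtain ⟨sb, -, h2⟩ := hposq b
      have h1' := (h1 (max sa sb) (le_max_left _ _)).1.1 ha
      have h2' := (h2 (max sa sb) (le_max_right _ _)).1.1 hb
      rw [hab, map_neg] at h2'
      exact (h1 (max sa sb) (le_max_left _ _)).2 (by linarith)
    · obtain ⟨sa, -, h1⟩ := hposq a
      obtain ⟨sb, -, h2⟩ := hposq b
      rcases le_total 0 (FF S (max sa sb) (q a)) with h3 | h3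
      · exact Or.inl ((h1 (max sa sb) (le_max_left _ _)).1.2 h3)
      · refine Or.inr ((h2 (max sa sb) (le_max_right _ _)).1.2 ?_)
        rw [hab, map_neg]
        linarith
  have cp : Computable fun s => (S s).1 := Computable.fst.comp hS
  have cr : Computable fun s => (S s).2.1 := Computable.fst.comp (Computable.snd.comp hS)
  refine ⟨q, hqinj, hqK, ?_, Pos, ?_, hcone, ?_⟩
  · -- addition
    have h1 : CP fun x : (ℕ × ℕ) × (ℕ × ℕ) => x.1.1 ≤ x.2.1 ∧ x.1.2 ≤ x.2.1 ∧ x.2.2 ≤ x.2.1 ∧
        nm kk (S x.2.1).1 x.2.2 = nm kk (S x.2.1).1 x.1.1 + nm kk (S x.2.1).1 x.1.2 := by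
      have c11 : Computable fun x : (ℕ × ℕ) × (ℕ × ℕ) => x.1.1 :=
        Computable.fst.comp Computable.fst
      have c12 : Computable fun x : (ℕ × ℕ) × (ℕ × ℕ) => x.1.2 :=
        Computable.snd.comp Computable.fst
      have c21 : Computable fun x : (ℕ × ℕ) × (ℕ × ℕ) => x.2.1 :=
        Computable.fst.comp Computable.snd
      have c22 : Computable fun x : (ℕ × ℕ) × (ℕ × ℕ) => x.2.2 :=
        Computable.snd.comp Computable.snd
      refine (CP.le c11 c21).and ((CP.le c12 c21).and ((CP.le c22 c21).and ?_))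
      exact CP.cveq (nm_CV hk (cp.comp c21) c22)
        (CV.add (nm_CV hk (cp.comp c21) c11) (nm_CV hk (cp.comp c21) c12))
    obtain ⟨g, hg, hg2⟩ := CP.search (α := ℕ × ℕ) (β := ℕ × ℕ)
      (R := fun x y => x.1 ≤ y.1 ∧ x.2 ≤ y.1 ∧ y.2 ≤ y.1 ∧
        nm kk (S y.1).1 y.2 = nm kk (S y.1).1 x.1 + nm kk (S y.1).1 x.2) h1 (by
        intro x
        obtain ⟨c, hc⟩ := (hqK (q x.1 + q x.2)).1
          (K.add_mem ((hqK _).2 ⟨_, rfl⟩) ((hqK _).2 ⟨_, rfl⟩))
        set s := max (L x.1) (max (L x.2) (L c)) with hs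
        have e1 : L x.1 ≤ s := le_max_left _ _
        have e2 : L x.2 ≤ s := (le_max_left _ _).trans (le_max_right _ _)
        have e3 : L c ≤ s := (le_max_right _ _).trans (le_max_right _ _)
        refine ⟨(s, c), (hL1 _).trans e1, (hL1 _).trans e2, (hL1 _).trans e3, ?_⟩
        change PP kk S s c = PP kk S s x.1 + PP kk S s x.2
        rw [hq _ s e1, hq _ s e2, hq _ s e3, hc])
    refine ⟨fun a b => (g (a, b)).2, Computable.snd.comp hg, fun a b => ?_⟩
    obtain ⟨h2, h3, h4, h5⟩ := hg2 (a, b)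
    simp only at h2 h3 h4 h5
    set s := (g (a, b)).1
    set c := (g (a, b)).2
    set t := max s (max (L a) (max (L b) (L c))) with ht
    have e0 : s ≤ t := le_max_left _ _
    have e1 : L a ≤ t := (le_max_left _ _).trans (le_max_right _ _)
    have e2 : L b ≤ t := (le_max_left _ _).trans ((le_max_right _ _).trans (le_max_right _ _))
    have e3 : L c ≤ t := (le_max_right _ _).trans ((le_max_right _ _).trans (le_max_right _ _))
    obtain ⟨Θ, hΘ⟩ := exists_linear hR e0
    rw [← hq a t e1, ← hq b t e2, ← hq c t e3, hΘ a h2, hΘ b h3, hΘ c h4, ← map_add]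
    congr 1
  · exact CP.ratle (CQ.const 0) (fn_nm_CQ hk cr cp Computable.id)
  · intro Q hQ hQc
    by_contra hcon
    push Not at hcon
    obtain ⟨hcon1, a₂, b₂, hab₂, hcon2⟩ := hcon
    have hneg : ∀ a, ∃ b, q b = - q a := fun a =>
      (hqK _).1 (K.neg_mem ((hqK _).2 ⟨a, rfl⟩))
    have hQ0 : ∀ a, q a = 0 → Q a := fun a ha => (hQc.tot a a (by rw [ha, neg_zero])).elim id id
    have hP0 : ∀ a, q a = 0 → Pos a := fun a ha =>
      (hcone.tot a a (by rw [ha, neg_zero])).elim id id
    obtain ⟨u, hu1, hu2, hu3⟩ : ∃ u, Pos u ∧ q u ≠ 0 ∧ ¬ Q u := by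
      obtain ⟨a, ha⟩ := hcon1
      rcases ha with ⟨h1, h2⟩ | ⟨h1, h2⟩
      · obtain ⟨b, hb⟩ := hneg a
        refine ⟨b, (hcone.tot a b hb).resolve_left h2, fun h3 => ?_, fun h3 => ?_⟩
        · rw [h3] at hb
          exact h2 (hP0 a (neg_eq_zero.1 hb.symm))
        · exact h2 (hP0 a (hQc.anti a b h1 h3 hb))
      · exact ⟨a, h2, fun h3 => h1 (hQ0 a h3), h1⟩
    obtain ⟨v, hv1, hv2, hv3⟩ : ∃ v, Pos v ∧ q v ≠ 0 ∧ Q v := by
      rcases hcon2 with ⟨h1, h2⟩ | ⟨h1, h2⟩
      · refine ⟨a₂, (hcone.tot a₂ b₂ hab₂).resolve_right h2, fun h3 => ?_, h1⟩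
        exact h2 (hP0 b₂ (by rw [hab₂, h3, neg_zero]))
      · refine ⟨b₂, h2, fun h3 => ?_, (hQc.tot a₂ b₂ hab₂).resolve_left h1⟩
        rw [h3] at hab₂
        exact h1 (hQ0 a₂ (neg_eq_zero.1 hab₂.symm))
    -- a code of `Q`
    obtain ⟨f, hf, hfQ⟩ := hQ
    have hcode : Computable fun a => if f a = true then 1 else 0 :=
      Pool.Agent.H166R3.AT.c_ite hf (Computable.const 1) (Computable.const 0)
    obtain ⟨cd, hcd⟩ := Code.exists_code.1 (Partrec.nat_iff.1 hcode)
    set e := Encodable.encode cd with he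
    have hph1 : ∀ s a y, ph e s a = some y → y = if f a = true then 1 else 0 := by
      intro s a y h
      unfold ph at h
      rw [he, Denumerable.ofNat_encode] at h
      have h1 := Code.evaln_sound h
      rw [hcd] at h1
      simpa using h1
    have hph2 : ∀ a, ∃ s₀, ∀ s, s₀ ≤ s → ph e s a = some (if f a = true then 1 else 0) := by
      intro a
      have h1 : (if f a = true then 1 else 0) ∈ Code.eval cd a := by rw [hcd]; simp
      obtain ⟨s₀, hs₀⟩ := Code.evaln_complete.1 h1
      refine ⟨s₀, fun s hs => ?_⟩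
      unfold ph
      rw [he, Denumerable.ofNat_encode]
      exact Code.evaln_mono hs hs₀
    have hph3 : ∀ s a, ph e s a = some 1 → Q a := by
      intro s a h
      have h1 := hph1 s a 1 h
      by_contra h2
      rw [if_neg (fun h3 => h2 ((hfQ a).1 h3))] at h1
      exact absurd h1 one_ne_zero
    -- `e` never acts
    have hnot : ∀ s, e ∉ (S s).2.2 := by
      intro s hes
      obtain ⟨s', c, hs', hc1, ⟨a₀, ha₀, hca₀⟩, hc3⟩ := exists_cert hR hes hd0
      obtain ⟨t₁, ht₁⟩ := exists_stage (n := s') (P := fun a t => PP kk S t a = q a)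
        (fun a _ => ⟨L a, hq a⟩)
      set t := max s t₁
      obtain ⟨Θ, hΘ⟩ := exists_linear hR (le_max_left s t₁)
      have h1 : ∑ a ∈ Finset.range s', (((c a : ℕ) : ℚ) * (sg (ph e s' a) : ℚ)) • q a = 0 := by
        have h2 : ∑ a ∈ Finset.range s', (((c a : ℕ) : ℚ) * (sg (ph e s' a) : ℚ)) • q a =
            Θ (∑ a ∈ Finset.range s', (((c a : ℕ) : ℚ) * (sg (ph e s' a) : ℚ)) •
              PP kk S s a) := by
          rw [map_sum]
          refine Finset.sum_congr rfl fun a ha => ?_
          rw [Finset.mem_range] at ha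
          rw [map_smul, ← hΘ a (by omega), ht₁ a ha t (le_max_right _ _)]
        rw [h2, hc3, map_zero]
      -- the cone as a set of vectors
      let QS : Set QV := {w | ∃ a, q a = w ∧ Q a}
      have hQSadd : ∀ w ∈ QS, ∀ w' ∈ QS, w + w' ∈ QS := by
        rintro _ ⟨a, rfl, ha⟩ _ ⟨b, rfl, hb⟩
        obtain ⟨d, hd⟩ := (hqK (q a + q b)).1
          (K.add_mem ((hqK _).2 ⟨a, rfl⟩) ((hqK _).2 ⟨b, rfl⟩))
        exact ⟨d, hd, hQc.add a b d ha hb hd⟩
      have hQS0 : (0 : QV) ∈ QS := ⟨0, hq0, hQ0 0 hq0⟩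
      have hQSn : ∀ (n : ℕ), ∀ w ∈ QS, n • w ∈ QS := by
        intro n w hw
        induction n with
        | zero => rw [zero_smul]; exact hQS0
        | succ n ih => rw [succ_nsmul]; exact hQSadd _ ih _ hw
      have hQSanti : ∀ w ∈ QS, -w ∈ QS → w = 0 := by
        rintro _ ⟨a, rfl, ha⟩ ⟨b, hb, hb'⟩
        exact hQc.anti a b ha hb' hb
      have hQSsum : ∀ (F : Finset ℕ) (w : ℕ → QV), (∀ i ∈ F, w i ∈ QS) → ∑ i ∈ F, w i ∈ QS := by
        intro F w hw
        induction F using Finset.induction_on with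
        | empty => simpa using hQS0
        | insert a F ha ih =>
          rw [Finset.sum_insert ha]
          exact hQSadd _ (hw a (Finset.mem_insert_self _ _)) _
            (ih fun i hi => hw i (Finset.mem_insert_of_mem hi))
      have hterm : ∀ a ∈ Finset.range s',
          (((c a : ℕ) : ℚ) * (sg (ph e s' a) : ℚ)) • q a ∈ QS := by
        intro a ha
        rw [Finset.mem_range] at ha
        by_cases hca : c a = 0
        · rw [hca, Nat.cast_zero, zero_mul, zero_smul]; exact hQS0
        · rw [mul_smul, Nat.cast_smul_eq_nsmul]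
          apply hQSn
          by_cases h2 : ph e s' a = some 1
          · rw [sg, if_pos h2, Int.cast_one, one_smul]
            exact ⟨a, rfl, hph3 _ _ h2⟩
          · rw [sg, if_neg h2]
            push_cast
            rw [neg_smul, one_smul]
            obtain ⟨b, hb⟩ := hneg a
            refine ⟨b, hb, (hQc.tot a b hb).resolve_left fun h3 => h2 ?_⟩
            obtain ⟨y, hy⟩ := Option.isSome_iff_exists.1 (hc1 a ha hca).1
            have h4 := hph1 _ _ _ hy
            rw [if_pos ((hfQ a).2 h3)] at h4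
            rw [hy, h4]
      have h5 := hterm a₀ (Finset.mem_range.2 ha₀)
      have h6 : -((((c a₀ : ℕ) : ℚ) * (sg (ph e s' a₀) : ℚ)) • q a₀) ∈ QS := by
        rw [← Finset.add_sum_erase _ _ (Finset.mem_range.2 ha₀), add_eq_zero_iff_neg_eq] at h1
        rw [h1]
        exact hQSsum _ _ fun i hi => hterm i (Finset.mem_of_mem_erase hi)
      have h7 := hQSanti _ h5 h6
      rw [smul_eq_zero] at h7
      rcases h7 with h7 | h7
      · rcases mul_eq_zero.1 h7 with h8 | h8
        · exact hca₀ (by exact_mod_cast h8)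
        · rcases sg_cases (ph e s' a₀) with h9 | h9 <;> rw [h9] at h8 <;> norm_num at h8
      · have h8 : a₀ = 0 := hqinj (by rw [h7, hq0])
        exact (hc1 a₀ ha₀ hca₀).2 h8
    -- the protected names
    obtain ⟨s₁, hs₁⟩ := exists_quiet hR e
    have hcov : ∀ i, ∃ s₀ a, a ≤ s₀ ∧ ∀ s, s₀ ≤ s → PP kk S s a = val (kk i) := exists_cover hR
    choose sc ac hac hsc using hcov
    -- finite set of names
    let F : Finset ℕ := insert u (insert v (Finset.range (e + 1) ∪
      (Finset.range (e + 1)).image ac))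
    obtain ⟨M, hM⟩ : ∃ M : ℕ, ∀ a ∈ F, ∀ i, M ≤ i → q a i = 0 := by
      refine ⟨(F.sup fun a => (q a).support.sup id) + 1, fun a ha i hi => ?_⟩
      by_contra h
      have h1 : i ∈ (q a).support := Finsupp.mem_support_iff.2 h
      have h2 : i ≤ (q a).support.sup id := Finset.le_sup (f := id) h1
      have h3 : (q a).support.sup id ≤ F.sup fun a => (q a).support.sup id :=
        Finset.le_sup (f := fun a => (q a).support.sup id) ha
      omega
    obtain ⟨x, hx⟩ := (hqK _).1 (hunit M)
    -- a late stage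
    obtain ⟨B, hB⟩ : ∃ B, ∀ a ∈ insert x F, a < B := by
      refine ⟨(insert x F).sup id + 1, fun a ha => ?_⟩
      have := Finset.le_sup (f := id) ha
      simp only [id] at this
      omega
    obtain ⟨s₂, hs₂⟩ := exists_stage (n := B) (P := fun a t => a ≤ t ∧ PP kk S t a = q a)
      (fun a _ => ⟨L a, fun s hs => ⟨(hL1 a).trans hs, hq a s hs⟩⟩)
    obtain ⟨s₃, hs₃⟩ := exists_stage (n := B)
      (P := fun a t => ph e t a = some (if f a = true then 1 else 0)) (fun a _ => hph2 a)
    obtain ⟨s₄, hs₄⟩ := exists_stage (n := e + 1)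
      (P := fun i t => PP kk S t (ac i) = val (kk i) ∧ ac i ≤ t)
      (fun i _ => ⟨sc i, fun s hs => ⟨hsc i s hs, (hac i).trans hs⟩⟩)
    set s := max s₁ (max s₂ (max s₃ (max s₄ (max e M)))) with hs
    have b1 : s₁ ≤ s := le_max_left _ _
    have b2 : s₂ ≤ s := (le_max_left _ _).trans (le_max_right _ _)
    have b3 : s₃ ≤ s := (le_max_left _ _).trans ((le_max_right _ _).trans (le_max_right _ _))
    have b4 : s₄ ≤ s := (le_max_left _ _).trans ((le_max_right _ _).trans
      ((le_max_right _ _).trans (le_max_right _ _)))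
    have b5 : max e M ≤ s := (le_max_right _ _).trans ((le_max_right _ _).trans
      ((le_max_right _ _).trans (le_max_right _ _)))
    have b6 : e ≤ s := (le_max_left _ _).trans b5
    have b7 : M ≤ s := (le_max_right _ _).trans b5
    have hF : ∀ a ∈ insert x F, a ≤ s ∧ PP kk S s a = q a ∧
        ph e s a = some (if f a = true then 1 else 0) := fun a ha =>
      ⟨(hs₂ a (hB a ha) s b2).1, (hs₂ a (hB a ha) s b2).2, hs₃ a (hB a ha) s b3⟩
    have hxF : x ∈ insert x F := Finset.mem_insert_self _ _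
    have huF : u ∈ F := Finset.mem_insert_self _ _
    have hvF : v ∈ F := Finset.mem_insert_of_mem (Finset.mem_insert_self _ _)
    have hprotF : ∀ a ≤ s, Prot kk (S s).1 e a → a ∈ F := by
      intro a ha hp
      rcases hp with h1 | ⟨i, hi, h1⟩
      · refine Finset.mem_insert_of_mem (Finset.mem_insert_of_mem (Finset.mem_union_left _ ?_))
        exact Finset.mem_range.2 (by omega)
      · refine Finset.mem_insert_of_mem (Finset.mem_insert_of_mem (Finset.mem_union_right _ ?_))
        refine Finset.mem_image.2 ⟨i, Finset.mem_range.2 hi, ?_⟩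
        have h2 := hs₄ i hi s b4
        exact PP_inj hR h2.2 ha (h2.1.trans h1.symm)
    have hlen := (inv_all hR s).2
    have hcrit : Crit kk s e (S s).1 (S s).2.1 := by
      refine ⟨x, ?_, u, ?_, v, ?_, M, by omega, ?_, ?_, ?_, ?_, ?_, ?_, ?_, ?_⟩
      · rw [hlen]; have := (hF x hxF).1; omega
      · rw [hlen]; have := (hF u (Finset.mem_insert_of_mem huF)).1; omega
      · rw [hlen]; have := (hF v (Finset.mem_insert_of_mem hvF)).1; omega
      · rw [val_uc]
        exact (hF x hxF).2.1.trans hx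
      · intro a ha hp
        rw [hlen] at ha
        have haF : a ∈ F := by
          rcases hp with hp | hp | hp
          · exact hprotF a (by omega) hp
          · rw [hp]; exact huF
          · rw [hp]; exact hvF
        have h1 := hF a (Finset.mem_insert_of_mem haF)
        refine ⟨fun i _ hi => ?_, by rw [h1.2.2]; rfl⟩
        change PP kk S s a i = 0
        rw [h1.2.1]
        exact hM a haF i hi
      · rw [(hF x hxF).2.2]; rfl
      · rw [(hF u (Finset.mem_insert_of_mem huF)).2.2, if_neg fun h => hu3 ((hfQ u).1 h)]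
        simp
      · rw [(hF v (Finset.mem_insert_of_mem hvF)).2.2, if_pos ((hfQ v).2 hv3)]
      · change 0 < FF S s (PP kk S s u)
        have h1 := (hF u (Finset.mem_insert_of_mem huF)).1
        refine lt_of_le_of_ne ((hpos u s h1).1 hu1) (hne u s h1 ?_).symm
        intro h2; exact hu2 (by rw [h2, hq0])
      · change 0 < FF S s (PP kk S s v)
        have h1 := (hF v (Finset.mem_insert_of_mem hvF)).1
        refine lt_of_le_of_ne ((hpos v s h1).1 hv1) (hne v s h1 ?_).symm
        intro h2; exact hv2 (by rw [h2, hq0])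
      · -- linear independence
        by_contra hdep
        push Not at hdep
        have hPu : nm kk (S s).1 u = q u := (hF u (Finset.mem_insert_of_mem huF)).2.1
        have hPv : nm kk (S s).1 v = q v := (hF v (Finset.mem_insert_of_mem hvF)).2.1
        rw [hPu, hPv] at hdep
        -- a nonzero coordinate of `q v`
        obtain ⟨j, hj⟩ : ∃ j, q v j ≠ 0 := by
          by_contra h
          push Not at h
          exact hv2 (Finsupp.ext h)
        have hjM : j < M := by
          by_contra h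
          exact hj (hM v hvF j (by omega))
        have hprop : q u = (q u j / q v j) • q v := by
          ext i
          rw [Finsupp.smul_apply, smul_eq_mul]
          by_cases hi : i < M
          · have := hdep i hi j hjM
            field_simp
            linarith
          · rw [hM u huF i (by omega), hM v hvF i (by omega), mul_zero]
        set ρ := q u j / q v j with hρ
        -- positivity of the ratio
        have hρpos : 0 < ρ := by
          have h1 : 0 < FF S s (q u) := by
            have h2 := (hF u (Finset.mem_insert_of_mem huF)).1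
            rw [← hPu]
            refine lt_of_le_of_ne ((hpos u s h2).1 hu1) (hne u s h2 ?_).symm
            intro h2; exact hu2 (by rw [h2, hq0])
          have h2 : 0 < FF S s (q v) := by
            have h2 := (hF v (Finset.mem_insert_of_mem hvF)).1
            rw [← hPv]
            refine lt_of_le_of_ne ((hpos v s h2).1 hv1) (hne v s h2 ?_).symm
            intro h2; exact hv2 (by rw [h2, hq0])
          rw [hprop, map_smul, smul_eq_mul] at h1
          exact pos_of_mul_pos_left h1 h2.le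
        -- `den • q u = num • q v`
        have h3 : (ρ.den : ℕ) • q u = (ρ.num.toNat) • q v := by
          have h4 : ((ρ.num.toNat : ℕ) : ℚ) = ρ.num := by
            have : ((ρ.num.toNat : ℕ) : ℤ) = ρ.num :=
              Int.toNat_of_nonneg (Rat.num_pos.2 hρpos).le
            exact_mod_cast this
          rw [← Nat.cast_smul_eq_nsmul ℚ, ← Nat.cast_smul_eq_nsmul ℚ, h4, hprop, smul_smul]
          congr 1
          rw [mul_comm]
          exact Rat.mul_den_eq_num _
        -- contradiction with the cone `Q`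
        let QS : Set QV := {w | ∃ a, q a = w ∧ Q a}
        have hQSadd : ∀ w ∈ QS, ∀ w' ∈ QS, w + w' ∈ QS := by
          rintro _ ⟨a, rfl, ha⟩ _ ⟨b, rfl, hb⟩
          obtain ⟨d, hd⟩ := (hqK (q a + q b)).1
            (K.add_mem ((hqK _).2 ⟨a, rfl⟩) ((hqK _).2 ⟨b, rfl⟩))
          exact ⟨d, hd, hQc.add a b d ha hb hd⟩
        have hQS0 : (0 : QV) ∈ QS := ⟨0, hq0, hQ0 0 hq0⟩
        have hQSn : ∀ (n : ℕ), ∀ w ∈ QS, n • w ∈ QS := by
          intro n w hw
          induction n with
          | zero => rw [zero_smul]; exact hQS0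
          | succ n ih => rw [succ_nsmul]; exact hQSadd _ ih _ hw
        have hQSanti : ∀ w ∈ QS, -w ∈ QS → w = 0 := by
          rintro _ ⟨a, rfl, ha⟩ ⟨b, hb, hb'⟩
          exact hQc.anti a b ha hb' hb
        have h5 : -(q u) ∈ QS := by
          obtain ⟨b, hb⟩ := hneg u
          exact ⟨b, hb, (hQc.tot u b hb).resolve_left hu3⟩
        have h6 : q v ∈ QS := ⟨v, rfl, hv3⟩
        have h7 : (ρ.den : ℕ) • q u ∈ QS := by rw [h3]; exact hQSn _ _ h6
        have h8 : -((ρ.den : ℕ) • q u) ∈ QS := by rw [← smul_neg]; exact hQSn _ _ h5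
        have h9 := hQSanti _ h7 h8
        rw [← Nat.cast_smul_eq_nsmul ℚ, smul_eq_zero] at h9
        rcases h9 with h9 | h9
        · exact ρ.den_nz (by exact_mod_cast h9)
        · exact hu2 h9
    rcases (step_spec hR s).1 with ⟨e', he', hd', hmin, h, _⟩ | ⟨hno, _, _⟩
    · have h1 : e' ≤ e := by
        by_contra h2
        push Not at h2
        exact hmin e h2 ⟨hnot s, hcrit⟩
      exact hs₁ s b1 e' h1 hd' (by rw [h]; exact List.mem_cons_self)
    · exact hno e b6 ⟨hnot s, hcrit⟩

end Pool.Agent.V8H40.OG
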