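import Pool.Agent.R557.DSRat

/-!
# Decidable predicates, computable searches, rational vectors
-/

set_option autoImplicit false

namespace Pool.Agent.V8H40.OG

open Encodable
open Pool.Agent.H166R3.AT (c_and c_or c_not c_le c_lt c_eq c_ball c_bex c_find ball ball_iff bex
  bex_iff)
open Pool.Agent.R557.DS (CQ)

variable {α β : Type*} [Primcodable α] [Primcodable β]

/-- a decidable predicate, with a computable characteristic function -/
def CP (p : α → Prop) : Prop := ∃ f : α → Bool, Computable f ∧ ∀ a, f a = true ↔ p a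

theorem CP.of_iff {p q : α → Prop} (hp : CP p) (h : ∀ a, p a ↔ q a) : CP q := by
  obtain ⟨f, hf, hfp⟩ := hp
  exact ⟨f, hf, fun a => (hfp a).trans (h a)⟩

theorem CP.of_dec {p : α → Prop} [DecidablePred p] (h : Computable fun a => decide (p a)) :
    CP p := ⟨_, h, fun _ => decide_eq_true_iff⟩

theorem CP.dec {p : α → Prop} [DecidablePred p] (h : CP p) : Computable fun a => decide (p a) := by
  obtain ⟨f, hf, hfp⟩ := h
  refine hf.of_eq fun a => ?_
  have := hfp a
  by_cases h1 : p a
  · rw [this.2 h1]; simp [h1]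
  · have h2 : f a = false := by
      rw [← Bool.not_eq_true]; exact fun h3 => h1 (this.1 h3)
    rw [h2]; simp [h1]

theorem CP.and {p q : α → Prop} (hp : CP p) (hq : CP q) : CP fun a => p a ∧ q a := by
  obtain ⟨f, hf, hfp⟩ := hp
  obtain ⟨g, hg, hgq⟩ := hq
  exact ⟨_, c_and hf hg, fun a => by rw [Bool.and_eq_true, hfp, hgq]⟩

theorem CP.or {p q : α → Prop} (hp : CP p) (hq : CP q) : CP fun a => p a ∨ q a := by
  obtain ⟨f, hf, hfp⟩ := hp
  obtain ⟨g, hg, hgq⟩ := hq
  exact ⟨_, c_or hf hg, fun a => by rw [Bool.or_eq_true, hfp, hgq]⟩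

theorem CP.not {p : α → Prop} (hp : CP p) : CP fun a => ¬ p a := by
  obtain ⟨f, hf, hfp⟩ := hp
  refine ⟨_, c_not hf, fun a => ?_⟩
  rw [Bool.not_eq_true', ← Bool.not_eq_true, hfp]

theorem CP.imp {p q : α → Prop} (hp : CP p) (hq : CP q) : CP fun a => p a → q a :=
  (hp.not.or hq).of_iff fun _ => imp_iff_not_or.symm

theorem CP.comp {p : β → Prop} (hp : CP p) {f : α → β} (hf : Computable f) :
    CP fun a => p (f a) := by
  obtain ⟨g, hg, hgp⟩ := hp
  exact ⟨_, hg.comp hf, fun a => hgp (f a)⟩

theorem CP.const (p : Prop) : CP fun _ : α => p := by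
  classical
  exact ⟨fun _ => decide p, Computable.const _, fun _ => decide_eq_true_iff⟩

theorem CP.eq {f g : α → β} [DecidableEq β] (hf : Computable f) (hg : Computable g) :
    CP fun a => f a = g a := CP.of_dec (c_eq hf hg)

theorem CP.le {f g : α → ℕ} (hf : Computable f) (hg : Computable g) :
    CP fun a => f a ≤ g a := CP.of_dec (c_le hf hg)

theorem CP.lt {f g : α → ℕ} (hf : Computable f) (hg : Computable g) :
    CP fun a => f a < g a := CP.of_dec (c_lt hf hg)

theorem CP.ball {n : α → ℕ} {p : α → ℕ → Prop} (hn : Computable n)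
    (hp : CP fun b : α × ℕ => p b.1 b.2) : CP fun a => ∀ i < n a, p a i := by
  obtain ⟨f, hf, hfp⟩ := hp
  have h1 : Computable₂ fun (a : α) (i : ℕ) => f (a, i) := hf
  refine ⟨_, c_ball hn h1, fun a => ?_⟩
  rw [ball_iff]
  exact forall₂_congr fun i _ => hfp (a, i)

theorem CP.bex {n : α → ℕ} {p : α → ℕ → Prop} (hn : Computable n)
    (hp : CP fun b : α × ℕ => p b.1 b.2) : CP fun a => ∃ i < n a, p a i := by
  obtain ⟨f, hf, hfp⟩ := hp
  have h1 : Computable₂ fun (a : α) (i : ℕ) => f (a, i) := hf
  refine ⟨_, c_bex hn h1, fun a => ?_⟩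
  rw [bex_iff]
  exact exists_congr fun i => and_congr_right fun _ => hfp (a, i)

theorem CP.mem [DecidableEq β] {b : α → β} {L : α → List β} (hb : Computable b)
    (hL : Computable L) : CP fun a => b a ∈ L a :=
  ⟨_, Pool.Agent.H166R3.AT.c_mem hb hL, fun _ => Pool.Agent.H166R3.AT.mem_iff⟩

/-- a computable total search -/
theorem CP.search {R : α → β → Prop} (hR : CP fun x : α × β => R x.1 x.2)
    (h : ∀ a, ∃ b, R a b) : ∃ g : α → β, Computable g ∧ ∀ a, R a (g a) := by
  classical
  obtain ⟨f, hf, hfR⟩ := hR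
  have h1 : Computable₂ fun (a : α) (n : ℕ) =>
      (((decode n : Option β).map fun b => f (a, b)).getD false) := by
    refine Computable.option_getD ?_ (Computable.const false)
    refine Computable.option_map (Computable.decode.comp Computable.snd) ?_
    exact hf.comp (Computable.pair (Computable.fst.comp Computable.fst) Computable.snd)
  have h2 : ∀ a, ∃ n, (((decode n : Option β).map fun b => f (a, b)).getD false) = true := by
    intro a
    obtain ⟨b, hb⟩ := h a
    exact ⟨encode b, by simp [(hfR (a, b)).2 hb]⟩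
  have h3 := c_find h1 h2
  have h4 : ∀ a, ∃ b, (decode (Nat.find (h2 a)) : Option β) = some b ∧ f (a, b) = true := by
    intro a
    have := Nat.find_spec (h2 a)
    cases hd : (decode (Nat.find (h2 a)) : Option β) with
    | none => rw [hd] at this; simp at this
    | some b => exact ⟨b, rfl, by rw [hd] at this; simpa using this⟩
  choose g hg hg2 using h4
  refine ⟨g, ?_, fun a => (hfR _).1 (hg2 a)⟩
  have h5 : Computable fun a => (decode (Nat.find (h2 a)) : Option β) :=
    Computable.decode.comp h3
  have h6 : Computable fun a => some (g a) := h5.of_eq fun a => hg a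
  exact Computable.option_some_iff.1 h6

/-- least number below a bound with a decidable property -/
theorem CP.least {n : α → ℕ} {p : α → ℕ → Prop} (hn : Computable n)
    (hp : CP fun b : α × ℕ => p b.1 b.2) :
    ∃ g : α → Option ℕ, Computable g ∧ (∀ a, g a = none ↔ ∀ i < n a, ¬ p a i) ∧
      ∀ a i, g a = some i ↔ i < n a ∧ p a i ∧ ∀ j < i, ¬ p a j := by
  classical
  have h1 : CP fun x : α × ℕ => (x.2 < n x.1 ∧ p x.1 x.2 ∧ ∀ j < x.2, ¬ p x.1 j) ∨
      (x.2 = n x.1 ∧ ∀ j < n x.1, ¬ p x.1 j) := by
    have hp2 : CP fun b : (α × ℕ) × ℕ => ¬ p b.1.1 b.2 :=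
      (hp.comp (Computable.pair (Computable.fst.comp Computable.fst) Computable.snd)).not
    refine CP.or ((CP.lt Computable.snd (hn.comp Computable.fst)).and (hp.and ?_))
      ((CP.eq Computable.snd (hn.comp Computable.fst)).and ?_)
    · exact CP.ball Computable.snd hp2
    · exact CP.ball (hn.comp Computable.fst) hp2
  obtain ⟨g, hg, hgR⟩ := CP.search (R := fun (a : α) (m : ℕ) =>
      (m < n a ∧ p a m ∧ ∀ j < m, ¬ p a j) ∨ (m = n a ∧ ∀ j < n a, ¬ p a j)) h1 (fun a => by
    by_cases h : ∃ i, i < n a ∧ p a i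
    · refine ⟨Nat.find h, Or.inl ⟨(Nat.find_spec h).1, (Nat.find_spec h).2, fun j hj hpj => ?_⟩⟩
      exact Nat.find_min h hj ⟨hj.trans (Nat.find_spec h).1, hpj⟩
    · push Not at h
      exact ⟨n a, Or.inr ⟨rfl, h⟩⟩)
  refine ⟨fun a => if g a < n a then some (g a) else none, ?_, fun a => ?_, fun a i => ?_⟩
  · exact Pool.Agent.R557.CK.c_ite' (c_lt hg hn) (Computable.option_some.comp hg)
      (Computable.const none)
  · beta_reduce
    rcases hgR a with ⟨h2, h3, h4⟩ | ⟨h2, h3⟩
    · rw [if_pos h2]
      simp only [reduceCtorEq, false_iff, not_forall]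
      exact ⟨g a, h2, not_not_intro h3⟩
    · rw [if_neg (by omega)]
      simp only [true_iff]
      exact h3
  · beta_reduce
    rcases hgR a with ⟨h2, h3, h4⟩ | ⟨h2, h3⟩
    · rw [if_pos h2, Option.some_inj]
      constructor
      · rintro rfl
        exact ⟨h2, h3, h4⟩
      · rintro ⟨h5, h6, h7⟩
        rcases lt_trichotomy (g a) i with h8 | h8 | h8
        · exact absurd h3 (h7 _ h8)
        · exact h8
        · exact absurd h6 (h4 _ h8)
    · rw [if_neg (by omega)]
      simp only [reduceCtorEq, false_iff]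
      rintro ⟨h5, h6, _⟩
      exact h3 i h5 h6

theorem CP.ratle {f g : α → ℚ} (hf : CQ f) (hg : CQ g) : CP fun a => f a ≤ g a :=
  CP.of_dec (CQ.le hf hg)

theorem CP.ratlt {f g : α → ℚ} (hf : CQ f) (hg : CQ g) : CP fun a => f a < g a :=
  (CP.ratle hg hf).not.of_iff fun _ => not_le

theorem CP.rateq {f g : α → ℚ} (hf : CQ f) (hg : CQ g) : CP fun a => f a = g a :=
  ((CP.ratle hf hg).and (CP.ratle hg hf)).of_iff fun _ => le_antisymm_iff.symm

/-! ### Rational vectors -/

/-- codes of vectors: numerators and a common denominator minus one -/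
abbrev Vc := List ℤ × ℕ

/-- rational vectors of finite support -/
abbrev QV := ℕ →₀ ℚ

/-- the vector with a given code -/
noncomputable def val (x : Vc) : QV :=
  Finsupp.onFinset (Finset.range x.1.length) (fun i => (x.1.getD i 0 : ℚ) / (x.2 + 1)) (by
    intro i hi
    rw [Finset.mem_range]
    by_contra h
    push Not at h
    apply hi
    rw [List.getD_eq_getElem?_getD, List.getElem?_eq_none h]
    simp)

theorem val_apply (x : Vc) (i : ℕ) : val x i = (x.1.getD i 0 : ℚ) / (x.2 + 1) := rfl

theorem val_eq_zero {x : Vc} {i : ℕ} (h : x.1.length ≤ i) : val x i = 0 := by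
  rw [val_apply, List.getD_eq_getElem?_getD, List.getElem?_eq_none h]
  simp

/-- the functional with given integer coefficients -/
noncomputable def fn (r : List ℤ) : QV →ₗ[ℚ] ℚ :=
  ∑ i ∈ Finset.range r.length, (r.getD i 0 : ℚ) • Finsupp.lapply i

theorem fn_apply (r : List ℤ) (v : QV) :
    fn r v = ∑ i ∈ Finset.range r.length, (r.getD i 0 : ℚ) * v i := by
  simp [fn, LinearMap.sum_apply]

theorem CQ_getD {L : α → List ℤ} {i : α → ℕ} (hL : Computable L) (hi : Computable i) :
    CQ fun a => ((L a).getD (i a) 0 : ℚ) :=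
  CQ.int ((Primrec.list_getD (0 : ℤ)).to_comp.comp hL hi)

theorem CQ_val {x : α → Vc} {i : α → ℕ} (hx : Computable x) (hi : Computable i) :
    CQ fun a => val (x a) (i a) := by
  refine ⟨fun a => (x a).1.getD (i a) 0, fun a => (x a).2, ?_, Computable.snd.comp hx, fun a => ?_⟩
  · exact (Primrec.list_getD (0 : ℤ)).to_comp.comp (Computable.fst.comp hx) hi
  · exact val_apply _ _

theorem CQ_fn {r : α → List ℤ} {x : α → Vc} (hr : Computable r) (hx : Computable x) :
    CQ fun a => fn (r a) (val (x a)) := by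
  refine CQ.of_eq (CQ.sum (n := fun a => (r a).length)
    (f := fun a i => ((r a).getD i 0 : ℚ) * val (x a) i) (Computable.list_length.comp hr) ?_)
    fun a => (fn_apply _ _).symm
  exact (CQ_getD (hr.comp Computable.fst) Computable.snd).mul
    (CQ_val (hx.comp Computable.fst) Computable.snd)

/-- equality of two computable families of vectors -/
theorem CP.veq {x y : α → Vc} (hx : Computable x) (hy : Computable y) :
    CP fun a => val (x a) = val (y a) := by
  have h1 : CP fun a => ∀ i < (x a).1.length + (y a).1.length, val (x a) i = val (y a) i := by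
    refine CP.ball ?_ (CP.rateq (CQ_val (hx.comp Computable.fst) Computable.snd)
      (CQ_val (hy.comp Computable.fst) Computable.snd))
    exact Pool.Agent.H166R3.AT.c_add (Computable.list_length.comp (Computable.fst.comp hx))
      (Computable.list_length.comp (Computable.fst.comp hy))
  refine h1.of_iff fun a => ⟨fun h => ?_, fun h i _ => by rw [h]⟩
  ext i
  by_cases hi : i < (x a).1.length + (y a).1.length
  · exact h i hi
  · rw [val_eq_zero (by omega), val_eq_zero (by omega)]

end Pool.Agent.V8H40.OG
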