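import Pool.Agent.V8H40.OG.Grp

/-!
# Computable bases in the limit
-/

set_option autoImplicit false

namespace Pool.Agent.V8H40.OG

open Submodule

theorem c_fact : Computable fun n : ℕ => n.factorial := by
  have h1 : Computable₂ fun (_ : ℕ) (b : ℕ × ℕ) => (b.1 + 1) * b.2 :=
    Pool.Agent.H166R3.AT.c_mul (Computable.succ.comp (Computable.fst.comp Computable.snd))
      (Computable.snd.comp Computable.snd)
  refine (Computable.nat_rec Computable.id (Computable.const 1) h1).of_eq fun n => ?_
  have key : ∀ k, Nat.rec (motive := fun _ => ℕ) 1 (fun y IH => (y + 1) * IH) k =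
      k.factorial := by
    intro k
    induction k with
    | zero => rfl
    | succ k ih => rw [Nat.factorial_succ, ← ih]
  exact key n

section run

variable {H : Type} [AddCommGroup H] (ν : ℕ ≃ H)

/-- one stage of the construction -/
def DStep (s : ℕ) (y y' : List ℕ) : Prop :=
  (∃ i < s, ∃ j < s, Seen ν s (y.take i) (y.getD i 0) ∧
    (∀ i' < i, ¬ Seen ν s (y.take i') (y.getD i' 0)) ∧
    ¬ Seen ν s (y.take i) j ∧ (∀ j' < j, Seen ν s (y.take i) j') ∧
    y' = y.set i (ν.symm (ν (y.getD i 0) + ν (ν.symm (s.factorial • ν j)))) ++ [s]) ∨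
  ((∀ i < s, Seen ν s (y.take i) (y.getD i 0) →
    (∀ i' < i, ¬ Seen ν s (y.take i') (y.getD i' 0)) → ∀ j < s, Seen ν s (y.take i) j) ∧
    y' = y ++ [s])

theorem exists_DStep (s : ℕ) (y : List ℕ) : ∃ y', DStep ν s y y' := by
  classical
  by_cases h : ∃ i < s, Seen ν s (y.take i) (y.getD i 0) ∧
    (∀ i' < i, ¬ Seen ν s (y.take i') (y.getD i' 0)) ∧ ∃ j < s, ¬ Seen ν s (y.take i) j
  · obtain ⟨i, hi, h1, h2, h3⟩ := h
    have h4 : ∃ j, j < s ∧ ¬ Seen ν s (y.take i) j := h3
    refine ⟨_, Or.inl ⟨i, hi, Nat.find h4, (Nat.find_spec h4).1, h1, h2, (Nat.find_spec h4).2,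
      fun j' hj' => ?_, rfl⟩⟩
    by_contra h5
    exact Nat.find_min h4 hj' ⟨hj'.trans (Nat.find_spec h4).1, h5⟩
  · push Not at h
    exact ⟨_, Or.inr ⟨h, rfl⟩⟩

theorem DStep_CP (hν : Computable₂ (fun a b : ℕ => ν.symm (ν a + ν b))) {α : Type*}
    [Primcodable α] {s : α → ℕ} {y y' : α → List ℕ} (hs : Computable s) (hy : Computable y)
    (hy' : Computable y') : CP fun a => DStep ν (s a) (y a) (y' a) := by
  unfold DStep
  have hg : ∀ {β : Type _} [Primcodable β] {l : β → List ℕ} {i : β → ℕ}, Computable l →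
      Computable i → Computable fun b => (l b).getD (i b) 0 := fun hl hi =>
    (Primrec.list_getD (0 : ℕ)).to_comp.comp hl hi
  have ht : ∀ {β : Type _} [Primcodable β] {l : β → List ℕ} {i : β → ℕ}, Computable l →
      Computable i → Computable fun b => (l b).take (i b) := fun hl hi =>
    Primrec.list_take.to_comp.comp hi hl
  have c1 : Computable fun a : (α × ℕ) × ℕ => a.1.1 := Computable.fst.comp Computable.fst
  have c2 : Computable fun a : (α × ℕ) × ℕ => a.1.2 := Computable.snd.comp Computable.fst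
  have c3 : Computable fun a : (α × ℕ) × ℕ => a.2 := Computable.snd
  have d1 : Computable fun a : ((α × ℕ) × ℕ) × ℕ => a.1 := Computable.fst
  have d2 : Computable fun a : ((α × ℕ) × ℕ) × ℕ => a.2 := Computable.snd
  refine CP.or (CP.bex hs (CP.bex (hs.comp Computable.fst) ?_)) (CP.and (CP.ball hs ?_) ?_)
  · refine CP.and (Seen_CP hν (hs.comp c1) (hg (hy.comp c1) c2) (ht (hy.comp c1) c2)) ?_
    refine CP.and (CP.ball c2 (Seen_CP hν (hs.comp (c1.comp d1)) (hg (hy.comp (c1.comp d1)) d2)
      (ht (hy.comp (c1.comp d1)) d2)).not) ?_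
    refine CP.and (Seen_CP hν (hs.comp c1) c3 (ht (hy.comp c1) c2)).not ?_
    refine CP.and (CP.ball c3 (Seen_CP hν (hs.comp (c1.comp d1)) d2
      (ht (hy.comp (c1.comp d1)) (c2.comp d1)))) ?_
    refine CP.eq (hy'.comp c1) ?_
    refine Primrec.list_append.to_comp.comp ?_ ?_
    · refine Primrec.list_set.to_comp.comp (hy.comp c1) (Computable.pair c2 ?_)
      refine g_add hν (hg (hy.comp c1) c2) (g_nsmul hν ?_ c3)
      exact c_fact.comp (hs.comp c1)
    · exact Computable.list_cons.comp (hs.comp c1) (Computable.const [])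
  · refine CP.imp (Seen_CP hν (hs.comp Computable.fst) (hg (hy.comp Computable.fst)
      Computable.snd) (ht (hy.comp Computable.fst) Computable.snd)) ?_
    refine CP.imp (CP.ball Computable.snd (Seen_CP hν (hs.comp c1) (hg (hy.comp c1) c3)
      (ht (hy.comp c1) c3)).not) ?_
    exact CP.ball (hs.comp Computable.fst) (Seen_CP hν (hs.comp c1) c3 (ht (hy.comp c1) c2))
  · refine CP.eq hy' (Primrec.list_append.to_comp.comp hy ?_)
    exact Computable.list_cons.comp hs (Computable.const [])

theorem exists_drun (hν : Computable₂ (fun a b : ℕ => ν.symm (ν a + ν b))) :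
    ∃ Y : ℕ → List ℕ, Computable Y ∧ Y 0 = [] ∧ ∀ s, DStep ν s (Y s) (Y (s + 1)) := by
  obtain ⟨g, hg, hg2⟩ := CP.search (R := fun (a : ℕ × List ℕ) (b : List ℕ) =>
    DStep ν a.1 a.2 b) (DStep_CP ν hν (Computable.fst.comp Computable.fst)
      (Computable.snd.comp Computable.fst) Computable.snd) (fun a => exists_DStep ν a.1 a.2)
  refine ⟨fun n => Nat.rec (motive := fun _ => List ℕ) [] (fun s IH => g (s, IH)) n, ?_, rfl,
    fun s => hg2 (s, _)⟩
  exact Computable.nat_rec Computable.id (Computable.const []) (hg.comp Computable.snd)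

end run

section analysis

variable {H : Type} [AddCommGroup H] {ν : ℕ ≃ H} {Y : ℕ → List ℕ}
  {V : Type} [AddCommGroup V] [Module ℚ V] {ι : H →+ V}

/-- the current elements -/
def EE (ν : ℕ ≃ H) (Y : ℕ → List ℕ) (s i : ℕ) : H := ν ((Y s).getD i 0)

/-- the span of the first elements -/
def SQ (ν : ℕ ≃ H) (Y : ℕ → List ℕ) (ι : H →+ V) (s m : ℕ) : Submodule ℚ V :=
  span ℚ {v | ∃ i < m, v = ι (EE ν Y s i)}

theorem SQ_mono {s m m' : ℕ} (h : m ≤ m') : SQ ν Y ι s m ≤ SQ ν Y ι s m' :=
  span_mono fun _ ⟨i, hi, hv⟩ => ⟨i, by omega, hv⟩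

theorem mem_SQ {s m i : ℕ} (h : i < m) : ι (EE ν Y s i) ∈ SQ ν Y ι s m :=
  subset_span ⟨i, h, rfl⟩

theorem SQ_congr {s t m : ℕ} (h : ∀ i < m, EE ν Y t i = EE ν Y s i) :
    SQ ν Y ι t m = SQ ν Y ι s m := by
  unfold SQ
  congr 1
  ext v
  refine exists_congr fun i => and_congr_right fun hi => ?_
  rw [h i hi]

variable (hY0 : Y 0 = []) (hY : ∀ s, DStep ν s (Y s) (Y (s + 1)))

include hY0 hY

theorem Y_length (s : ℕ) : (Y s).length = s := by
  induction s with
  | zero => rw [hY0]; rfl
  | succ s ih =>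
    rcases hY s with ⟨i, _, j, _, _, _, _, _, h⟩ | ⟨_, h⟩ <;> rw [h] <;> simp [ih]

theorem SpL_take {s m : ℕ} (h : m ≤ s) : SpL ν ι ((Y s).take m) = SQ ν Y ι s m := by
  have hl : ((Y s).take m).length = m := by
    rw [List.length_take, Y_length hY0 hY]; omega
  unfold SpL SQ EE
  congr 1
  ext v
  rw [hl]
  refine exists_congr fun i => and_congr_right fun hi => ?_
  rw [List.getD_eq_getElem?_getD, List.getD_eq_getElem?_getD, List.getElem?_take_of_lt hi]

theorem Seen_mem {s m x : ℕ} (h : m ≤ s) {t : ℕ} (hs : Seen ν t ((Y s).take m) x) :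
    ι (ν x) ∈ SQ ν Y ι s m := by
  obtain ⟨k, _, hk⟩ := hs
  rw [← SpL_take hY0 hY h]
  exact DepW_mem hk

theorem exists_Seen (hι : Function.Injective ι) {s m x : ℕ} (h : m ≤ s)
    (hx : ι (ν x) ∈ SQ ν Y ι s m) : ∃ t, Seen ν t ((Y s).take m) x := by
  rw [← SpL_take hY0 hY h] at hx
  obtain ⟨w, hw⟩ := exists_DepW hι hx
  refine ⟨Encodable.encode w + 1, Encodable.encode w, by omega, ?_⟩
  rw [wv_encode]
  exact hw

theorem EE_new (s : ℕ) : EE ν Y (s + 1) s = ν s := by
  have hl := Y_length hY0 hY s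
  unfold EE
  congr 1
  rcases hY s with ⟨i, _, j, _, _, _, _, _, h⟩ | ⟨_, h⟩
  · rw [h, List.getD_eq_getElem?_getD, List.getElem?_append_right (by simp [hl])]
    simp [hl]
  · rw [h, List.getD_eq_getElem?_getD, List.getElem?_append_right (by simp [hl])]
    simp [hl]

theorem step_cases (s : ℕ) :
    ((∀ i < s, EE ν Y (s + 1) i = EE ν Y s i) ∧
      ∀ i < s, Seen ν s ((Y s).take i) ((Y s).getD i 0) →
        (∀ i' < i, ¬ Seen ν s ((Y s).take i') ((Y s).getD i' 0)) →
          ∀ j < s, Seen ν s ((Y s).take i) j) ∨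
    ∃ i₀ < s, ∃ j, Seen ν s ((Y s).take i₀) ((Y s).getD i₀ 0) ∧
      (∀ i' < i₀, ¬ Seen ν s ((Y s).take i') ((Y s).getD i' 0)) ∧
      ¬ Seen ν s ((Y s).take i₀) j ∧ (∀ j' < j, Seen ν s ((Y s).take i₀) j') ∧
      EE ν Y (s + 1) i₀ = EE ν Y s i₀ + s.factorial • ν j ∧
      ∀ i < s, i ≠ i₀ → EE ν Y (s + 1) i = EE ν Y s i := by
  have hl := Y_length hY0 hY s
  rcases hY s with ⟨i, hi, j, hj, h1, h2, h3, h4, h⟩ | ⟨h1, h⟩
  · refine Or.inr ⟨i, hi, j, h1, h2, h3, h4, ?_, fun k hk hki => ?_⟩
    · unfold EE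
      have : (Y (s + 1)).getD i 0 =
          ν.symm (ν ((Y s).getD i 0) + ν (ν.symm (s.factorial • ν j))) := by
        rw [h, List.getD_eq_getElem?_getD, List.getElem?_append_left (by simp [hl]; omega),
          List.getElem?_set_self (by omega)]
        rfl
      rw [this, Equiv.apply_symm_apply, Equiv.apply_symm_apply]
    · unfold EE
      congr 1
      rw [h, List.getD_eq_getElem?_getD, List.getElem?_append_left (by simp [hl]; omega),
        List.getElem?_set_ne (Ne.symm hki), ← List.getD_eq_getElem?_getD]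
  · refine Or.inl ⟨fun k hk => ?_, h1⟩
    unfold EE
    congr 1
    rw [h, List.getD_eq_getElem?_getD, List.getElem?_append_left (by omega),
      ← List.getD_eq_getElem?_getD]

/-- spans increase -/
theorem SQ_step {s m : ℕ} (h : m ≤ s) : SQ ν Y ι s m ≤ SQ ν Y ι (s + 1) m := by
  refine span_le.2 ?_
  rintro v ⟨i, hi, rfl⟩
  rcases step_cases hY0 hY s with ⟨h1, _⟩ | ⟨i₀, hi₀, j, h1, _, _, _, _, h2⟩
  · rw [← h1 i (by omega)]
    exact mem_SQ hi
  · by_cases hii : i = i₀
    · subst hii
      have h3 : ι (EE ν Y s i) ∈ SQ ν Y ι s i := Seen_mem hY0 hY (by omega) h1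
      have h4 : SQ ν Y ι s i = SQ ν Y ι (s + 1) i :=
        (SQ_congr fun k hk => h2 k (by omega) (by omega)).symm
      rw [h4] at h3
      exact SQ_mono hi.le h3
    · rw [← h2 i (by omega) hii]
      exact mem_SQ hi

theorem SQ_le {s t m : ℕ} (hm : m ≤ s) (h : s ≤ t) : SQ ν Y ι s m ≤ SQ ν Y ι t m := by
  induction t, h using Nat.le_induction with
  | base => exact le_rfl
  | succ t ht ih => exact ih.trans (SQ_step hY0 hY (hm.trans ht))

theorem elt_mem {s i : ℕ} (h : i < s) : ι (ν i) ∈ SQ ν Y ι s (i + 1) := by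
  have h1 : ι (ν i) ∈ SQ ν Y ι (i + 1) (i + 1) := by
    rw [← EE_new hY0 hY i]
    exact mem_SQ (by omega)
  exact SQ_le hY0 hY le_rfl h h1

/-- elements change by multiples -/
theorem EE_congr {s t i : ℕ} (hi : i < s) (h : s ≤ t) :
    ∃ z : H, EE ν Y t i = EE ν Y s i + s.factorial • z := by
  induction t, h using Nat.le_induction with
  | base => exact ⟨0, by simp⟩
  | succ t ht ih =>
    obtain ⟨z, hz⟩ := ih
    rcases step_cases hY0 hY t with ⟨h1, _⟩ | ⟨i₀, hi₀, j, _, _, _, _, h1, h2⟩
    · exact ⟨z, by rw [h1 i (by omega), hz]⟩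
    · by_cases hii : i = i₀
      · subst hii
        obtain ⟨d, hd⟩ := Nat.factorial_dvd_factorial ht
        refine ⟨z + d • ν j, ?_⟩
        rw [h1, hz, hd, smul_add, mul_smul, add_assoc]
      · exact ⟨z, by rw [h2 i (by omega) hii, hz]⟩

/-- the first elements settle down and become independent -/
theorem settle (hι : Function.Injective ι) (hinf : ∀ L : List ℕ, ∃ j, ι (ν j) ∉ SpL ν ι L)
    (m : ℕ) : ∃ s₀, m ≤ s₀ ∧ ∀ s, s₀ ≤ s → ∀ i < m, EE ν Y s i = EE ν Y s₀ i ∧
      ι (EE ν Y s i) ∉ SQ ν Y ι s i := by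
  induction m with
  | zero => exact ⟨0, le_rfl, fun s _ i hi => absurd hi (by omega)⟩
  | succ m ih =>
    obtain ⟨s₀, hms, hs₀⟩ := ih
    have hU : ∀ s, s₀ ≤ s → SQ ν Y ι s m = SQ ν Y ι s₀ m := fun s hs =>
      SQ_congr fun i hi => (hs₀ s hs i hi).1
    -- indices below m are never seen
    have hns : ∀ s, s₀ ≤ s → ∀ i < m, ¬ Seen ν s ((Y s).take i) ((Y s).getD i 0) := by
      intro s hs i hi hS
      exact (hs₀ s hs i hi).2 (Seen_mem hY0 hY (by omega) hS)
    have hex : ∃ s₁, s₀ + m + 1 ≤ s₁ ∧ ι (EE ν Y s₁ m) ∉ SQ ν Y ι s₁ m := by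
      by_contra hcon
      push Not at hcon
      obtain ⟨j, hj, hjmin⟩ : ∃ j, ι (ν j) ∉ SQ ν Y ι s₀ m ∧
          ∀ j' < j, ι (ν j') ∈ SQ ν Y ι s₀ m := by
        classical
        have h1 : ∃ j, ι (ν j) ∉ SQ ν Y ι s₀ m := by
          obtain ⟨j, hj⟩ := hinf ((Y s₀).take m)
          rw [SpL_take hY0 hY hms] at hj
          exact ⟨j, hj⟩
        refine ⟨Nat.find h1, Nat.find_spec h1, fun j' hj' => ?_⟩
        by_contra h2
        exact Nat.find_min h1 hj' h2
      -- all smaller ones are seen eventually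
      have htake : ∀ s, s₀ ≤ s → (Y s).take m = (Y s₀).take m := by
        intro s hs
        have l1 := Y_length hY0 hY s
        have l2 := Y_length hY0 hY s₀
        refine List.ext_getElem? fun i => ?_
        by_cases hi : i < m
        · rw [List.getElem?_take_of_lt hi, List.getElem?_take_of_lt hi]
          have h1 := ν.injective (hs₀ s hs i hi).1
          rw [List.getD_eq_getElem?_getD, List.getD_eq_getElem?_getD,
            List.getElem?_eq_getElem (by omega), List.getElem?_eq_getElem (by omega)] at h1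
          rw [List.getElem?_eq_getElem (by omega), List.getElem?_eq_getElem (by omega)]
          simpa using h1
        · rw [List.getElem?_eq_none (by simp; omega), List.getElem?_eq_none (by simp; omega)]
      obtain ⟨s₂, hs₂⟩ : ∃ s₂, ∀ j' < j, Seen ν s₂ ((Y s₀).take m) j' := by
        have h1 : ∀ j' < j, ∃ t, Seen ν t ((Y s₀).take m) j' := fun j' hj' =>
          exists_Seen hY0 hY hι hms (hjmin j' hj')
        clear hjmin hj
        induction j with
        | zero => exact ⟨0, fun j' hj' => absurd hj' (by omega)⟩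
        | succ j ihj =>
          obtain ⟨t1, ht1⟩ := ihj fun j' hj' => h1 j' (by omega)
          obtain ⟨t2, ht2⟩ := h1 j (by omega)
          refine ⟨t1 + t2, fun j' hj' => ?_⟩
          rcases Nat.lt_succ_iff_lt_or_eq.1 hj' with h2 | rfl
          · exact Seen_mono (by omega) (ht1 j' h2)
          · exact Seen_mono (by omega) ht2
      -- from now on index m never acts
      let s₃ := s₀ + m + 1 + s₂ + j
      have hstep : ∀ s, s₃ ≤ s → EE ν Y (s + 1) m = EE ν Y s m ∧
          ¬ Seen ν s ((Y s).take m) ((Y s).getD m 0) := by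
        intro s hs
        have hs' : s₀ + m + 1 + s₂ + j ≤ s := hs
        have hnj : ¬ Seen ν s ((Y s).take m) j := by
          intro h
          apply hj
          rw [← hU s (by omega)]
          exact Seen_mem hY0 hY (by omega) h
        have hsj : ∀ j' < j, Seen ν s ((Y s).take m) j' := by
          intro j' hj'
          rw [htake s (by omega)]
          exact Seen_mono (by omega) (hs₂ j' hj')
        rcases step_cases hY0 hY s with ⟨h1, h2⟩ | ⟨i₀, hi₀, j₀, h1, h2, h3, h4, h5, h6⟩
        · refine ⟨h1 m (by omega), fun hS => ?_⟩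
          exact hnj (h2 m (by omega) hS (fun i' hi' => hns s (by omega) i' hi') j (by omega))
        · rcases lt_trichotomy i₀ m with h7 | h7 | h7
          · exact absurd h1 (hns s (by omega) i₀ h7)
          · exfalso
            subst h7
            have h8 : j₀ = j := by
              rcases lt_trichotomy j₀ j with h | h | h
              · exact absurd (hsj _ h) h3
              · exact h
              · exact absurd (h4 _ h) hnj
            subst h8
            have h9 := hcon (s + 1) (by omega)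
            rw [h5, map_add, map_nsmul, hU (s + 1) (by omega)] at h9
            have h10 := hcon s (by omega)
            rw [hU s (by omega)] at h10
            have h11 := (Submodule.add_mem_iff_right _ h10).1 h9
            rw [← Nat.cast_smul_eq_nsmul ℚ] at h11
            have h12 : ((s.factorial : ℕ) : ℚ) ≠ 0 := by positivity
            exact hj ((Submodule.smul_mem_iff _ h12).1 h11)
          · exact ⟨h6 m (by omega) (by omega), h2 m h7⟩
      have hconst : ∀ s, s₃ ≤ s → EE ν Y s m = EE ν Y s₃ m := by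
        intro s hs
        induction s, hs using Nat.le_induction with
        | base => rfl
        | succ s hs ih2 => rw [(hstep s hs).1, ih2]
      have h1 := hcon s₃ (by omega)
      obtain ⟨t, ht⟩ := exists_Seen hY0 hY hι (by omega : m ≤ s₃) h1
      refine (hstep (s₃ + t) (by omega)).2 ?_
      have h2 : (Y (s₃ + t)).take m = (Y s₃).take m := by
        rw [htake _ (by omega), htake s₃ (by omega)]
      have h3 : (Y (s₃ + t)).getD m 0 = (Y s₃).getD m 0 :=
        ν.injective (hconst (s₃ + t) (by omega))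
      rw [h2, h3]
      exact Seen_mono (by omega) ht
    obtain ⟨s₁, hs₁, hs₁m⟩ := hex
    have hkeep : ∀ s, s₁ ≤ s → EE ν Y s m = EE ν Y s₁ m := by
      intro s hs
      induction s, hs using Nat.le_induction with
      | base => rfl
      | succ s hs ih2 =>
        rw [← ih2]
        rcases step_cases hY0 hY s with ⟨h1, _⟩ | ⟨i₀, hi₀, j₀, h1, _, _, _, _, h6⟩
        · exact h1 m (by omega)
        · rcases lt_trichotomy i₀ m with h7 | h7 | h7
          · exact absurd h1 (hns s (by omega) i₀ h7)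
          · exfalso
            subst h7
            apply hs₁m
            have h8 : ι (EE ν Y s i₀) ∈ SQ ν Y ι s i₀ := Seen_mem hY0 hY (by omega) h1
            rw [hU s (by omega), ih2] at h8
            rw [hU s₁ (by omega)]
            exact h8
          · exact h6 m (by omega) (by omega)
    refine ⟨s₁, by omega, fun s hs i hi => ?_⟩
    rcases Nat.lt_succ_iff_lt_or_eq.1 hi with h2 | rfl
    · exact ⟨by rw [(hs₀ s (by omega) i h2).1, (hs₀ s₁ (by omega) i h2).1],
        (hs₀ s (by omega) i h2).2⟩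
    · refine ⟨hkeep s hs, ?_⟩
      rw [hkeep s hs, hU s (by omega), ← hU s₁ (by omega)]
      exact hs₁m

end analysis

end Pool.Agent.V8H40.OG
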