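import Pool.Agent.V8H40.OG.Step

/-!
# Existence of the data of the steps
-/

set_option autoImplicit false

namespace Pool.Agent.V8H40.OG

open Nat.Partrec (Code)
open Submodule

theorem val_nil : val ([], 0) = 0 := by
  ext i
  exact val_eq_zero (by simp)

theorem sg_cases (o : Option ℕ) : (sg o : ℚ) = 1 ∨ (sg o : ℚ) = -1 := by
  unfold sg
  split_ifs
  · left; norm_num
  · right; norm_num

/-- a map from lists -/
theorem exists_names {n : ℕ} {β : Type*} {P : ℕ → β → Prop} (d : β)
    (h : ∀ a < n, ∃ b, P a b) : ∃ L : List β, L.length = n ∧ ∀ a < n, P a (L.getD a d) := by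
  have : Nonempty β := ⟨d⟩
  choose! f hf using h
  refine ⟨(List.range n).map f, by simp, fun a ha => ?_⟩
  rw [List.getD_eq_getElem?_getD, List.getElem?_map, List.getElem?_range ha]
  simpa using hf a ha

variable {kk : ℕ → Vc} {K : AddSubgroup QV} (hK : ∀ v, v ∈ K ↔ ∃ i, val (kk i) = v)

include hK

theorem exists_valid {s e : ℕ} {p : List ℕ} {r : List ℤ} (hI : Inv kk p r)
    (hC : Crit kk s e p r) : ∃ t, Valid kk s e p r t := by
  classical
  obtain ⟨hn, h0, hinj⟩ := hI
  rw [val_nil] at h0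
  obtain ⟨x, hx, u, hu, v, hv, M, -, hxM, hprot, hphx, hphu, hphv, hru, hrv, i, hi, j, hj, hij⟩ :=
    hC
  rw [val_uc] at hxM
  set n := p.length with hndef
  have hinj' : ∀ a < n, ∀ b < n, nm kk p a = nm kk p b → a = b := by
    intro a ha b hb hab
    by_contra hne
    exact hinj a ha b hb hne (by rw [hab])
  let S : Finset QV := (Finset.range n).image (nm kk p)
  let G : Finset QV := ((Finset.range n).filter fun a => Prot kk p e a ∨ a = u ∨ a = v).image
    (nm kk p)
  have hSK : ∀ z ∈ S, z ∈ K := by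
    intro z hz
    obtain ⟨a, -, rfl⟩ := Finset.mem_image.1 hz
    exact (hK _).2 ⟨_, rfl⟩
  have hGS : G ⊆ S := Finset.image_subset_image (Finset.filter_subset _ _)
  have hGM : ∀ z ∈ G, ∀ i, M ≤ i → z i = 0 := by
    intro z hz i hi
    obtain ⟨a, ha, rfl⟩ := Finset.mem_image.1 hz
    rw [Finset.mem_filter, Finset.mem_range] at ha
    have h1 := (hprot a ha.1 ha.2).1
    by_cases h2 : i < (kk (p.getD a 0)).1.length
    · exact h1 i h2 hi
    · exact val_eq_zero (by omega)
  have hxS : nm kk p x ∈ S := Finset.mem_image.2 ⟨x, Finset.mem_range.2 hx, rfl⟩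
  have hxG : nm kk p x ∉ span ℚ (G : Set QV) := by
    intro hmem
    have h1 : span ℚ (G : Set QV) ≤ LinearMap.ker (Finsupp.lapply M : QV →ₗ[ℚ] ℚ) := by
      rw [Submodule.span_le]
      intro z hz
      rw [SetLike.mem_coe, LinearMap.mem_ker]
      exact hGM z hz M (le_refl M)
    have h2 := h1 hmem
    rw [LinearMap.mem_ker, hxM] at h2
    simp at h2
  have huG : nm kk p u ∈ G := Finset.mem_image.2 ⟨u, by simp [hu], rfl⟩
  have hvG : nm kk p v ∈ G := Finset.mem_image.2 ⟨v, by simp [hv], rfl⟩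
  have huv : ∀ a b : ℚ, a • nm kk p u + b • nm kk p v = 0 → a = 0 ∧ b = 0 := by
    intro a b hab
    have h1 := DFunLike.congr_fun hab i
    have h2 := DFunLike.congr_fun hab j
    simp only [Finsupp.add_apply, Finsupp.smul_apply, smul_eq_mul, Finsupp.zero_apply] at h1 h2
    have hdet : nm kk p u i * nm kk p v j - nm kk p u j * nm kk p v i ≠ 0 :=
      sub_ne_zero.2 hij
    constructor
    · have h3 : a * (nm kk p u i * nm kk p v j - nm kk p u j * nm kk p v i) = 0 := by
        linear_combination (nm kk p v j) * h1 - (nm kk p v i) * h2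
      exact (mul_eq_zero.1 h3).resolve_right hdet
    · have h3 : b * (nm kk p u i * nm kk p v j - nm kk p u j * nm kk p v i) = 0 := by
        linear_combination (nm kk p u i) * h2 - (nm kk p u j) * h1
      exact (mul_eq_zero.1 h3).resolve_right hdet
  -- signs on vectors
  let σ : QV → ℚ := fun z => if ∃ a < n, nm kk p a = z ∧ ph e s a = some 1 then 1 else -1
  have hσ : ∀ z, σ z = 1 ∨ σ z = -1 := by
    intro z
    simp only [σ]
    split_ifs
    · exact Or.inl rfl
    · exact Or.inr rfl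
  have hσn : ∀ a < n, σ (nm kk p a) = (sg (ph e s a) : ℚ) := by
    intro a ha
    simp only [σ, sg]
    by_cases h1 : ph e s a = some 1
    · rw [if_pos h1, if_pos ⟨a, ha, rfl, h1⟩]
      norm_num
    · rw [if_neg h1, if_neg ?_]
      · norm_num
      · rintro ⟨b, hb, hab, hb1⟩
        rw [hinj' b hb a ha hab] at hb1
        exact h1 hb1
  have hσu : σ (nm kk p u) = -1 := by
    rw [hσn u hu, sg, if_neg hphu]; norm_num
  have hσv : σ (nm kk p v) = 1 := by
    rw [hσn v hv, sg, if_pos hphv]; norm_num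
  obtain ⟨lam, u0, r', c, hu0, hlamS, hlamG, hord, hcx, hsum⟩ :=
    key K S hSK (fn r) G hGS hxS hxG huG hvG huv hru hrv σ hσ hσu hσv
  obtain ⟨i0, hi0⟩ := (hK u0).1 hu0
  -- new names
  have hp' : ∀ a < n, ∃ b, val (kk b) = nm kk p a + lam (nm kk p a) • u0 := by
    intro a ha
    obtain ⟨k, hk⟩ := hlamS (nm kk p a) (Finset.mem_image.2 ⟨a, Finset.mem_range.2 ha, rfl⟩)
    refine (hK _).1 (K.add_mem ((hK _).2 ⟨_, rfl⟩) ?_)
    rw [hk, Int.cast_smul_eq_zsmul]
    exact K.zsmul_mem hu0 k
  obtain ⟨p', hp'len, hp'val⟩ := exists_names 0 hp'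
  have hnm' : ∀ a < n, nm kk p' a = nm kk p a + lam (nm kk p a) • u0 := fun a ha => hp'val a ha
  obtain ⟨ell, hell, hellval⟩ := exists_names (β := ℤ) (0 : ℤ)
    (P := fun (a : ℕ) (k : ℤ) => (k : ℚ) = lam (nm kk p a)) (n := n) (fun a ha => by
      obtain ⟨k, hk⟩ := hlamS (nm kk p a) (Finset.mem_image.2 ⟨a, Finset.mem_range.2 ha, rfl⟩)
      exact ⟨k, hk.symm⟩)
  obtain ⟨ll, D, hllD⟩ := exists_list lam S
  obtain ⟨rl, D', hrD'⟩ := exists_list r' (S.image fun z => z + lam z • u0)
  obtain ⟨cl, hcl, hclval⟩ := exists_names (0 : ℕ) (P := fun a k => k =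
    if a = 0 then 0 else if nm kk p a = nm kk p x ∨ nm kk p a ∈ G then c (nm kk p a) else 0)
    (n := n) (fun a _ => ⟨_, rfl⟩)
  have hx0 : x ≠ 0 := by
    intro h
    rw [h, h0] at hxM
    have := DFunLike.congr_fun hxM M
    simp at this
  refine ⟨(p', rl, (ll, D), ell, i0, cl), hp'len, ?_, ?_, ?_, ?_, ?_, ?_, ?_⟩
  · intro a ha
    simp only
    rw [hellval a ha, hllD _ (Finset.mem_image.2 ⟨a, Finset.mem_range.2 ha, rfl⟩)]
  · intro a ha hpa
    simp only
    rw [hellval a ha]
    exact hlamG _ (Finset.mem_image.2 ⟨a, by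
      rw [Finset.mem_filter, Finset.mem_range]; exact ⟨ha, Or.inl hpa⟩, rfl⟩)
  · intro a ha
    simp only
    rw [hnm' a ha, hellval a ha, hi0]
  · intro a ha b hb hab
    simp only
    have ha' : nm kk p a ∈ S := Finset.mem_image.2 ⟨a, Finset.mem_range.2 ha, rfl⟩
    have hb' : nm kk p b ∈ S := Finset.mem_image.2 ⟨b, Finset.mem_range.2 hb, rfl⟩
    rw [hnm' a ha, hnm' b hb, hrD' _ (Finset.mem_image.2 ⟨_, ha', rfl⟩),
      hrD' _ (Finset.mem_image.2 ⟨_, hb', rfl⟩)]
    exact mul_lt_mul_of_pos_left (hord _ ha' _ hb' hab) (by positivity)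
  · intro a ha hca
    simp only at hca
    rw [hclval a ha] at hca
    by_cases ha0 : a = 0
    · rw [if_pos ha0] at hca
      exact absurd rfl hca
    · rw [if_neg ha0] at hca
      refine ⟨?_, ha0⟩
      by_cases h1 : nm kk p a = nm kk p x ∨ nm kk p a ∈ G
      · rcases h1 with h1 | h1
        · rw [hinj' a ha x hx h1]; exact hphx
        · obtain ⟨b, hb, hab⟩ := Finset.mem_image.1 h1
          rw [Finset.mem_filter, Finset.mem_range] at hb
          rw [← hinj' b hb.1 a ha hab]
          exact (hprot b hb.1 hb.2).2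
      · rw [if_neg h1] at hca
        exact absurd rfl hca
  · refine ⟨x, hx, ?_⟩
    simp only
    rw [hclval x hx, if_neg hx0, if_pos (Or.inl rfl)]
    exact hcx.ne'
  · simp only
    rw [val_nil]
    have hxnG : nm kk p x ∉ G := fun h => hxG (Submodule.subset_span h)
    have e1 : ∀ a ∈ Finset.range n, (((cl.getD a 0 : ℕ) : ℚ) * (sg (ph e s a) : ℚ)) •
        nm kk p' a = (if nm kk p a = nm kk p x then
          (c (nm kk p a) : ℚ) • σ (nm kk p a) • (nm kk p a + lam (nm kk p a) • u0) else 0) +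
          (if nm kk p a ∈ G then (c (nm kk p a) : ℚ) • σ (nm kk p a) • nm kk p a else 0) := by
      intro a ha
      rw [Finset.mem_range] at ha
      rw [hclval a ha, hnm' a ha, ← hσn a ha]
      by_cases ha0 : a = 0
      · have h2 : nm kk p a ≠ nm kk p x := by
          intro h
          exact hx0 ((hinj' a ha x hx h).symm.trans ha0)
        rw [if_pos ha0, if_neg h2]
        have h3 : nm kk p a = 0 := by rw [ha0]; exact h0
        rw [h3]
        simp
      · rw [if_neg ha0]
        by_cases h1 : nm kk p a = nm kk p x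
        · have h2 : nm kk p a ∉ G := by rw [h1]; exact hxnG
          rw [if_pos (Or.inl h1), if_pos h1, if_neg h2, add_zero, smul_smul]
        · rw [if_neg h1, zero_add]
          by_cases h2 : nm kk p a ∈ G
          · rw [if_pos (Or.inr h2), if_pos h2, hlamG _ h2, zero_smul, add_zero, smul_smul]
          · rw [if_neg (by tauto), if_neg h2]
            simp
    rw [Finset.sum_congr rfl e1, Finset.sum_add_distrib]
    have hinjOn : Set.InjOn (nm kk p) (Finset.range n : Set ℕ) := by
      intro a ha b hb hab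
      rw [Finset.mem_coe, Finset.mem_range] at ha hb
      exact hinj' a ha b hb hab
    have e2 : ∑ a ∈ Finset.range n, (if nm kk p a = nm kk p x then
          (c (nm kk p a) : ℚ) • σ (nm kk p a) • (nm kk p a + lam (nm kk p a) • u0) else 0) =
        (c (nm kk p x) : ℚ) • σ (nm kk p x) • (nm kk p x + lam (nm kk p x) • u0) := by
      rw [Finset.sum_eq_single x]
      · rw [if_pos rfl]
      · intro a ha hax
        rw [Finset.mem_range] at ha
        rw [if_neg fun h => hax (hinj' a ha x hx h)]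
      · intro h
        exact absurd (Finset.mem_range.2 hx) h
    have e3 : ∑ a ∈ Finset.range n,
        (if nm kk p a ∈ G then (c (nm kk p a) : ℚ) • σ (nm kk p a) • nm kk p a else 0) =
        ∑ z ∈ G, (c z : ℚ) • σ z • z := by
      rw [← Finset.sum_image (f := fun z => if z ∈ G then (c z : ℚ) • σ z • z else 0) hinjOn]
      change ∑ z ∈ S, _ = _
      rw [← Finset.sum_filter]
      congr 1
      ext z
      rw [Finset.mem_filter]
      exact ⟨fun h => h.2, fun h => ⟨hGS h, h⟩⟩
    rw [e2, e3]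
    exact hsum

omit hK in
theorem exists_validAdd (hinf : ∀ p : List ℕ, ∃ i, ∀ a < p.length, nm kk p a ≠ val (kk i))
    {p : List ℕ} {r : List ℤ} (hI : Inv kk p r) : ∃ t, ValidAdd kk p r t := by
  classical
  obtain ⟨hn, h0, hinj⟩ := hI
  let S : Finset QV := (Finset.range p.length).image (nm kk p)
  have hmemS : ∀ a < p.length, nm kk p a ∈ S := fun a ha =>
    Finset.mem_image.2 ⟨a, Finset.mem_range.2 ha, rfl⟩
  set i := Nat.find (hinf p) with hi
  have hi1 : ∀ a < p.length, nm kk p a ≠ val (kk i) := Nat.find_spec (hinf p)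
  have hi2 : ∀ i' < i, ∃ a < p.length, nm kk p a = val (kk i') := by
    intro i' hi'
    have := Nat.find_min (hinf p) hi'
    push Not at this
    exact this
  have hzS : val (kk i) ∉ S := by
    intro h
    obtain ⟨a, ha, hab⟩ := Finset.mem_image.1 h
    exact hi1 a (Finset.mem_range.1 ha) hab
  obtain ⟨r', hr1, hr2⟩ := key_add S (fn r) (by
    intro a ha b hb hab
    obtain ⟨a', ha', rfl⟩ := Finset.mem_image.1 ha
    obtain ⟨b', hb', rfl⟩ := Finset.mem_image.1 hb
    exact hinj a' (Finset.mem_range.1 ha') b' (Finset.mem_range.1 hb')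
      fun h => hab (by rw [h])) hzS
  obtain ⟨rl, D, hrl⟩ := exists_list r' (insert (val (kk i)) S)
  have hD : (0 : ℚ) < (D : ℚ) + 1 := by positivity
  refine ⟨(i, rl), hi1, hi2, ?_, ?_⟩
  · intro a ha b hb hab
    simp only
    rw [hrl _ (Finset.mem_insert_of_mem (hmemS a ha)),
      hrl _ (Finset.mem_insert_of_mem (hmemS b hb))]
    exact mul_lt_mul_of_pos_left (hr1 _ (hmemS a ha) _ (hmemS b hb) hab) hD
  · intro a ha
    simp only
    rw [hrl _ (Finset.mem_insert_of_mem (hmemS a ha)), hrl _ (Finset.mem_insert_self _ _)]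
    intro h
    exact hr2 _ (hmemS a ha) (mul_left_cancel₀ hD.ne' h)

end Pool.Agent.V8H40.OG
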