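import Pool.Agent.V8H40.OG.Vec
import Pool.Agent.Helper794_NC.Rat

/-!
# Computable abelian groups: derived operations, dependence
-/

set_option autoImplicit false

namespace Pool.Agent.V8H40.OG

open Submodule

section ops

variable {H : Type} [AddCommGroup H] {ν : ℕ ≃ H}
  (hν : Computable₂ (fun a b : ℕ => ν.symm (ν a + ν b)))
variable {α : Type*} [Primcodable α]

include hν

theorem g_add {f g : α → ℕ} (hf : Computable f) (hg : Computable g) :
    Computable fun a => ν.symm (ν (f a) + ν (g a)) := hν.comp hf hg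

theorem g_nsmul {n f : α → ℕ} (hn : Computable n) (hf : Computable f) :
    Computable fun a => ν.symm (n a • ν (f a)) := by
  have h1 : Computable₂ fun (a : α) (b : ℕ × ℕ) => ν.symm (ν b.2 + ν (f a)) :=
    g_add hν (Computable.snd.comp Computable.snd) (hf.comp Computable.fst)
  refine (Computable.nat_rec hn (Computable.const (ν.symm 0)) h1).of_eq fun a => ?_
  induction n a with
  | zero => simp
  | succ n ih => simp only [ih, Equiv.apply_symm_apply, succ_nsmul]

theorem g_neg {f : α → ℕ} (hf : Computable f) : Computable fun a => ν.symm (-ν (f a)) := by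
  have h1 : CP fun x : α × ℕ => ν.symm (ν (f x.1) + ν x.2) = ν.symm 0 :=
    CP.eq (g_add hν (hf.comp Computable.fst) Computable.snd) (Computable.const _)
  obtain ⟨g, hg, hg2⟩ := CP.search (R := fun (a : α) (b : ℕ) =>
      ν.symm (ν (f a) + ν b) = ν.symm 0) h1 (fun a => ⟨ν.symm (-ν (f a)), by simp⟩)
  refine hg.of_eq fun a => ?_
  have h2 := ν.symm.injective (hg2 a)
  rw [Equiv.eq_symm_apply]
  exact eq_neg_of_add_eq_zero_right h2

theorem g_zsmul {n : α → ℤ} {f : α → ℕ} (hn : Computable n) (hf : Computable f) :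
    Computable fun a => ν.symm (n a • ν (f a)) := by
  have h1 : Computable fun a => ν.symm (ν (ν.symm ((n a).toNat • ν (f a))) +
      ν (ν.symm (-ν (ν.symm ((-(n a)).toNat • ν (f a)))))) :=
    g_add hν (g_nsmul hν (Pool.Agent.R557.DS.z_toNat hn) hf)
      (g_neg hν (g_nsmul hν (Pool.Agent.R557.DS.z_toNat_neg hn) hf))
  refine h1.of_eq fun a => ?_
  simp only [Equiv.apply_symm_apply]
  congr 1
  rw [← sub_eq_add_neg, ← natCast_zsmul, ← natCast_zsmul, ← sub_smul]
  congr 1
  omega

/-- linear combinations -/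
theorem g_lc {c : α → List ℤ} {L : α → List ℕ} {n : α → ℕ} (hc : Computable c)
    (hL : Computable L) (hn : Computable n) :
    Computable fun a => ν.symm (∑ i ∈ Finset.range (n a), (c a).getD i 0 • ν ((L a).getD i 0)) := by
  have h1 : Computable₂ fun (a : α) (b : ℕ × ℕ) =>
      ν.symm (ν b.2 + ν (ν.symm ((c a).getD b.1 0 • ν ((L a).getD b.1 0)))) := by
    refine g_add hν (Computable.snd.comp Computable.snd) (g_zsmul hν ?_ ?_)
    · exact (Primrec.list_getD (0 : ℤ)).to_comp.comp (hc.comp Computable.fst)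
        (Computable.fst.comp Computable.snd)
    · exact (Primrec.list_getD (0 : ℕ)).to_comp.comp (hL.comp Computable.fst)
        (Computable.fst.comp Computable.snd)
  refine (Computable.nat_rec hn (Computable.const (ν.symm 0)) h1).of_eq fun a => ?_
  have key : ∀ k, Nat.rec (motive := fun _ => ℕ) (ν.symm 0) (fun y IH => ν.symm (ν IH +
      ν (ν.symm ((c a).getD y 0 • ν ((L a).getD y 0))))) k =
      ν.symm (∑ i ∈ Finset.range k, (c a).getD i 0 • ν ((L a).getD i 0)) := by
    intro k
    induction k with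
    | zero => simp
    | succ k ih =>
      rw [Finset.sum_range_succ]
      show ν.symm (ν (Nat.rec (motive := fun _ => ℕ) (ν.symm 0) (fun y IH => ν.symm (ν IH +
      ν (ν.symm ((c a).getD y 0 • ν ((L a).getD y 0))))) k) + _) = _
      rw [ih, Equiv.apply_symm_apply, Equiv.apply_symm_apply]
  exact key (n a)

end ops

/-! ### Dependence -/

/-- all codes of vectors -/
def wv (k : ℕ) : Vc := ((Encodable.decode k : Option Vc)).getD ([], 0)

theorem wv_comp : Computable wv :=
  Computable.option_getD Computable.decode (Computable.const _)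

theorem wv_encode (w : Vc) : wv (Encodable.encode w) = w := by
  unfold wv
  rw [Encodable.encodek]
  rfl

section dep

variable {H : Type} [AddCommGroup H] (ν : ℕ ≃ H)

/-- `w` witnesses that the element with number `x` depends on those with numbers in `L` -/
def DepW (w : Vc) (L : List ℕ) (x : ℕ) : Prop :=
  ν.symm ((w.2 + 1) • ν x) =
    ν.symm (∑ i ∈ Finset.range L.length, w.1.getD i 0 • ν (L.getD i 0))

/-- dependence is seen by stage `s` -/
def Seen (s : ℕ) (L : List ℕ) (x : ℕ) : Prop := ∃ k < s, DepW ν (wv k) L x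

variable {ν}

theorem Seen_CP (hν : Computable₂ (fun a b : ℕ => ν.symm (ν a + ν b))) {α : Type*}
    [Primcodable α] {s x : α → ℕ} {L : α → List ℕ} (hs : Computable s) (hx : Computable x)
    (hL : Computable L) : CP fun a => Seen ν (s a) (L a) (x a) := by
  unfold Seen DepW
  refine CP.bex hs (CP.eq ?_ ?_)
  · exact g_nsmul hν (Computable.succ.comp (Computable.snd.comp (wv_comp.comp Computable.snd)))
      (hx.comp Computable.fst)
  · exact g_lc hν (Computable.fst.comp (wv_comp.comp Computable.snd)) (hL.comp Computable.fst)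
      (Computable.list_length.comp (hL.comp Computable.fst))

theorem Seen_mono {s t : ℕ} (hst : s ≤ t) {L : List ℕ} {x : ℕ} (h : Seen ν s L x) :
    Seen ν t L x := by
  obtain ⟨k, hk, h⟩ := h
  exact ⟨k, by omega, h⟩

variable {V : Type} [AddCommGroup V] [Module ℚ V] {ι : H →+ V}

/-- the span of the images of a list -/
def SpL (ν : ℕ ≃ H) (ι : H →+ V) (L : List ℕ) : Submodule ℚ V :=
  span ℚ {v | ∃ i < L.length, v = ι (ν (L.getD i 0))}

theorem DepW_mem {w : Vc} {L : List ℕ} {x : ℕ} (h : DepW ν w L x) :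
    ι (ν x) ∈ SpL ν ι L := by
  have h1 := ν.symm.injective h
  have h2 := congrArg ι h1
  rw [map_nsmul, map_sum] at h2
  have h3 : ((w.2 + 1 : ℕ) : ℚ) ≠ 0 := by positivity
  have h4 : ι (ν x) = ((w.2 + 1 : ℕ) : ℚ)⁻¹ • ∑ i ∈ Finset.range L.length,
      ι (w.1.getD i 0 • ν (L.getD i 0)) := by
    rw [← h2, ← Nat.cast_smul_eq_nsmul ℚ, smul_smul, inv_mul_cancel₀ h3, one_smul]
  rw [h4]
  refine Submodule.smul_mem _ _ (Submodule.sum_mem _ fun i hi => ?_)
  rw [map_zsmul, ← Int.cast_smul_eq_zsmul ℚ]
  refine Submodule.smul_mem _ _ (Submodule.subset_span ⟨i, Finset.mem_range.1 hi, rfl⟩)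

theorem exists_DepW (hι : Function.Injective ι) {L : List ℕ} {x : ℕ}
    (h : ι (ν x) ∈ SpL ν ι L) : ∃ w, DepW ν w L x := by
  classical
  -- a rational combination
  have h1 : ∃ c : ℕ → ℚ, ι (ν x) = ∑ i ∈ Finset.range L.length, c i • ι (ν (L.getD i 0)) := by
    unfold SpL at h
    have h2 : {v | ∃ i < L.length, v = ι (ν (L.getD i 0))} =
        Set.range (fun i : Fin L.length => ι (ν (L.getD i 0))) := by
      ext v
      constructor
      · rintro ⟨i, hi, rfl⟩
        exact ⟨⟨i, hi⟩, rfl⟩
      · rintro ⟨i, rfl⟩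
        exact ⟨i, i.2, rfl⟩
    rw [h2, Submodule.mem_span_range_iff_exists_fun] at h
    obtain ⟨c, hc⟩ := h
    refine ⟨fun i => if hi : i < L.length then c ⟨i, hi⟩ else 0, ?_⟩
    rw [← hc, Finset.sum_range]
    refine Finset.sum_congr rfl fun i _ => ?_
    simp
  obtain ⟨c, hc⟩ := h1
  let D : ℕ := ∏ i ∈ Finset.range L.length, (c i).den
  have hD : 0 < D := Finset.prod_pos fun i _ => (c i).pos
  have hDf : ∀ i < L.length, ∃ n : ℤ, (D : ℚ) * c i = n := by
    intro i hi
    have h1 : (c i).den ∣ D :=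
      Finset.dvd_prod_of_mem (fun i => (c i).den) (Finset.mem_range.2 hi)
    obtain ⟨k, hk⟩ := h1
    refine ⟨(c i).num * k, ?_⟩
    rw [hk]
    push_cast
    have h2 : ((c i).den : ℚ) * c i = (c i).num := by
      rw [mul_comm]; exact Rat.mul_den_eq_num _
    rw [mul_assoc, mul_comm (k : ℚ), ← mul_assoc, h2]
  choose! a ha using hDf
  refine ⟨((List.range L.length).map a, D - 1), ?_⟩
  unfold DepW
  congr 1
  apply hι
  have h1 : D - 1 + 1 = D := by omega
  simp only [h1]
  rw [map_nsmul, map_sum, hc, ← Nat.cast_smul_eq_nsmul ℚ, Finset.smul_sum]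
  refine Finset.sum_congr rfl fun i hi => ?_
  rw [Finset.mem_range] at hi
  have h2 : ((List.range L.length).map a).getD i 0 = a i := by
    rw [List.getD_eq_getElem?_getD, List.getElem?_map, List.getElem?_range hi]
    rfl
  rw [h2, smul_smul, ha i hi, map_zsmul, ← Int.cast_smul_eq_zsmul ℚ]

end dep

end Pool.Agent.V8H40.OG
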