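import Pool.Agent.V8H40.OG.Lin

/-!
# The key lemma: moving vectors so that a sign assignment becomes inconsistent
-/

set_option autoImplicit false

namespace Pool.Agent.V8H40.OG

open Submodule

variable {V : Type*} [AddCommGroup V] [Module ℚ V]

theorem exists_indep_functional {u v : V}
    (huv : ∀ a b : ℚ, a • u + b • v = 0 → a = 0 ∧ b = 0) :
    ∃ f : V →ₗ[ℚ] ℚ, f u = 0 ∧ f v = 1 := by
  have h1 : LinearIndependent ℚ ![u, v] := LinearIndependent.pair_iff.2 huv
  obtain ⟨f, hf⟩ := exists_functional h1 ![0, 1]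
  exact ⟨f, hf 0, hf 1⟩

/-- the key lemma -/
theorem key (K : AddSubgroup V) (S : Finset V) (hS : ∀ z ∈ S, z ∈ K) (r : V →ₗ[ℚ] ℚ)
    (G : Finset V) (hG : G ⊆ S) {x u v : V} (hx : x ∈ S) (hxG : x ∉ span ℚ (G : Set V))
    (hu : u ∈ G) (hv : v ∈ G) (huv : ∀ a b : ℚ, a • u + b • v = 0 → a = 0 ∧ b = 0)
    (hru : 0 < r u) (hrv : 0 < r v) (σ : V → ℚ) (hσ : ∀ z, σ z = 1 ∨ σ z = -1)
    (hσu : σ u = -1) (hσv : σ v = 1) :
    ∃ (lam : V →ₗ[ℚ] ℚ) (u0 : V) (r' : V →ₗ[ℚ] ℚ) (c : V → ℕ), u0 ∈ K ∧
      (∀ z ∈ S, ∃ n : ℤ, lam z = n) ∧ (∀ z ∈ G, lam z = 0) ∧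
      (∀ a ∈ S, ∀ b ∈ S, r a < r b → r' (a + lam a • u0) < r' (b + lam b • u0)) ∧
      0 < c x ∧
      (c x : ℚ) • σ x • (x + lam x • u0) + ∑ z ∈ G, (c z : ℚ) • σ z • z = 0 := by
  classical
  obtain ⟨lam, N, m1, hm1, hN, hxm, hlm, hlW, hlS⟩ :=
    exists_primitive_mod S (span ℚ (G : Set V)) hx hxG
  obtain ⟨y, -, hy⟩ := Submodule.mem_span_finset.1 hxm
  have hσσ : ∀ z, σ z * σ z = 1 := by
    intro z
    rcases hσ z with h | h <;> rw [h] <;> norm_num
  -- the constant `C`
  obtain ⟨C, hC⟩ : ∃ C : ℕ, ∀ z ∈ G, |y z| ≤ C := by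
    obtain ⟨C, hC⟩ := exists_nat_ge (∑ z ∈ G, |y z|)
    refine ⟨C, fun z hz => le_trans ?_ hC⟩
    exact Finset.single_le_sum (f := fun z => |y z|) (fun i _ => abs_nonneg _) hz
  obtain ⟨f, hfu, hfv⟩ := exists_indep_functional huv
  -- gaps
  obtain ⟨ε, hε, hgap⟩ := exists_small (S ×ˢ S)
    (fun q => |f q.1| + |lam q.1| + |f q.2| + |lam q.2|)
    (fun q => if r q.1 < r q.2 then r q.2 - r q.1 else 1) (by
      intro q _
      split_ifs with h
      · linarith
      · exact one_pos)
  obtain ⟨g, hg, hgε, hdense⟩ := exists_dense hru hrv hε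
  let r' : V →ₗ[ℚ] ℚ := r + g • f
  have hr' : ∀ z, r' z = r z + g * f z := fun z => by simp [r']
  obtain ⟨α, β, hαβ⟩ := hdense (-(σ x) * r' m1 - C * ∑ z ∈ G, σ z * r' z)
  let w : V := -(σ x) • ((C : ℚ) • ∑ z ∈ G, σ z • z + (α : ℚ) • v - (β : ℚ) • u)
  have hwK : w ∈ K := by
    have hsig : ∀ (z : V) {k : V}, k ∈ K → σ z • k ∈ K := by
      intro z k hk
      rcases hσ z with h | h <;> rw [h]
      · rw [one_smul]; exact hk
      · rw [neg_smul, one_smul]; exact K.neg_mem hk
    have hnat : ∀ (n : ℕ) {k : V}, k ∈ K → (n : ℚ) • k ∈ K := by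
      intro n k hk
      rw [Nat.cast_smul_eq_nsmul]
      exact K.nsmul_mem hk n
    have h1 : (C : ℚ) • ∑ z ∈ G, σ z • z + (α : ℚ) • v - (β : ℚ) • u ∈ K := by
      refine K.sub_mem (K.add_mem (hnat C ?_) (hnat α (hS v (hG hv)))) (hnat β (hS u (hG hu)))
      exact K.sum_mem fun z hz => hsig z (hS z (hG hz))
    change -(σ x) • _ ∈ K
    rw [neg_smul]
    exact K.neg_mem (hsig x h1)
  have hm1K : m1 ∈ K := by
    have : span ℤ (S : Set V) ≤ AddSubgroup.toIntSubmodule K :=
      Submodule.span_le.2 fun z hz => hS z hz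
    exact this hm1
  have hrw : |r' w - r' m1| ≤ g := by
    have h1 : r' w = -(σ x) * (C * ∑ z ∈ G, σ z * r' z + α * (r v + g) - β * r u) := by
      change r' (-(σ x) • _) = _
      rw [map_smul, map_sub, map_add, map_smul, map_smul, map_smul, map_sum, hr' v, hr' u, hfu,
        hfv]
      simp only [map_smul, smul_eq_mul]
      ring
    have h2 : r' w - r' m1 = -(σ x) * (α * (r v + g) - β * r u -
        (-(σ x) * r' m1 - C * ∑ z ∈ G, σ z * r' z)) := by
      rw [h1]
      have := hσσ x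
      linear_combination (r' m1) * this
    rw [h2, abs_mul]
    have h3 : |-(σ x)| = 1 := by
      rcases hσ x with h | h <;> rw [h] <;> norm_num
    rw [h3, one_mul]
    exact hαβ
  have hlamx : lam x = N := by
    have h1 : lam (x - N • m1) = 0 := hlW _ hxm
    rw [map_sub, map_zsmul, hlm, zsmul_eq_mul, mul_one, sub_eq_zero] at h1
    exact h1
  -- denominators of `y`
  let D : ℕ := ∏ z ∈ G, (y z).den
  have hD : 0 < D := Finset.prod_pos fun z _ => (y z).pos
  have hDy : ∀ z ∈ G, ∃ n : ℤ, (D : ℚ) * y z = n := by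
    intro z hz
    have h1 : (y z).den ∣ D := Finset.dvd_prod_of_mem (fun z => (y z).den) hz
    obtain ⟨k, hk⟩ := h1
    refine ⟨(y z).num * k, ?_⟩
    rw [hk]
    push_cast
    have h2 : ((y z).den : ℚ) * y z = (y z).num := by
      rw [mul_comm]; exact Rat.mul_den_eq_num _
    rw [mul_assoc, mul_comm (k : ℚ), ← mul_assoc, h2]
  have hN' : (1 : ℚ) ≤ N := by exact_mod_cast hN
  -- the coefficients
  have hcoef : ∀ z ∈ G, ∃ n : ℕ, (n : ℚ) = D * (N * C - σ x * σ z * y z) := by
    intro z hz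
    obtain ⟨k, hk⟩ := hDy z hz
    have h1 : ∃ j : ℤ, (j : ℚ) = D * (N * C - σ x * σ z * y z) := by
      rcases hσ x with h2 | h2 <;> rcases hσ z with h3 | h3 <;> rw [h2, h3]
      · exact ⟨D * N * C - k, by push_cast; rw [← hk]; ring⟩
      · exact ⟨D * N * C + k, by push_cast; rw [← hk]; ring⟩
      · exact ⟨D * N * C + k, by push_cast; rw [← hk]; ring⟩
      · exact ⟨D * N * C - k, by push_cast; rw [← hk]; ring⟩
    obtain ⟨j, hj⟩ := h1
    have h2 : (0 : ℚ) ≤ D * (N * C - σ x * σ z * y z) := by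
      refine mul_nonneg (by positivity) ?_
      have h3 : |σ x * σ z * y z| = |y z| := by
        rcases hσ x with h2 | h2 <;> rcases hσ z with h3 | h3 <;> rw [h2, h3] <;> simp
      have h4 : σ x * σ z * y z ≤ |y z| := h3 ▸ le_abs_self _
      have h5 := hC z hz
      have h6 : (C : ℚ) ≤ N * C := by
        have : (0 : ℚ) ≤ C := by positivity
        nlinarith
      linarith
    rw [← hj] at h2
    have h3 : 0 ≤ j := by exact_mod_cast h2
    refine ⟨j.toNat, ?_⟩
    rw [← hj]
    have : ((j.toNat : ℕ) : ℤ) = j := Int.toNat_of_nonneg h3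
    exact_mod_cast this
  choose! c₀ hc₀ using hcoef
  have hxneG : x ∉ G := fun h => hxG (Submodule.subset_span h)
  have hxu : x ≠ u := fun h => hxneG (h ▸ hu)
  let Nn : ℕ := N.toNat
  have hNn : (Nn : ℚ) = N := by
    have : ((N.toNat : ℕ) : ℤ) = N := Int.toNat_of_nonneg hN.le
    exact_mod_cast this
  let c : V → ℕ := fun z => if z = x then D else
    c₀ z + (if z = v then D * Nn * α else 0) + (if z = u then D * Nn * β else 0)
  refine ⟨lam, w - m1, r', c, K.sub_mem hwK hm1K, hlS, ?_, ?_, ?_, ?_⟩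
  · intro z hz
    exact hlW z (Submodule.subset_span hz)
  · intro a ha b hb hab
    have h1 := hgap (a, b) (Finset.mem_product.2 ⟨ha, hb⟩) g hg.le hgε
    simp only [if_pos hab] at h1
    have e1 : ∀ z, r' (z + lam z • (w - m1)) = r z + g * f z + lam z * (r' w - r' m1) := by
      intro z
      rw [map_add, map_smul, map_sub, hr' z, smul_eq_mul]
    rw [e1, e1]
    have b1 : |g * f a + lam a * (r' w - r' m1)| ≤ g * (|f a| + |lam a|) := by
      refine (abs_add_le _ _).trans ?_
      rw [abs_mul, abs_mul, abs_of_pos hg]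
      have := mul_le_mul_of_nonneg_left hrw (abs_nonneg (lam a))
      linarith
    have b2 : |g * f b + lam b * (r' w - r' m1)| ≤ g * (|f b| + |lam b|) := by
      refine (abs_add_le _ _).trans ?_
      rw [abs_mul, abs_mul, abs_of_pos hg]
      have := mul_le_mul_of_nonneg_left hrw (abs_nonneg (lam b))
      linarith
    have b3 := (abs_le.1 b1).2
    have b4 := (abs_le.1 b2).1
    linarith
  · simp only [c, if_true]
    exact hD
  · have h1 : x + lam x • (w - m1) = (N : ℚ) • w + ∑ z ∈ G, y z • z := by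
      rw [hy, hlamx, smul_sub, ← Int.cast_smul_eq_zsmul ℚ N m1]
      abel
    have h2 : ∑ z ∈ G, (c z : ℚ) • σ z • z =
        ∑ z ∈ G, ((D * (N * C - σ x * σ z * y z)) * σ z) • z + ((D * N * α : ℚ) • v -
          (D * N * β : ℚ) • u) := by
      have h3 : ∀ z ∈ G, (c z : ℚ) • σ z • z =
          ((D * (N * C - σ x * σ z * y z)) * σ z) • z +
          ((if z = v then (D * N * α : ℚ) • v else 0) -
            (if z = u then (D * N * β : ℚ) • u else 0)) := by
        intro z hz
        have hzx : z ≠ x := fun h => hxneG (h ▸ hz)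
        simp only [c, if_neg hzx]
        push_cast
        rw [hc₀ z hz, smul_smul, add_mul, add_mul, add_smul, add_smul, add_assoc]
        congr 1
        rw [sub_eq_add_neg]
        congr 1
        · by_cases h4 : z = v
          · rw [if_pos h4, if_pos h4, h4, hσv, mul_one, hNn]
          · rw [if_neg h4, if_neg h4, zero_mul, zero_smul]
        · by_cases h4 : z = u
          · rw [if_pos h4, if_pos h4, h4, hσu, mul_neg, mul_one, neg_smul, hNn]
          · rw [if_neg h4, if_neg h4, zero_mul, zero_smul, neg_zero]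
      rw [Finset.sum_congr rfl h3, Finset.sum_add_distrib, Finset.sum_sub_distrib,
        Finset.sum_ite_eq' G v, Finset.sum_ite_eq' G u, if_pos hv, if_pos hu]
    rw [h2, h1]
    have h5 : c x = D := by simp [c]
    rw [h5]
    change (D : ℚ) • σ x • ((N : ℚ) • (-(σ x) • ((C : ℚ) • ∑ z ∈ G, σ z • z + (α : ℚ) • v -
      (β : ℚ) • u)) + ∑ z ∈ G, y z • z) + _ = 0
    have h6 : ∑ z ∈ G, ((D * (N * C - σ x * σ z * y z)) * σ z) • z =
        (D * N * C : ℚ) • ∑ z ∈ G, σ z • z - (D * σ x) • ∑ z ∈ G, y z • z := by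
      rw [Finset.smul_sum, Finset.smul_sum, ← Finset.sum_sub_distrib]
      refine Finset.sum_congr rfl fun z _ => ?_
      rw [smul_smul, smul_smul, ← sub_smul]
      congr 1
      have := hσσ z
      linear_combination (- (D : ℚ) * σ x * y z) * this
    rw [h6]
    have h7 := hσσ x
    simp only [smul_add, smul_sub, smul_smul]
    have h8 : (D : ℚ) * (σ x * (N * (-(σ x) * C))) = -(D * N * C) := by
      linear_combination (-(D : ℚ) * N * C) * h7
    have h9 : (D : ℚ) * (σ x * (N * (-(σ x) * α))) = -(D * N * α) := by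
      linear_combination (-(D : ℚ) * N * α) * h7
    have h10 : (D : ℚ) * (σ x * (N * (-(σ x) * β))) = -(D * N * β) := by
      linear_combination (-(D : ℚ) * N * β) * h7
    rw [h8, h9, h10]
    simp only [neg_smul]
    abel

/-- adding a vector -/
theorem key_add (S : Finset V) (r : V →ₗ[ℚ] ℚ)
    (hr : ∀ a ∈ S, ∀ b ∈ S, a ≠ b → r a ≠ r b) {z : V} (hz : z ∉ S) :
    ∃ r' : V →ₗ[ℚ] ℚ, (∀ a ∈ S, ∀ b ∈ S, r a < r b → r' a < r' b) ∧ ∀ a ∈ S, r' a ≠ r' z := by
  classical
  by_cases h : ∃ s ∈ S, r s = r z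
  · obtain ⟨s, hs, hsz⟩ := h
    have hne : z - s ≠ 0 := fun h => hz (by rw [sub_eq_zero] at h; rw [h]; exact hs)
    obtain ⟨f, hf, -⟩ := Submodule.exists_dual_map_eq_bot_of_notMem
      (p := (⊥ : Submodule ℚ V)) (x := z - s) (by simpa using hne) inferInstance
    obtain ⟨ε, hε, hgap⟩ := exists_small (S ×ˢ S)
      (fun q => |f q.1| + |f q.2|)
      (fun q => if r q.1 < r q.2 then r q.2 - r q.1 else 1) (by
        intro q _
        split_ifs with h
        · linarith
        · exact one_pos)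
    obtain ⟨ε', hε', hgap'⟩ := exists_small S
      (fun a => |f a| + |f z|) (fun a => if r a = r z then 1 else |r z - r a|) (by
        intro q _
        split_ifs with h
        · exact one_pos
        · exact abs_pos.2 (sub_ne_zero.2 (Ne.symm h)))
    have hpos : 0 < min ε ε' := lt_min hε hε'
    refine ⟨r + (min ε ε') • f, fun a ha b hb hab => ?_, fun a ha hcon => ?_⟩
    · have h1 := hgap (a, b) (Finset.mem_product.2 ⟨ha, hb⟩) (min ε ε') hpos.le (min_le_left _ _)
      simp only [if_pos hab] at h1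
      simp only [LinearMap.add_apply, LinearMap.smul_apply, smul_eq_mul]
      have h2 := le_abs_self (f a)
      have h3 := neg_abs_le (f b)
      nlinarith
    · simp only [LinearMap.add_apply, LinearMap.smul_apply, smul_eq_mul] at hcon
      by_cases has : a = s
      · rw [has, hsz] at hcon
        apply hf
        rw [map_sub, sub_eq_zero]
        have h1 : (min ε ε') * f s = (min ε ε') * f z := by linarith
        exact (mul_left_cancel₀ hpos.ne' h1).symm
      · have h1 : r a ≠ r z := by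
          rw [← hsz]
          exact hr a ha s hs has
        have h2 := hgap' a ha (min ε ε') hpos.le (min_le_right _ _)
        simp only [if_neg h1] at h2
        have h3 : r z - r a = (min ε ε') * (f a - f z) := by linarith
        rw [h3, abs_mul, abs_of_pos hpos] at h2
        have h4 : |f a - f z| ≤ |f a| + |f z| := abs_sub _ _
        have h5 := mul_le_mul_of_nonneg_left h4 hpos.le
        linarith
  · push Not at h
    exact ⟨r, fun a _ b _ hab => hab, fun a ha => h a ha⟩

end Pool.Agent.V8H40.OG
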