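import Pool.Agent.V8H40.OG.Run

/-!
# Limits along the run
-/

set_option autoImplicit false

namespace Pool.Agent.V8H40.OG

open Nat.Partrec (Code)

/-- a run of the construction -/
structure IsRun (kk : ℕ → Vc) (S : ℕ → St) : Prop where
  inv0 : Inv kk (S 0).1 (S 0).2.1
  len0 : (S 0).1.length = 1
  step : ∀ s, ∃ mid : St, ActRel kk s (S s) mid ∧ AddRel kk mid (S (s + 1))

variable {kk : ℕ → Vc} {S : ℕ → St} (hR : IsRun kk S)

/-- the vector of name `a` at stage `s` -/
noncomputable def PP (kk : ℕ → Vc) (S : ℕ → St) (s a : ℕ) : QV := nm kk (S s).1 a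

/-- the functional at stage `s` -/
noncomputable def FF (S : ℕ → St) (s : ℕ) : QV →ₗ[ℚ] ℚ := fn (S s).2.1

include hR

theorem inv_all (s : ℕ) : Inv kk (S s).1 (S s).2.1 ∧ (S s).1.length = s + 1 := by
  induction s with
  | zero => exact ⟨hR.inv0, hR.len0⟩
  | succ s ih =>
    obtain ⟨mid, h1, h2⟩ := hR.step s
    have h3 := inv_act ih.1 h1
    have h4 := inv_add h3.1 h2
    exact ⟨h4.1, by rw [h4.2, h3.2, ih.2]⟩

theorem PP_zero (s : ℕ) : PP kk S s 0 = 0 := by
  have := (inv_all hR s).1.2.1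
  rw [val_nil] at this
  exact this

theorem FF_inj {s a b : ℕ} (ha : a ≤ s) (hb : b ≤ s) (hab : a ≠ b) :
    FF S s (PP kk S s a) ≠ FF S s (PP kk S s b) := by
  have h1 := inv_all hR s
  exact h1.1.2.2 a (by rw [h1.2]; omega) b (by rw [h1.2]; omega) hab

theorem PP_inj {s a b : ℕ} (ha : a ≤ s) (hb : b ≤ s) (hab : PP kk S s a = PP kk S s b) :
    a = b := by
  by_contra h
  exact FF_inj hR ha hb h (by rw [hab])

/-- one step -/
theorem step_spec (s : ℕ) :
    ((∃ e, e ≤ s ∧ e ∉ (S s).2.2 ∧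
        (∀ e' < e, ¬ (e' ∉ (S s).2.2 ∧ Crit kk s e' (S s).1 (S s).2.1)) ∧
        (S (s + 1)).2.2 = e :: (S s).2.2 ∧
        ∃ t, Valid kk s e (S s).1 (S s).2.1 t ∧ ∀ a ≤ s, PP kk S (s + 1) a = nm kk t.1 a) ∨
      ((∀ e ≤ s, ¬ (e ∉ (S s).2.2 ∧ Crit kk s e (S s).1 (S s).2.1)) ∧
        (S (s + 1)).2.2 = (S s).2.2 ∧ ∀ a ≤ s, PP kk S (s + 1) a = PP kk S s a)) ∧
    (∀ a ≤ s, ∀ b ≤ s, FF S s (PP kk S s a) < FF S s (PP kk S s b) →
      FF S (s + 1) (PP kk S (s + 1) a) < FF S (s + 1) (PP kk S (s + 1) b)) ∧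
    (∃ i, PP kk S (s + 1) (s + 1) = val (kk i) ∧
      (∀ i' < i, ∃ a ≤ s, PP kk S (s + 1) a = val (kk i')) ∧
      ∀ a ≤ s, PP kk S (s + 1) a ≠ val (kk i)) := by
  obtain ⟨hI, hlen⟩ := inv_all hR s
  obtain ⟨mid, h1, h2⟩ := hR.step s
  have h3 := inv_act hI h1
  have hlm : mid.1.length = s + 1 := by rw [h3.2, hlen]
  obtain ⟨t', ⟨v1, v2, v3, v4⟩, heq⟩ := h2
  rw [hlm] at v1 v2 v3 v4
  have hPm : ∀ a ≤ s, PP kk S (s + 1) a = nm kk mid.1 a := by
    intro a ha
    unfold PP
    rw [heq]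
    exact nm_append (by omega)
  have hPl : PP kk S (s + 1) (s + 1) = val (kk t'.1) := by
    unfold PP
    rw [heq]
    change nm kk (mid.1 ++ [t'.1]) (s + 1) = _
    rw [← hlm]
    exact nm_append_last
  have hFm : FF S (s + 1) = fn t'.2 := by
    unfold FF
    rw [heq]
  refine ⟨?_, ?_, t'.1, hPl, ?_, ?_⟩
  · rcases h1 with ⟨e, he, hd, hC, hmin, t, hV, hmid⟩ | ⟨hno, hmid⟩
    · left
      refine ⟨e, by omega, hd, hmin, ?_, t, hV, fun a ha => ?_⟩
      · rw [heq, hmid]
      · rw [hPm a ha, hmid]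
    · right
      refine ⟨fun e he => hno e (by omega), ?_, fun a ha => ?_⟩
      · rw [heq, hmid]
      · rw [hPm a ha, hmid]
        rfl
  · intro a ha b hb hab
    rw [hPm a ha, hPm b hb, hFm]
    apply v3 a (by omega) b (by omega)
    rcases h1 with ⟨e, he, hd, hC, hmin, t, hV, hmid⟩ | ⟨hno, hmid⟩
    · rw [hmid]
      obtain ⟨hl, w1, w2, w3, w4, w5, w6, w7⟩ := hV
      exact w4 a (by omega) b (by omega) hab
    · rw [hmid]
      exact hab
  · intro i' hi'
    obtain ⟨a, ha, hab⟩ := v2 i' hi'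
    exact ⟨a, by omega, by rw [hPm a (by omega)]; exact hab⟩
  · intro a ha
    rw [hPm a ha]
    exact v1 a (by omega)

theorem done_step (s : ℕ) {e : ℕ} (he : e ∈ (S s).2.2) : e ∈ (S (s + 1)).2.2 := by
  rcases (step_spec hR s).1 with ⟨e', _, _, _, h, _⟩ | ⟨_, h, _⟩
  · rw [h]; exact List.mem_cons_of_mem _ he
  · rw [h]; exact he

theorem done_mono {s t : ℕ} (hst : s ≤ t) {e : ℕ} (he : e ∈ (S s).2.2) : e ∈ (S t).2.2 := by
  induction t, hst using Nat.le_induction with
  | base => exact he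
  | succ t ht ih => exact done_step hR t ih

/-- after some stage none of the requirements up to `e` acts -/
theorem exists_quiet (e : ℕ) : ∃ s₀, ∀ s, s₀ ≤ s → ∀ e' ≤ e, e' ∉ (S s).2.2 →
    e' ∉ (S (s + 1)).2.2 := by
  induction e with
  | zero =>
    by_cases h : ∃ s, 0 ∈ (S s).2.2
    · obtain ⟨s, hs⟩ := h
      refine ⟨s, fun t ht e' he' hn => ?_⟩
      have : e' = 0 := by omega
      subst this
      exact absurd (done_mono hR ht hs) hn
    · push Not at h
      refine ⟨0, fun t _ e' he' _ => ?_⟩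
      have : e' = 0 := by omega
      subst this
      exact h _
  | succ e ih =>
    obtain ⟨s₀, hs₀⟩ := ih
    by_cases h : ∃ s, (e + 1) ∈ (S s).2.2
    · obtain ⟨s, hs⟩ := h
      refine ⟨max s₀ s, fun t ht e' he' hn => ?_⟩
      rcases Nat.lt_or_ge e' (e + 1) with h1 | h1
      · exact hs₀ t ((le_max_left _ _).trans ht) e' (by omega) hn
      · have : e' = e + 1 := by omega
        subst this
        exact absurd (done_mono hR ((le_max_right _ _).trans ht) hs) hn
    · push Not at h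
      refine ⟨s₀, fun t ht e' he' hn => ?_⟩
      rcases Nat.lt_or_ge e' (e + 1) with h1 | h1
      · exact hs₀ t ht e' (by omega) hn
      · have : e' = e + 1 := by omega
        subst this
        exact h _

/-- protected names do not move -/
theorem prot_fixed {e s a : ℕ} (hq : ∀ e' ≤ e, e' ∉ (S s).2.2 → e' ∉ (S (s + 1)).2.2)
    (ha : a ≤ s) (hp : Prot kk (S s).1 e a) : PP kk S (s + 1) a = PP kk S s a := by
  rcases (step_spec hR s).1 with ⟨e', he', hd, _, h, t, hV, hP⟩ | ⟨_, _, hP⟩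
  · have h1 : e < e' := by
      by_contra h2
      push Not at h2
      exact hq e' h2 hd (by rw [h]; exact List.mem_cons_self)
    obtain ⟨hl, w1, w2, w3, w4, w5, w6, w7⟩ := hV
    have hlen := (inv_all hR s).2
    have h2 : Prot kk (S s).1 e' a := by
      rcases hp with h3 | ⟨i, hi, h3⟩
      · exact Or.inl (by omega)
      · exact Or.inr ⟨i, by omega, h3⟩
    rw [hP a ha, w3 a (by omega), w2 a (by omega) h2, zero_smul, add_zero]
    rfl
  · exact hP a ha

/-- names reach limits -/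
theorem exists_lim (a : ℕ) : ∃ s₀, a ≤ s₀ ∧ ∀ s, s₀ ≤ s → PP kk S s a = PP kk S s₀ a := by
  obtain ⟨s₀, hs₀⟩ := exists_quiet hR a
  refine ⟨max s₀ a, le_max_right _ _, fun s hs => ?_⟩
  induction s, hs using Nat.le_induction with
  | base => rfl
  | succ s hs ih =>
    rw [← ih]
    exact prot_fixed hR (hs₀ s ((le_max_left _ _).trans hs)) ((le_max_right _ _).trans hs)
      (Or.inl (le_refl a))

/-- covered vectors stay covered -/
theorem cov_fixed {e s₀ : ℕ} (hq : ∀ s, s₀ ≤ s → ∀ e' ≤ e, e' ∉ (S s).2.2 →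
    e' ∉ (S (s + 1)).2.2) {i s a : ℕ} (hi : i ≤ e) (hs : s₀ ≤ s) (ha : a ≤ s)
    (hc : PP kk S s a = val (kk i)) {t : ℕ} (ht : s ≤ t) : PP kk S t a = val (kk i) := by
  induction t, ht using Nat.le_induction with
  | base => exact hc
  | succ t ht ih =>
    rw [← ih]
    exact prot_fixed hR (hq t (hs.trans ht)) (ha.trans ht) (Or.inr ⟨i, by omega, ih⟩)

/-- every element is covered in the limit -/
theorem exists_cover (i : ℕ) : ∃ s₀ a, a ≤ s₀ ∧ ∀ s, s₀ ≤ s → PP kk S s a = val (kk i) := by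
  obtain ⟨s₀, hs₀⟩ := exists_quiet hR i
  have key : ∀ k ≤ i + 1, ∃ s₁, s₀ ≤ s₁ ∧ ∀ i' < k, ∃ a ≤ s₁, PP kk S s₁ a = val (kk i') := by
    intro k
    induction k with
    | zero => intro _; exact ⟨s₀, le_refl _, fun i' hi' => absurd hi' (Nat.not_lt_zero _)⟩
    | succ k ih =>
      intro hk
      obtain ⟨s₁, hs₁, hcov⟩ := ih (by omega)
      have hcov' : ∀ i' < k, ∃ a ≤ s₁, PP kk S (s₁ + 1) a = val (kk i') := by
        intro i' hi'
        obtain ⟨a, ha, hab⟩ := hcov i' hi'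
        exact ⟨a, ha, cov_fixed hR hs₀ (by omega) hs₁ ha hab (Nat.le_succ _)⟩
      refine ⟨s₁ + 1, by omega, fun i' hi' => ?_⟩
      rcases Nat.lt_succ_iff_lt_or_eq.1 hi' with h1 | h1
      · obtain ⟨a, ha, hab⟩ := hcov' i' h1
        exact ⟨a, by omega, hab⟩
      · subst h1
        obtain ⟨j, hj1, hj2, hj3⟩ := (step_spec hR s₁).2.2
        rcases lt_trichotomy i' j with h2 | h2 | h2
        · obtain ⟨a, ha, hab⟩ := hj2 i' h2
          exact ⟨a, by omega, hab⟩
        · subst h2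
          exact ⟨s₁ + 1, le_refl _, hj1⟩
        · obtain ⟨a, ha, hab⟩ := hcov' j h2
          exact absurd hab (hj3 a ha)
  obtain ⟨s₁, hs₁, hcov⟩ := key (i + 1) (le_refl _)
  obtain ⟨a, ha, hab⟩ := hcov i (Nat.lt_succ_self i)
  exact ⟨s₁, a, ha, fun s hs => cov_fixed hR hs₀ (le_refl i) hs₁ ha hab hs⟩

/-- linearity of the changes -/
theorem exists_linear_step (s : ℕ) : ∃ Θ : QV →ₗ[ℚ] QV, ∀ a ≤ s,
    PP kk S (s + 1) a = Θ (PP kk S s a) := by
  rcases (step_spec hR s).1 with ⟨e', he', hd, _, h, t, hV, hP⟩ | ⟨_, _, hP⟩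
  · obtain ⟨hl, w1, w2, w3, w4, w5, w6, w7⟩ := hV
    have hlen := (inv_all hR s).2
    refine ⟨LinearMap.id + (((t.2.2.1.2 : ℚ) + 1)⁻¹ • fn t.2.2.1.1).smulRight
      (val (kk t.2.2.2.2.1)), fun a ha => ?_⟩
    rw [hP a ha, w3 a (by omega)]
    have h1 := w1 a (by omega)
    have h2 : ((t.2.2.1.2 : ℚ) + 1) ≠ 0 := by positivity
    simp only [LinearMap.add_apply, LinearMap.id_apply, LinearMap.smulRight_apply,
      LinearMap.smul_apply, smul_eq_mul]
    congr 2
    unfold PP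
    rw [← h1]
    field_simp
  · exact ⟨LinearMap.id, fun a ha => by rw [hP a ha]; rfl⟩

theorem exists_linear {s t : ℕ} (hst : s ≤ t) : ∃ Θ : QV →ₗ[ℚ] QV, ∀ a ≤ s,
    PP kk S t a = Θ (PP kk S s a) := by
  induction t, hst using Nat.le_induction with
  | base => exact ⟨LinearMap.id, fun a _ => rfl⟩
  | succ t ht ih =>
    obtain ⟨Θ, hΘ⟩ := ih
    obtain ⟨Θ', hΘ'⟩ := exists_linear_step hR t
    exact ⟨Θ'.comp Θ, fun a ha => by rw [hΘ' a (ha.trans ht), hΘ a ha]; rfl⟩

/-- preservation of the order -/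
theorem order_mono {s t : ℕ} (hst : s ≤ t) {a b : ℕ} (ha : a ≤ s) (hb : b ≤ s)
    (hab : FF S s (PP kk S s a) < FF S s (PP kk S s b)) :
    FF S t (PP kk S t a) < FF S t (PP kk S t b) := by
  induction t, hst using Nat.le_induction with
  | base => exact hab
  | succ t ht ih => exact (step_spec hR t).2.1 a (ha.trans ht) b (hb.trans ht) ih

theorem order_iff {s t : ℕ} (hst : s ≤ t) {a b : ℕ} (ha : a ≤ s) (hb : b ≤ s) :
    FF S t (PP kk S t a) < FF S t (PP kk S t b) ↔ FF S s (PP kk S s a) < FF S s (PP kk S s b) := by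
  constructor
  · intro h
    rcases lt_trichotomy (FF S s (PP kk S s a)) (FF S s (PP kk S s b)) with h1 | h1 | h1
    · exact h1
    · by_cases hab : a = b
      · rw [hab] at h; exact absurd h (lt_irrefl _)
      · exact absurd h1 (FF_inj hR ha hb hab)
    · exact absurd (order_mono hR hst hb ha h1) h.not_gt
  · exact order_mono hR hst ha hb

/-- certificates of inconsistency -/
theorem exists_cert {e s : ℕ} (he : e ∈ (S s).2.2) (h0 : (S 0).2.2 = []) :
    ∃ (s' : ℕ) (c : ℕ → ℕ), s' ≤ s ∧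
      (∀ a < s', c a ≠ 0 → (ph e s' a).isSome = true ∧ a ≠ 0) ∧ (∃ a < s', c a ≠ 0) ∧
      ∑ a ∈ Finset.range s', (((c a : ℕ) : ℚ) * (sg (ph e s' a) : ℚ)) • PP kk S s a = 0 := by
  induction s with
  | zero => rw [h0] at he; simp at he
  | succ s ih =>
    by_cases h1 : e ∈ (S s).2.2
    · obtain ⟨s', c, hs', hc1, hc2, hc3⟩ := ih h1
      refine ⟨s', c, by omega, hc1, hc2, ?_⟩
      obtain ⟨Θ, hΘ⟩ := exists_linear_step hR s
      have h2 : ∑ a ∈ Finset.range s', (((c a : ℕ) : ℚ) * (sg (ph e s' a) : ℚ)) •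
          PP kk S (s + 1) a = Θ (∑ a ∈ Finset.range s', (((c a : ℕ) : ℚ) *
            (sg (ph e s' a) : ℚ)) • PP kk S s a) := by
        rw [map_sum]
        refine Finset.sum_congr rfl fun a ha => ?_
        rw [Finset.mem_range] at ha
        rw [map_smul, hΘ a (by omega)]
      rw [h2, hc3, map_zero]
    · rcases (step_spec hR s).1 with ⟨e', he', hd, _, h, t, hV, hP⟩ | ⟨_, h, hP⟩
      · rw [h, List.mem_cons] at he
        have hee : e = e' := he.resolve_right h1
        subst hee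
        obtain ⟨hl, w1, w2, w3, w4, w5, w6, w7⟩ := hV
        have hlen := (inv_all hR s).2
        rw [hlen] at w5 w6 w7
        -- pad: use `s' = s + 1` stages, with the values at stage `s`
        refine ⟨s + 1, fun a => t.2.2.2.2.2.getD a 0, le_refl _, ?_, w6, ?_⟩
        · intro a ha hca
          have h3 := w5 a ha hca
          refine ⟨?_, h3.2⟩
          obtain ⟨y, hy⟩ := Option.isSome_iff_exists.1 h3.1
          have : ph e (s + 1) a = some y := Code.evaln_mono (Nat.le_succ s) hy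
          rw [this]; rfl
        · rw [val_nil] at w7
          rw [← w7]
          refine Finset.sum_congr rfl fun a ha => ?_
          rw [Finset.mem_range] at ha
          rw [hP a (by omega)]
          by_cases hca : t.2.2.2.2.2.getD a 0 = 0
          · simp only [hca, Nat.cast_zero, zero_mul, zero_smul]
          · have h3 := w5 a ha hca
            obtain ⟨y, hy⟩ := Option.isSome_iff_exists.1 h3.1
            have h4 : ph e (s + 1) a = some y := Code.evaln_mono (Nat.le_succ s) hy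
            rw [h4, hy]
      · rw [h] at he
        exact absurd he h1

end Pool.Agent.V8H40.OG
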