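import Pool.Agent.V8H40.OG.Tool

/-!
# Linear algebra over the rationals
-/

set_option autoImplicit false

namespace Pool.Agent.V8H40.OG

open Submodule

variable {V : Type*} [AddCommGroup V] [Module ℚ V]

/-- a linear functional with prescribed values on an independent family -/
theorem exists_functional {ι : Type*} {b : ι → V} (hb : LinearIndependent ℚ b) (β : ι → ℚ) :
    ∃ f : V →ₗ[ℚ] ℚ, ∀ i, f (b i) = β i := by
  obtain ⟨g, hg⟩ := LinearMap.exists_extend ((Module.Basis.span hb).constr ℚ β)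
  refine ⟨g, fun i => ?_⟩
  have h1 : g ((Module.Basis.span hb i : span ℚ (Set.range b)) : V) =
      (Module.Basis.span hb).constr ℚ β (Module.Basis.span hb i) := by
    rw [← hg]; rfl
  rw [Module.Basis.constr_basis, Module.Basis.span_apply] at h1
  exact h1

/-- primitive vectors in a lattice -/
theorem exists_primitive (L : Submodule ℤ V) (hfg : L.FG) {x : V} (hx : x ∈ L) (hx0 : x ≠ 0) :
    ∃ (f : V →ₗ[ℚ] ℚ) (N : ℤ) (m : V), m ∈ L ∧ 0 < N ∧ x = N • m ∧ f m = 1 ∧
      ∀ z ∈ L, ∃ n : ℤ, f z = n := by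
  classical
  have : Module.Finite ℤ L := Module.Finite.iff_fg.2 hfg
  have : Module.IsTorsionFree ℤ V := Module.IsTorsionFree.trans ℚ
  have : Module.IsTorsionFree ℤ L :=
    ⟨fun r hr a b hab => Subtype.ext (Module.IsTorsionFree.isSMulRegular hr (by
      have := congrArg Subtype.val hab
      simpa using this))⟩
  let b := Module.Free.chooseBasis ℤ L
  have hli : LinearIndependent ℤ (fun i => ((b i : L) : V)) :=
    b.linearIndependent.map' L.subtype (Submodule.ker_subtype L)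
  rw [LinearIndependent.iff_fractionRing ℤ ℚ] at hli
  let c : Module.Free.ChooseBasisIndex ℤ L → ℤ := fun i => b.repr ⟨x, hx⟩ i
  have hrep : ∀ (z : V) (hz : z ∈ L), z = ∑ i, b.repr ⟨z, hz⟩ i • ((b i : L) : V) := by
    intro z hz
    have h1 := b.sum_repr ⟨z, hz⟩
    have h2 := congrArg L.subtype h1
    rw [map_sum] at h2
    refine Eq.trans ?_ (h2.symm.trans ?_)
    · rfl
    · refine Finset.sum_congr rfl fun i _ => ?_
      rw [map_zsmul]
      rfl
  have hxc : x = ∑ i, c i • ((b i : L) : V) := hrep x hx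
  obtain ⟨g, hg⟩ : ∃ g : ℤ, Ideal.span (Set.range c) = Ideal.span {g} := by
    have h1 : (Ideal.span (Set.range c)).IsPrincipal := IsPrincipalIdealRing.principal _
    exact ⟨IsPrincipal.generator (Ideal.span (Set.range c)),
      (Ideal.span_singleton_generator _).symm⟩
  have hgc : ∀ i, g ∣ c i := by
    intro i
    have h1 : c i ∈ Ideal.span (Set.range c) := Ideal.subset_span ⟨i, rfl⟩
    rw [hg, Ideal.mem_span_singleton] at h1
    exact h1
  have hg0 : g ≠ 0 := by
    rintro rfl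
    apply hx0
    rw [hxc]
    refine Finset.sum_eq_zero fun i _ => ?_
    have : c i = 0 := zero_dvd_iff.1 (hgc i)
    rw [this, zero_smul]
  obtain ⟨β, hβ⟩ : ∃ β : Module.Free.ChooseBasisIndex ℤ L → ℤ, ∑ i, β i * c i = |g| := by
    have h1 : |g| ∈ Ideal.span (Set.range c) := by
      rw [hg, Ideal.mem_span_singleton]
      exact (dvd_abs g g).2 dvd_rfl
    exact Ideal.mem_span_range_iff_exists_fun.1 h1
  obtain ⟨f, hf⟩ := exists_functional hli (fun i => (β i : ℚ))
  have hN : 0 < |g| := abs_pos.2 hg0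
  have hcN : ∀ i, |g| ∣ c i := fun i => (abs_dvd g (c i)).2 (hgc i)
  choose d hd using hcN
  refine ⟨f, |g|, ∑ i, d i • ((b i : L) : V), ?_, hN, ?_, ?_, ?_⟩
  · exact Submodule.sum_mem _ fun i _ => L.smul_mem _ (b i).2
  · rw [Finset.smul_sum, hxc]
    refine Finset.sum_congr rfl fun i _ => ?_
    rw [smul_smul, ← hd]
  · have h1 : f (∑ i, d i • ((b i : L) : V)) = ∑ i, (d i : ℚ) * β i := by
      rw [map_sum]
      refine Finset.sum_congr rfl fun i _ => ?_
      rw [map_zsmul, hf, zsmul_eq_mul]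
    rw [h1]
    have h2 : ((∑ i, β i * c i : ℤ) : ℚ) = (|g| : ℤ) := by rw [hβ]
    have h3 : ((∑ i, β i * c i : ℤ) : ℚ) = (|g| : ℤ) * ∑ i, (d i : ℚ) * β i := by
      push_cast
      rw [Finset.mul_sum]
      refine Finset.sum_congr rfl fun i _ => ?_
      have := hd i
      rw [this]
      push_cast
      ring
    rw [h3] at h2
    have h4 : ((|g| : ℤ) : ℚ) ≠ 0 := by exact_mod_cast hN.ne'
    exact mul_left_cancel₀ h4 (by rw [h2, mul_one])
  · intro z hz
    refine ⟨∑ i, b.repr ⟨z, hz⟩ i * β i, ?_⟩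
    have h3 := hrep z hz
    have h4 : f z = f (∑ i, b.repr ⟨z, hz⟩ i • ((b i : L) : V)) := congrArg f h3
    rw [h4, map_sum]
    push_cast
    refine Finset.sum_congr rfl fun i _ => ?_
    rw [map_zsmul, hf, zsmul_eq_mul]

/-- primitive vectors modulo a subspace -/
theorem exists_primitive_mod (S : Finset V) (W : Submodule ℚ V) {x : V} (hx : x ∈ S)
    (hxW : x ∉ W) :
    ∃ (f : V →ₗ[ℚ] ℚ) (N : ℤ) (m : V), m ∈ span ℤ (S : Set V) ∧ 0 < N ∧ x - N • m ∈ W ∧
      f m = 1 ∧ (∀ w ∈ W, f w = 0) ∧ ∀ z ∈ S, ∃ n : ℤ, f z = n := by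
  classical
  let q : V →ₗ[ℚ] V ⧸ W := W.mkQ
  let qz : V →ₗ[ℤ] V ⧸ W := q.restrictScalars ℤ
  have hfg : ((span ℤ (S : Set V)).map qz).FG := Submodule.FG.map _ ⟨S, rfl⟩
  have h1 : qz x ∈ (span ℤ (S : Set V)).map qz :=
    Submodule.mem_map_of_mem (Submodule.subset_span hx)
  have h2 : qz x ≠ 0 := by
    intro h
    apply hxW
    exact (Submodule.Quotient.mk_eq_zero W).1 h
  obtain ⟨f, N, m, hm, hN, hxm, hfm, hfz⟩ := exists_primitive _ hfg h1 h2
  obtain ⟨m', hm', rfl⟩ := Submodule.mem_map.1 hm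
  refine ⟨f.comp q, N, m', hm', hN, ?_, hfm, ?_, ?_⟩
  · rw [← map_zsmul, ← sub_eq_zero, ← map_sub] at hxm
    exact (Submodule.Quotient.mk_eq_zero W).1 hxm
  · intro w hw
    have : q w = 0 := (Submodule.Quotient.mk_eq_zero W).2 hw
    rw [LinearMap.comp_apply, this, map_zero]
  · intro z hz
    exact hfz (qz z) (Submodule.mem_map_of_mem (Submodule.subset_span hz))

/-- a small positive number for finitely many strict inequalities -/
theorem exists_small {ι : Type*} (S : Finset ι) (M q : ι → ℚ) (hq : ∀ i ∈ S, 0 < q i) :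
    ∃ ε : ℚ, 0 < ε ∧ ∀ i ∈ S, ∀ δ : ℚ, 0 ≤ δ → δ ≤ ε → δ * M i < q i := by
  classical
  induction S using Finset.induction_on with
  | empty => exact ⟨1, one_pos, by simp⟩
  | insert a S ha ih =>
    obtain ⟨ε, hε, h⟩ := ih fun i hi => hq i (Finset.mem_insert_of_mem hi)
    have hqa := hq a (Finset.mem_insert_self _ _)
    have h1 : (0 : ℚ) < |M a| + 1 := by positivity
    refine ⟨min ε (q a / (2 * (|M a| + 1))), lt_min hε (by positivity), fun i hi δ hδ hδε => ?_⟩
    rcases Finset.mem_insert.1 hi with rfl | hi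
    · have h2 : δ ≤ q i / (2 * (|M i| + 1)) := hδε.trans (min_le_right _ _)
      rw [le_div_iff₀ (by positivity)] at h2
      have h3 : M i ≤ |M i| := le_abs_self _
      have h4 : δ * M i ≤ δ * |M i| := mul_le_mul_of_nonneg_left h3 hδ
      nlinarith
    · exact h i hi δ hδ (hδε.trans (min_le_left _ _))

/-- dense combinations -/
theorem exists_dense {a b : ℚ} (ha : 0 < a) (hb : 0 < b) {ε : ℚ} (hε : 0 < ε) :
    ∃ g : ℚ, 0 < g ∧ g ≤ ε ∧ ∀ T : ℚ, ∃ α β : ℕ, |α * (b + g) - β * a - T| ≤ g := by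
  -- common denominators
  obtain ⟨A, B, D, hA, hB, hD, rfl, rfl⟩ : ∃ A B D : ℕ, 0 < A ∧ 0 < B ∧ 0 < D ∧
      a = A / D ∧ b = B / D := by
    have han : 0 < a.num := Rat.num_pos.2 ha
    have hbn : 0 < b.num := Rat.num_pos.2 hb
    refine ⟨a.num.toNat * b.den, b.num.toNat * a.den, a.den * b.den, ?_, ?_, ?_, ?_, ?_⟩
    · exact Nat.mul_pos (by omega) b.pos
    · exact Nat.mul_pos (by omega) a.pos
    · exact Nat.mul_pos a.pos b.pos
    · have h1 : ((a.num.toNat : ℕ) : ℚ) = a.num := by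
        have : ((a.num.toNat : ℕ) : ℤ) = a.num := Int.toNat_of_nonneg han.le
        exact_mod_cast this
      have h2 : (b.den : ℚ) ≠ 0 := by exact_mod_cast b.pos.ne'
      have h3 : (a.den : ℚ) ≠ 0 := by exact_mod_cast a.pos.ne'
      push_cast
      rw [h1, mul_div_mul_right _ _ h2, Rat.num_div_den]
    · have h1 : ((b.num.toNat : ℕ) : ℚ) = b.num := by
        have : ((b.num.toNat : ℕ) : ℤ) = b.num := Int.toNat_of_nonneg hbn.le
        exact_mod_cast this
      have h2 : (b.den : ℚ) ≠ 0 := by exact_mod_cast b.pos.ne'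
      have h3 : (a.den : ℚ) ≠ 0 := by exact_mod_cast a.pos.ne'
      push_cast
      rw [h1, mul_comm (a.den : ℚ), mul_div_mul_right _ _ h3, Rat.num_div_den]
  obtain ⟨m, hm⟩ := exists_nat_gt (1 / ε)
  have hm0 : 0 < m := by
    have : (0 : ℚ) < m := lt_trans (by positivity) hm
    exact_mod_cast this
  set n : ℕ := A * m with hn
  have hn0 : 0 < n := Nat.mul_pos hA hm0
  have hA' : (0 : ℚ) < A := by exact_mod_cast hA
  have hB' : (0 : ℚ) < B := by exact_mod_cast hB
  have hD' : (0 : ℚ) < D := by exact_mod_cast hD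
  have hn' : (0 : ℚ) < n := by exact_mod_cast hn0
  refine ⟨1 / (n * D), by positivity, ?_, fun T => ?_⟩
  · rw [div_le_iff₀ (by positivity)]
    have h1 : (m : ℚ) ≤ n * D := by
      have : m ≤ n * D := by
        rw [hn]
        calc m = 1 * m * 1 := by ring
          _ ≤ A * m * D := Nat.mul_le_mul (Nat.mul_le_mul hA (le_refl m)) hD
      exact_mod_cast this
    rw [div_lt_iff₀ hε] at hm
    nlinarith
  · -- coprimality
    have hcop : IsCoprime ((n * A : ℕ) : ℤ) ((n * B + 1 : ℕ) : ℤ) := by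
      have h1 : IsCoprime (n : ℤ) ((n * B + 1 : ℕ) : ℤ) := ⟨-B, 1, by push_cast; ring⟩
      have h2 : IsCoprime (A : ℤ) ((n * B + 1 : ℕ) : ℤ) :=
        ⟨-(m * B), 1, by rw [hn]; push_cast; ring⟩
      push_cast
      have h3 := IsCoprime.mul_left h1 h2
      push_cast at h3
      exact h3
    obtain ⟨p, q, hpq⟩ := hcop
    set k : ℤ := ⌊T * (n * D)⌋ with hk
    -- `α (nB+1) - β (nA) = k`
    set t : ℕ := (k * q).natAbs + (k * p).natAbs with ht
    have hAn : 1 ≤ n * A := Nat.mul_pos hn0 hA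
    have h1 : 0 ≤ k * q + t * (n * A : ℕ) := by
      have h2 : -(k * q) ≤ (k * q).natAbs := by omega
      have h3 : ((t : ℕ) : ℤ) ≤ t * (n * A : ℕ) := by
        have : t * 1 ≤ t * (n * A) := Nat.mul_le_mul_left _ hAn
        rw [mul_one] at this
        exact_mod_cast this
      omega
    have h2 : 0 ≤ -(k * p) + t * (n * B + 1 : ℕ) := by
      have h2 : (k * p) ≤ (k * p).natAbs := by omega
      have h3 : ((t : ℕ) : ℤ) ≤ t * (n * B + 1 : ℕ) := by
        have : t * 1 ≤ t * (n * B + 1) := Nat.mul_le_mul_left _ (by omega)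
        rw [mul_one] at this
        exact_mod_cast this
      omega
    refine ⟨(k * q + t * (n * A : ℕ)).toNat, (-(k * p) + t * (n * B + 1 : ℕ)).toNat, ?_⟩
    have e1 : (((k * q + t * (n * A : ℕ)).toNat : ℕ) : ℚ) = k * q + t * (n * A) := by
      have := Int.toNat_of_nonneg h1
      have h5 : ((((k * q + t * (n * A : ℕ)).toNat : ℕ) : ℤ) : ℚ) =
        ((k * q + t * (n * A : ℕ) : ℤ) : ℚ) := by rw [this]
      push_cast at h5
      exact_mod_cast h5
    have e2 : (((-(k * p) + t * (n * B + 1 : ℕ)).toNat : ℕ) : ℚ) =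
        -(k * p) + t * (n * B + 1) := by
      have := Int.toNat_of_nonneg h2
      have h5 : ((((-(k * p) + t * (n * B + 1 : ℕ)).toNat : ℕ) : ℤ) : ℚ) =
        ((-(k * p) + t * (n * B + 1 : ℕ) : ℤ) : ℚ) := by rw [this]
      push_cast at h5
      exact_mod_cast h5
    rw [e1, e2]
    have e3 : ((k * q + t * (n * A)) * ((B : ℚ) / D + 1 / (n * D)) -
        (-(k * p) + t * (n * B + 1)) * ((A : ℚ) / D)) = k / (n * D) := by
      have hpq' : (p : ℚ) * (n * A) + q * (n * B + 1) = 1 := by exact_mod_cast hpq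
      field_simp
      linear_combination (k : ℚ) * hpq'
    rw [e3]
    have hf1 : (k : ℚ) ≤ T * (n * D) := Int.floor_le _
    have hf2 : T * (n * D) < k + 1 := Int.lt_floor_add_one _
    have hnD : (0 : ℚ) < n * D := by positivity
    rw [abs_le]
    constructor
    · rw [neg_le_sub_iff_le_add, ← add_div, le_div_iff₀ hnD]
      exact hf2.le
    · have : (k : ℚ) / (n * D) ≤ T := by rw [div_le_iff₀ hnD]; exact hf1
      have h6 : (0 : ℚ) < 1 / (n * D) := by positivity
      linarith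

end Pool.Agent.V8H40.OG
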