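import Pool.Agent.V8H40.OG.Exist

/-!
# The run of the construction
-/

set_option autoImplicit false

namespace Pool.Agent.V8H40.OG

open Nat.Partrec (Code)

/-- the action part of a step -/
def ActRel (kk : ℕ → Vc) (s : ℕ) (st mid : St) : Prop :=
  (∃ e < s + 1, e ∉ st.2.2 ∧ Crit kk s e st.1 st.2.1 ∧
    (∀ e' < e, ¬ (e' ∉ st.2.2 ∧ Crit kk s e' st.1 st.2.1)) ∧
    ∃ t, Valid kk s e st.1 st.2.1 t ∧ mid = (t.1, t.2.1, e :: st.2.2)) ∨
  ((∀ e < s + 1, ¬ (e ∉ st.2.2 ∧ Crit kk s e st.1 st.2.1)) ∧ mid = st)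

/-- the extension part of a step -/
def AddRel (kk : ℕ → Vc) (mid st' : St) : Prop :=
  ∃ t, ValidAdd kk mid.1 mid.2.1 t ∧ st' = (mid.1 ++ [t.1], t.2, mid.2.2)

theorem nm_append {kk : ℕ → Vc} {p : List ℕ} {i a : ℕ} (ha : a < p.length) :
    nm kk (p ++ [i]) a = nm kk p a := by
  unfold nm
  rw [List.getD_append _ _ _ _ ha]

theorem nm_append_last {kk : ℕ → Vc} {p : List ℕ} {i : ℕ} :
    nm kk (p ++ [i]) p.length = val (kk i) := by
  unfold nm
  rw [List.getD_append_right _ _ _ _ (le_refl _)]
  simp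

theorem inv_act {kk : ℕ → Vc} {s : ℕ} {st mid : St} (hI : Inv kk st.1 st.2.1)
    (h : ActRel kk s st mid) : Inv kk mid.1 mid.2.1 ∧ mid.1.length = st.1.length := by
  rcases h with ⟨e, he, hd, hC, hmin, t, hV, rfl⟩ | ⟨hno, rfl⟩
  · obtain ⟨hn, h0, hinj⟩ := hI
    obtain ⟨hlen, h1, h2, h3, h4, h5, h6, h7⟩ := hV
    refine ⟨⟨?_, ?_, ?_⟩, hlen⟩
    · change 0 < t.1.length
      rw [hlen]; exact hn
    · change nm kk t.1 0 = _
      rw [h3 0 hn, h2 0 hn (Or.inl (Nat.zero_le _)), zero_smul, add_zero, h0]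
    · change ∀ a < t.1.length, ∀ b < t.1.length, _
      rw [hlen]
      intro a ha b hb hab
      change fn t.2.1 (nm kk t.1 a) ≠ fn t.2.1 (nm kk t.1 b)
      rcases lt_or_gt_of_ne (hinj a ha b hb hab) with h8 | h8
      · exact (h4 a ha b hb h8).ne
      · exact (h4 b hb a ha h8).ne'
  · exact ⟨hI, rfl⟩

theorem inv_add {kk : ℕ → Vc} {mid st' : St} (hI : Inv kk mid.1 mid.2.1)
    (h : AddRel kk mid st') : Inv kk st'.1 st'.2.1 ∧ st'.1.length = mid.1.length + 1 := by
  obtain ⟨t, ⟨h1, h2, h3, h4⟩, rfl⟩ := h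
  obtain ⟨hn, h0, hinj⟩ := hI
  have hlt : ∀ a < mid.1.length, ∀ b < mid.1.length, a ≠ b →
      fn t.2 (nm kk mid.1 a) ≠ fn t.2 (nm kk mid.1 b) := by
    intro a ha b hb hab
    rcases lt_or_gt_of_ne (hinj a ha b hb hab) with h8 | h8
    · exact (h3 a ha b hb h8).ne
    · exact (h3 b hb a ha h8).ne'
  refine ⟨⟨?_, ?_, ?_⟩, by simp⟩
  · simp
  · change nm kk (mid.1 ++ [t.1]) 0 = _
    rw [nm_append hn, h0]
  · change ∀ a < (mid.1 ++ [t.1]).length, ∀ b < (mid.1 ++ [t.1]).length, _
    intro a ha b hb hab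
    change fn t.2 (nm kk (mid.1 ++ [t.1]) a) ≠ fn t.2 (nm kk (mid.1 ++ [t.1]) b)
    simp only [List.length_append, List.length_singleton] at ha hb
    rcases Nat.lt_succ_iff_lt_or_eq.1 ha with ha' | ha' <;>
      rcases Nat.lt_succ_iff_lt_or_eq.1 hb with hb' | hb'
    · rw [nm_append ha', nm_append hb']
      exact hlt a ha' b hb' hab
    · rw [nm_append ha', hb', nm_append_last]
      exact h4 a ha'
    · rw [nm_append hb', ha', nm_append_last]
      exact (h4 b hb').symm
    · omega

theorem exists_run {kk : ℕ → Vc} (hk : Computable kk) {K : AddSubgroup QV}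
    (hK : ∀ v, v ∈ K ↔ ∃ i, val (kk i) = v)
    (hinf : ∀ p : List ℕ, ∃ i, ∀ a < p.length, nm kk p a ≠ val (kk i)) :
    ∃ S : ℕ → St, Computable S ∧ Inv kk (S 0).1 (S 0).2.1 ∧ (S 0).1.length = 1 ∧
      (S 0).2.2 = [] ∧ ∀ s, ∃ mid : St, ActRel kk s (S s) mid ∧ AddRel kk mid (S (s + 1)) := by
  classical
  -- projections
  have c1 : Computable fun x : ℕ × St => x.1 := Computable.fst
  have c2 : Computable fun x : ℕ × St => x.2.1 := Computable.fst.comp Computable.snd
  have c3 : Computable fun x : ℕ × St => x.2.2.1 :=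
    Computable.fst.comp (Computable.snd.comp Computable.snd)
  have c4 : Computable fun x : ℕ × St => x.2.2.2 :=
    Computable.snd.comp (Computable.snd.comp Computable.snd)
  -- who acts
  obtain ⟨who, hwho, hwn, hws⟩ := CP.least (α := ℕ × St) (n := fun x => x.1 + 1)
    (p := fun x e => e ∉ x.2.2.2 ∧ Crit kk x.1 e x.2.1 x.2.2.1)
    (Computable.succ.comp c1) (by
      refine CP.and (CP.not (CP.mem Computable.snd (c4.comp Computable.fst))) ?_
      exact Crit_CP hk (c1.comp Computable.fst) Computable.snd (c2.comp Computable.fst)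
        (c3.comp Computable.fst))
  -- search for the data of an action
  obtain ⟨F1, hF1, hF1V⟩ := CP.search (α := ℕ × St) (β := Dt)
    (R := fun x t => who x = none ∨ ¬ Inv kk x.2.1 x.2.2.1 ∨
      Valid kk x.1 ((who x).getD 0) x.2.1 x.2.2.1 t) (by
      refine CP.or (CP.eq (hwho.comp Computable.fst) (Computable.const none)) (CP.or ?_ ?_)
      · exact (Inv_CP hk (c2.comp Computable.fst) (c3.comp Computable.fst)).not
      · exact Valid_CP hk (c1.comp Computable.fst) (Computable.option_getD
          (hwho.comp Computable.fst) (Computable.const 0)) (c2.comp Computable.fst)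
          (c3.comp Computable.fst) Computable.snd) (fun x => by
      cases h : who x with
      | none => exact ⟨([], [], ([], 0), [], 0, []), Or.inl rfl⟩
      | some e =>
        by_cases hI : Inv kk x.2.1 x.2.2.1
        · obtain ⟨t, ht⟩ := exists_valid hK hI ((hws x e).1 h).2.1.2
          exact ⟨t, Or.inr (Or.inr ht)⟩
        · exact ⟨([], [], ([], 0), [], 0, []), Or.inr (Or.inl hI)⟩)
  -- the middle state
  let M : ℕ × St → St := fun x => if who x = none then x.2
    else ((F1 x).1, (F1 x).2.1, (who x).getD 0 :: x.2.2.2)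
  have hM : Computable M := by
    refine Pool.Agent.R557.CK.c_ite' ((CP.eq hwho (Computable.const none)).dec)
      Computable.snd ?_
    refine Computable.pair (Computable.fst.comp hF1) (Computable.pair
      (Computable.fst.comp (Computable.snd.comp hF1)) ?_)
    exact Computable.list_cons.comp (Computable.option_getD hwho (Computable.const 0)) c4
  have hMrel : ∀ x : ℕ × St, Inv kk x.2.1 x.2.2.1 → ActRel kk x.1 x.2 (M x) := by
    intro x hI
    cases h : who x with
    | none =>
      right
      refine ⟨(hwn x).1 h, ?_⟩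
      simp only [M, h, if_true]
    | some e =>
      left
      obtain ⟨h1, h2, h3⟩ := (hws x e).1 h
      refine ⟨e, h1, h2.1, h2.2, h3, F1 x, ?_, ?_⟩
      · have h4 := hF1V x
        rw [h] at h4
        rcases h4 with h4 | h4 | h4
        · simp at h4
        · exact absurd hI h4
        · exact h4
      · simp only [M, h]
        rfl
  -- search for the data of an extension
  obtain ⟨F2, hF2, hF2V⟩ := CP.search (α := St) (β := ℕ × List ℤ)
    (R := fun x t => ¬ Inv kk x.1 x.2.1 ∨ ValidAdd kk x.1 x.2.1 t) (by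
      refine CP.or (Inv_CP hk (Computable.fst.comp Computable.fst)
        (Computable.fst.comp (Computable.snd.comp Computable.fst))).not ?_
      exact ValidAdd_CP hk (Computable.fst.comp Computable.fst)
        (Computable.fst.comp (Computable.snd.comp Computable.fst)) Computable.snd) (fun x => by
      by_cases hI : Inv kk x.1 x.2.1
      · obtain ⟨t, ht⟩ := exists_validAdd hinf hI
        exact ⟨t, Or.inr ht⟩
      · exact ⟨(0, []), Or.inl hI⟩)
  let A : St → St := fun x => (x.1 ++ [(F2 x).1], (F2 x).2, x.2.2)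
  have hA : Computable A := by
    refine Computable.pair ?_ (Computable.pair (Computable.snd.comp hF2)
      (Computable.snd.comp Computable.snd))
    exact Computable.list_concat.comp Computable.fst (Computable.fst.comp hF2)
  have hArel : ∀ x : St, Inv kk x.1 x.2.1 → AddRel kk x (A x) := by
    intro x hI
    rcases hF2V x with h | h
    · exact absurd hI h
    · exact ⟨F2 x, h, rfl⟩
  -- the initial state
  obtain ⟨i0, hi0⟩ := (hK 0).1 K.zero_mem
  let S0 : St := ([i0], [], [])
  let S : ℕ → St := fun n => Nat.rec (motive := fun _ => St) S0 (fun s x => A (M (s, x))) n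
  have hS : Computable S := by
    have h1 : Computable₂ fun (_ : ℕ) (b : ℕ × St) => A (M (b.1, b.2)) :=
      (hA.comp hM).comp Computable.snd
    exact Computable.nat_rec Computable.id (Computable.const S0) h1
  have hS0 : S 0 = S0 := rfl
  have hSs : ∀ s, S (s + 1) = A (M (s, S s)) := fun s => rfl
  have hI0 : Inv kk (S 0).1 (S 0).2.1 := by
    rw [hS0]
    refine ⟨by simp [S0], ?_, ?_⟩
    · rw [val_nil]
      exact hi0
    · intro a ha b hb hab
      simp only [S0, List.length_singleton] at ha hb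
      omega
  have hI : ∀ s, Inv kk (S s).1 (S s).2.1 := by
    intro s
    induction s with
    | zero => exact hI0
    | succ s ih =>
      have h1 := hMrel (s, S s) ih
      have h2 := (inv_act ih h1).1
      rw [hSs]
      exact (inv_add h2 (hArel _ h2)).1
  refine ⟨S, hS, hI0, rfl, rfl, fun s => ?_⟩
  have h1 := hMrel (s, S s) (hI s)
  have h2 := (inv_act (hI s) h1).1
  exact ⟨M (s, S s), h1, by rw [hSs]; exact hArel _ h2⟩

end Pool.Agent.V8H40.OG
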