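import Pool.Agent.V8H40.OG.Vec

/-!
# The construction of a computable copy with two computable orders: the step relation
-/

set_option autoImplicit false

namespace Pool.Agent.V8H40.OG

open Nat.Partrec (Code)
open Pool.Agent.R557.DS (CQ)

/-- the state: names (indices of their vectors), the functional giving the order, and the
requirements which have acted -/
abbrev St := List ℕ × List ℤ × List ℕ

/-- data of an action: new names, new functional, shear functional with denominator, its values,
index of the direction, coefficients of the inconsistency -/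
abbrev Dt := List ℕ × List ℤ × Vc × List ℤ × ℕ × List ℕ

/-- the vector of a name -/
noncomputable def nm (kk : ℕ → Vc) (p : List ℕ) (a : ℕ) : QV := val (kk (p.getD a 0))

/-- approximate values of the `e`-th computable function -/
def ph (e s a : ℕ) : Option ℕ := Code.evaln s (Denumerable.ofNat Code e) a

/-- the sign given by a value -/
def sg (o : Option ℕ) : ℤ := if o = some 1 then 1 else -1

/-- protected names -/
def Prot (kk : ℕ → Vc) (p : List ℕ) (e a : ℕ) : Prop :=
  a ≤ e ∨ ∃ i < e + 1, nm kk p a = val (kk i)

/-- invariant of the states -/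
def Inv (kk : ℕ → Vc) (p : List ℕ) (r : List ℤ) : Prop :=
  0 < p.length ∧ nm kk p 0 = val ([], 0) ∧
    ∀ a < p.length, ∀ b < p.length, a ≠ b → fn r (nm kk p a) ≠ fn r (nm kk p b)

/-- requirement `e` requires attention -/
def Crit (kk : ℕ → Vc) (s e : ℕ) (p : List ℕ) (r : List ℤ) : Prop :=
  ∃ x < p.length, ∃ u < p.length, ∃ v < p.length, ∃ M < s + 1,
    nm kk p x = val (uc M) ∧
    (∀ a < p.length, (Prot kk p e a ∨ a = u ∨ a = v) →
      (∀ i < (kk (p.getD a 0)).1.length, M ≤ i → nm kk p a i = 0) ∧
        (ph e s a).isSome = true) ∧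
    (ph e s x).isSome = true ∧ ph e s u ≠ some 1 ∧ ph e s v = some 1 ∧
    0 < fn r (nm kk p u) ∧ 0 < fn r (nm kk p v) ∧
    ∃ i < M, ∃ j < M, nm kk p u i * nm kk p v j ≠ nm kk p u j * nm kk p v i

/-- validity of the data of an action -/
def Valid (kk : ℕ → Vc) (s e : ℕ) (p : List ℕ) (r : List ℤ) (t : Dt) : Prop :=
  t.1.length = p.length ∧
  (∀ a < p.length, ((t.2.2.1.2 : ℚ) + 1) * (t.2.2.2.1.getD a 0 : ℚ) =
    fn t.2.2.1.1 (nm kk p a)) ∧
  (∀ a < p.length, Prot kk p e a → (t.2.2.2.1.getD a 0 : ℚ) = 0) ∧
  (∀ a < p.length, nm kk t.1 a =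
    nm kk p a + (t.2.2.2.1.getD a 0 : ℚ) • val (kk t.2.2.2.2.1)) ∧
  (∀ a < p.length, ∀ b < p.length, fn r (nm kk p a) < fn r (nm kk p b) →
    fn t.2.1 (nm kk t.1 a) < fn t.2.1 (nm kk t.1 b)) ∧
  (∀ a < p.length, t.2.2.2.2.2.getD a 0 ≠ 0 → (ph e s a).isSome = true ∧ a ≠ 0) ∧
  (∃ a < p.length, t.2.2.2.2.2.getD a 0 ≠ 0) ∧
  ∑ a ∈ Finset.range p.length,
    (((t.2.2.2.2.2.getD a 0 : ℕ) : ℚ) * (sg (ph e s a) : ℚ)) • nm kk t.1 a = val ([], 0)

/-- validity of the data of an extension -/
def ValidAdd (kk : ℕ → Vc) (p : List ℕ) (r : List ℤ) (t : ℕ × List ℤ) : Prop :=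
  (∀ a < p.length, nm kk p a ≠ val (kk t.1)) ∧
  (∀ i < t.1, ∃ a < p.length, nm kk p a = val (kk i)) ∧
  (∀ a < p.length, ∀ b < p.length, fn r (nm kk p a) < fn r (nm kk p b) →
    fn t.2 (nm kk p a) < fn t.2 (nm kk p b)) ∧
  (∀ a < p.length, fn t.2 (nm kk p a) ≠ fn t.2 (val (kk t.1)))

/-! ### Computability -/

variable {α : Type*} [Primcodable α]

section

variable {kk : ℕ → Vc} (hk : Computable kk)

include hk

theorem nm_CV {p : α → List ℕ} {a : α → ℕ} (hp : Computable p) (ha : Computable a) :
    CV fun x => nm kk (p x) (a x) :=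
  CV.val (hk.comp ((Primrec.list_getD (0 : ℕ)).to_comp.comp hp ha))

theorem nm_CQ {p : α → List ℕ} {a i : α → ℕ} (hp : Computable p) (ha : Computable a)
    (hi : Computable i) : CQ fun x => nm kk (p x) (a x) (i x) :=
  CQ_val (hk.comp ((Primrec.list_getD (0 : ℕ)).to_comp.comp hp ha)) hi

theorem fn_nm_CQ {r : α → List ℤ} {p : α → List ℕ} {a : α → ℕ} (hr : Computable r)
    (hp : Computable p) (ha : Computable a) : CQ fun x => fn (r x) (nm kk (p x) (a x)) :=
  CQ_fn hr (hk.comp ((Primrec.list_getD (0 : ℕ)).to_comp.comp hp ha))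

end

theorem ph_comp {e s a : α → ℕ} (he : Computable e) (hs : Computable s) (ha : Computable a) :
    Computable fun x => ph (e x) (s x) (a x) := by
  have h1 : Primrec fun b : (ℕ × ℕ) × ℕ => ph b.1.1 b.1.2 b.2 :=
    Code.primrec_evaln.comp (((Primrec.snd.comp Primrec.fst).pair
      ((Primrec.ofNat Code).comp (Primrec.fst.comp Primrec.fst))).pair Primrec.snd)
  exact h1.to_comp.comp (Computable.pair (Computable.pair he hs) ha)

theorem ph_isSome_CP {e s a : α → ℕ} (he : Computable e) (hs : Computable s)
    (ha : Computable a) : CP fun x => (ph (e x) (s x) (a x)).isSome = true :=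
  ⟨_, Primrec.option_isSome.to_comp.comp (ph_comp he hs ha), fun _ => Iff.rfl⟩

theorem ph_eq_CP {e s a : α → ℕ} (he : Computable e) (hs : Computable s)
    (ha : Computable a) : CP fun x => ph (e x) (s x) (a x) = some 1 :=
  CP.eq (ph_comp he hs ha) (Computable.const _)

theorem sg_CQ {o : α → Option ℕ} (ho : Computable o) : CQ fun x => (sg (o x) : ℚ) := by
  have h1 : Primrec sg := Primrec.ite (Primrec.eq.comp Primrec.id (Primrec.const _))
    (Primrec.const 1) (Primrec.const (-1))
  exact CQ.int (h1.to_comp.comp ho)

theorem c_len {β : Type*} [Primcodable β] {p : α → List β} (hp : Computable p) :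
    Computable fun x => (p x).length := Computable.list_length.comp hp

section

variable {kk : ℕ → Vc} (hk : Computable kk)

include hk

theorem Prot_CP {p : α → List ℕ} {e a : α → ℕ} (hp : Computable p) (he : Computable e)
    (ha : Computable a) : CP fun x => Prot kk (p x) (e x) (a x) := by
  unfold Prot
  refine (CP.le ha he).or (CP.bex (Computable.succ.comp he) ?_)
  exact CP.cveq (nm_CV hk (hp.comp Computable.fst) (ha.comp Computable.fst))
    (CV.val (hk.comp Computable.snd))

theorem Inv_CP {p : α → List ℕ} {r : α → List ℤ} (hp : Computable p) (hr : Computable r) :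
    CP fun x => Inv kk (p x) (r x) := by
  unfold Inv
  refine (CP.lt (Computable.const 0) (c_len hp)).and (CP.and ?_ ?_)
  · exact CP.cveq (nm_CV hk hp (Computable.const 0)) (CV.val (Computable.const _))
  · refine CP.ball (c_len hp) (CP.ball (c_len (hp.comp Computable.fst)) (CP.imp ?_ ?_))
    · exact (CP.eq (Computable.snd.comp Computable.fst) Computable.snd).not
    · refine (CP.rateq ?_ ?_).not
      · exact fn_nm_CQ hk (hr.comp (Computable.fst.comp Computable.fst))
          (hp.comp (Computable.fst.comp Computable.fst)) (Computable.snd.comp Computable.fst)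
      · exact fn_nm_CQ hk (hr.comp (Computable.fst.comp Computable.fst))
          (hp.comp (Computable.fst.comp Computable.fst)) Computable.snd

theorem Crit_CP {s e : α → ℕ} {p : α → List ℕ} {r : α → List ℤ} (hs : Computable s)
    (he : Computable e) (hp : Computable p) (hr : Computable r) :
    CP fun x => Crit kk (s x) (e x) (p x) (r x) := by
  unfold Crit
  refine CP.bex (c_len hp) (CP.bex (c_len (hp.comp Computable.fst))
    (CP.bex (c_len (hp.comp (Computable.fst.comp Computable.fst)))
      (CP.bex (Computable.succ.comp (hs.comp (Computable.fst.comp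
        (Computable.fst.comp Computable.fst)))) ?_)))
  -- variables: `y : (((α × ℕ) × ℕ) × ℕ) × ℕ`
  have c0 : Computable fun y : (((α × ℕ) × ℕ) × ℕ) × ℕ => y.1.1.1.1 :=
    Computable.fst.comp (Computable.fst.comp (Computable.fst.comp Computable.fst))
  have cx : Computable fun y : (((α × ℕ) × ℕ) × ℕ) × ℕ => y.1.1.1.2 :=
    Computable.snd.comp (Computable.fst.comp (Computable.fst.comp Computable.fst))
  have cu : Computable fun y : (((α × ℕ) × ℕ) × ℕ) × ℕ => y.1.1.2 :=
    Computable.snd.comp (Computable.fst.comp Computable.fst)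
  have cv : Computable fun y : (((α × ℕ) × ℕ) × ℕ) × ℕ => y.1.2 :=
    Computable.snd.comp Computable.fst
  have cM : Computable fun y : (((α × ℕ) × ℕ) × ℕ) × ℕ => y.2 := Computable.snd
  have hp' := hp.comp c0
  have hr' := hr.comp c0
  have he' := he.comp c0
  have hs' := hs.comp c0
  refine CP.and (CP.cveq (nm_CV hk hp' cx) (CV.val (uc_comp.comp cM))) (CP.and ?_ (CP.and ?_
    (CP.and ?_ (CP.and ?_ (CP.and ?_ (CP.and ?_ ?_))))))
  · refine CP.ball (c_len hp') (CP.imp (CP.or ?_ (CP.or ?_ ?_)) (CP.and ?_ ?_))
    · exact Prot_CP hk (hp'.comp Computable.fst) (he'.comp Computable.fst) Computable.snd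
    · exact CP.eq Computable.snd (cu.comp Computable.fst)
    · exact CP.eq Computable.snd (cv.comp Computable.fst)
    · refine CP.ball ?_ (CP.imp (CP.le (cM.comp (Computable.fst.comp Computable.fst))
        Computable.snd) (CP.rateq ?_ (CQ.const 0)))
      · exact c_len (Computable.fst.comp (hk.comp ((Primrec.list_getD (0 : ℕ)).to_comp.comp
          (hp'.comp Computable.fst) Computable.snd)))
      · exact nm_CQ hk (hp'.comp (Computable.fst.comp Computable.fst))
          (Computable.snd.comp Computable.fst) Computable.snd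
    · exact ph_isSome_CP (he'.comp Computable.fst) (hs'.comp Computable.fst) Computable.snd
  · exact ph_isSome_CP he' hs' cx
  · exact (ph_eq_CP he' hs' cu).not
  · exact ph_eq_CP he' hs' cv
  · exact CP.ratlt (CQ.const 0) (fn_nm_CQ hk hr' hp' cu)
  · exact CP.ratlt (CQ.const 0) (fn_nm_CQ hk hr' hp' cv)
  · refine CP.bex cM (CP.bex (cM.comp Computable.fst) (CP.not (CP.rateq ?_ ?_)))
    · exact (nm_CQ hk (hp'.comp (Computable.fst.comp Computable.fst))
        (cu.comp (Computable.fst.comp Computable.fst)) (Computable.snd.comp Computable.fst)).mul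
        (nm_CQ hk (hp'.comp (Computable.fst.comp Computable.fst))
        (cv.comp (Computable.fst.comp Computable.fst)) Computable.snd)
    · exact (nm_CQ hk (hp'.comp (Computable.fst.comp Computable.fst))
        (cu.comp (Computable.fst.comp Computable.fst)) Computable.snd).mul
        (nm_CQ hk (hp'.comp (Computable.fst.comp Computable.fst))
        (cv.comp (Computable.fst.comp Computable.fst)) (Computable.snd.comp Computable.fst))

theorem Valid_CP {s e : α → ℕ} {p : α → List ℕ} {r : α → List ℤ} {t : α → Dt}
    (hs : Computable s) (he : Computable e) (hp : Computable p) (hr : Computable r)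
    (ht : Computable t) : CP fun x => Valid kk (s x) (e x) (p x) (r x) (t x) := by
  unfold Valid
  have t1 : Computable fun x => (t x).1 := Computable.fst.comp ht
  have t2 : Computable fun x => (t x).2.1 := Computable.fst.comp (Computable.snd.comp ht)
  have t3 : Computable fun x => (t x).2.2.1 :=
    Computable.fst.comp (Computable.snd.comp (Computable.snd.comp ht))
  have t31 : Computable fun x => (t x).2.2.1.1 := Computable.fst.comp t3
  have t32 : Computable fun x => (t x).2.2.1.2 := Computable.snd.comp t3
  have t4 : Computable fun x => (t x).2.2.2.1 :=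
    Computable.fst.comp (Computable.snd.comp (Computable.snd.comp (Computable.snd.comp ht)))
  have t5 : Computable fun x => (t x).2.2.2.2.1 :=
    Computable.fst.comp (Computable.snd.comp (Computable.snd.comp
      (Computable.snd.comp (Computable.snd.comp ht))))
  have t6 : Computable fun x => (t x).2.2.2.2.2 :=
    Computable.snd.comp (Computable.snd.comp (Computable.snd.comp
      (Computable.snd.comp (Computable.snd.comp ht))))
  have hell : CQ fun y : α × ℕ => ((t y.1).2.2.2.1.getD y.2 0 : ℚ) :=
    CQ_getD (t4.comp Computable.fst) Computable.snd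
  have hc : Computable fun y : α × ℕ => (t y.1).2.2.2.2.2.getD y.2 0 :=
    (Primrec.list_getD (0 : ℕ)).to_comp.comp (t6.comp Computable.fst) Computable.snd
  refine CP.and (CP.eq (c_len t1) (c_len hp)) (CP.and ?_ (CP.and ?_ (CP.and ?_ (CP.and ?_
    (CP.and ?_ (CP.and ?_ ?_))))))
  · refine CP.ball (c_len hp) (CP.rateq ?_ ?_)
    · exact ((CQ.nat (t32.comp Computable.fst)).add (CQ.const 1)).mul hell
    · exact fn_nm_CQ hk (t31.comp Computable.fst) (hp.comp Computable.fst) Computable.snd
  · refine CP.ball (c_len hp) (CP.imp ?_ (CP.rateq hell (CQ.const 0)))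
    exact Prot_CP hk (hp.comp Computable.fst) (he.comp Computable.fst) Computable.snd
  · refine CP.ball (c_len hp) (CP.cveq ?_ (CV.add ?_ (CV.smul hell ?_)))
    · exact nm_CV hk (t1.comp Computable.fst) Computable.snd
    · exact nm_CV hk (hp.comp Computable.fst) Computable.snd
    · exact CV.val (hk.comp (t5.comp Computable.fst))
  · refine CP.ball (c_len hp) (CP.ball (c_len (hp.comp Computable.fst)) (CP.imp
      (CP.ratlt ?_ ?_) (CP.ratlt ?_ ?_)))
    · exact fn_nm_CQ hk (hr.comp (Computable.fst.comp Computable.fst))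
        (hp.comp (Computable.fst.comp Computable.fst)) (Computable.snd.comp Computable.fst)
    · exact fn_nm_CQ hk (hr.comp (Computable.fst.comp Computable.fst))
        (hp.comp (Computable.fst.comp Computable.fst)) Computable.snd
    · exact fn_nm_CQ hk (t2.comp (Computable.fst.comp Computable.fst))
        (t1.comp (Computable.fst.comp Computable.fst)) (Computable.snd.comp Computable.fst)
    · exact fn_nm_CQ hk (t2.comp (Computable.fst.comp Computable.fst))
        (t1.comp (Computable.fst.comp Computable.fst)) Computable.snd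
  · refine CP.ball (c_len hp) (CP.imp (CP.not (CP.eq hc (Computable.const 0))) (CP.and ?_ ?_))
    · exact ph_isSome_CP (he.comp Computable.fst) (hs.comp Computable.fst) Computable.snd
    · exact (CP.eq Computable.snd (Computable.const 0)).not
  · exact CP.bex (c_len hp) (CP.not (CP.eq hc (Computable.const 0)))
  · refine CP.cveq (CV.sum (c_len hp) (CV.smul ?_ ?_)) (CV.val (Computable.const _))
    · exact (CQ.nat hc).mul (sg_CQ (ph_comp (he.comp Computable.fst) (hs.comp Computable.fst)
        Computable.snd))
    · exact nm_CV hk (t1.comp Computable.fst) Computable.snd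

theorem ValidAdd_CP {p : α → List ℕ} {r : α → List ℤ} {t : α → ℕ × List ℤ}
    (hp : Computable p) (hr : Computable r) (ht : Computable t) :
    CP fun x => ValidAdd kk (p x) (r x) (t x) := by
  unfold ValidAdd
  have t1 : Computable fun x => (t x).1 := Computable.fst.comp ht
  have t2 : Computable fun x => (t x).2 := Computable.snd.comp ht
  refine CP.and ?_ (CP.and ?_ (CP.and ?_ ?_))
  · refine CP.ball (c_len hp) (CP.not (CP.cveq ?_ ?_))
    · exact nm_CV hk (hp.comp Computable.fst) Computable.snd
    · exact CV.val (hk.comp (t1.comp Computable.fst))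
  · refine CP.ball t1 (CP.bex (c_len (hp.comp Computable.fst)) (CP.cveq ?_ ?_))
    · exact nm_CV hk (hp.comp (Computable.fst.comp Computable.fst)) Computable.snd
    · exact CV.val (hk.comp (Computable.snd.comp Computable.fst))
  · refine CP.ball (c_len hp) (CP.ball (c_len (hp.comp Computable.fst)) (CP.imp
      (CP.ratlt ?_ ?_) (CP.ratlt ?_ ?_)))
    · exact fn_nm_CQ hk (hr.comp (Computable.fst.comp Computable.fst))
        (hp.comp (Computable.fst.comp Computable.fst)) (Computable.snd.comp Computable.fst)
    · exact fn_nm_CQ hk (hr.comp (Computable.fst.comp Computable.fst))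
        (hp.comp (Computable.fst.comp Computable.fst)) Computable.snd
    · exact fn_nm_CQ hk (t2.comp (Computable.fst.comp Computable.fst))
        (hp.comp (Computable.fst.comp Computable.fst)) (Computable.snd.comp Computable.fst)
    · exact fn_nm_CQ hk (t2.comp (Computable.fst.comp Computable.fst))
        (hp.comp (Computable.fst.comp Computable.fst)) Computable.snd
  · refine CP.ball (c_len hp) (CP.not (CP.rateq ?_ ?_))
    · exact fn_nm_CQ hk (t2.comp Computable.fst) (hp.comp Computable.fst) Computable.snd
    · exact CQ_fn (t2.comp Computable.fst) (hk.comp (t1.comp Computable.fst))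

end

end Pool.Agent.V8H40.OG
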