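import Pool.Agent.V8H40.OG.Key

/-!
# Computable families of rational vectors; integral representation of functionals
-/

set_option autoImplicit false

namespace Pool.Agent.V8H40.OG

open Pool.Agent.R557.DS (CQ)

variable {α β : Type*} [Primcodable α] [Primcodable β]

/-- a computable family of rational vectors with a computable bound for the support -/
def CV (F : α → QV) : Prop :=
  ∃ n : α → ℕ, Computable n ∧ CQ (fun b : α × ℕ => F b.1 b.2) ∧ ∀ a i, n a ≤ i → F a i = 0

theorem CV.val {x : α → Vc} (hx : Computable x) : CV fun a => val (x a) :=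
  ⟨fun a => (x a).1.length, Computable.list_length.comp (Computable.fst.comp hx),
    CQ_val (hx.comp Computable.fst) Computable.snd, fun _ _ h => val_eq_zero h⟩

theorem CV.add {F G : α → QV} (hF : CV F) (hG : CV G) : CV fun a => F a + G a := by
  obtain ⟨n, hn, hF, hF0⟩ := hF
  obtain ⟨m, hm, hG, hG0⟩ := hG
  refine ⟨fun a => n a + m a, Pool.Agent.H166R3.AT.c_add hn hm, ?_, fun a i h => ?_⟩
  · exact (hF.add hG).of_eq fun b => rfl
  · beta_reduce at h
    rw [Finsupp.add_apply, hF0 a i (by omega), hG0 a i (by omega), add_zero]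

theorem CV.smul {c : α → ℚ} {F : α → QV} (hc : CQ c) (hF : CV F) : CV fun a => c a • F a := by
  obtain ⟨n, hn, hF, hF0⟩ := hF
  refine ⟨n, hn, ?_, fun a i h => ?_⟩
  · exact ((hc.comp Computable.fst).mul hF).of_eq fun b => rfl
  · rw [Finsupp.smul_apply, hF0 a i h, smul_zero]

theorem CV.comp {F : β → QV} (hF : CV F) {f : α → β} (hf : Computable f) :
    CV fun a => F (f a) := by
  obtain ⟨n, hn, hF, hF0⟩ := hF
  refine ⟨fun a => n (f a), hn.comp hf, ?_, fun a i h => hF0 (f a) i h⟩
  exact (hF.comp (Computable.pair (hf.comp Computable.fst) Computable.snd)).of_eq fun b => rfl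

theorem CV.sum {F : α → ℕ → QV} {m : α → ℕ} (hm : Computable m)
    (hF : CV fun b : α × ℕ => F b.1 b.2) : CV fun a => ∑ k ∈ Finset.range (m a), F a k := by
  obtain ⟨n, hn, hF, hF0⟩ := hF
  refine ⟨fun a => ∑ k ∈ Finset.range (m a), n (a, k),
    Pool.Agent.H166R3.AT.c_sum hm hn, ?_, fun a i h => ?_⟩
  · refine CQ.of_eq (CQ.sum (n := fun b : α × ℕ => m b.1) (f := fun b k => F b.1 k b.2)
      (hm.comp Computable.fst) ?_) fun b => ?_
    · exact (hF.comp (Computable.pair (Computable.pair (Computable.fst.comp Computable.fst)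
        Computable.snd) (Computable.snd.comp Computable.fst))).of_eq fun b => rfl
    · rw [Finsupp.finsetSum_apply]
  · rw [Finsupp.finsetSum_apply]
    refine Finset.sum_eq_zero fun k hk => hF0 (a, k) i (le_trans ?_ h)
    exact Finset.single_le_sum (f := fun k => n (a, k)) (fun _ _ => Nat.zero_le _) hk

theorem CP.cveq {F G : α → QV} (hF : CV F) (hG : CV G) : CP fun a => F a = G a := by
  obtain ⟨n, hn, hF, hF0⟩ := hF
  obtain ⟨m, hm, hG, hG0⟩ := hG
  have h1 : CP fun a => ∀ i < n a + m a, F a i = G a i :=
    CP.ball (Pool.Agent.H166R3.AT.c_add hn hm) (CP.rateq hF hG)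
  refine h1.of_iff fun a => ⟨fun h => ?_, fun h i _ => by rw [h]⟩
  ext i
  by_cases hi : i < n a + m a
  · exact h i hi
  · rw [hF0 a i (by omega), hG0 a i (by omega)]

/-- the code of a unit vector -/
def uc (M : ℕ) : Vc := ((List.range (M + 1)).map fun i => if i = M then 1 else 0, 0)

theorem uc_comp : Computable uc := by
  have h1 : Primrec uc := by
    refine Primrec.pair ?_ (Primrec.const 0)
    refine Primrec.list_map (Primrec.list_range.comp Primrec.succ) ?_
    exact Primrec.ite (Primrec.eq.comp Primrec.snd Primrec.fst) (Primrec.const 1)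
      (Primrec.const 0)
  exact h1.to_comp

theorem val_uc (M : ℕ) : val (uc M) = Finsupp.single M 1 := by
  ext i
  rw [val_apply, Finsupp.single_apply]
  simp only [uc]
  rw [List.getD_eq_getElem?_getD]
  by_cases hi : i < M + 1
  · simp only [List.getElem?_map, List.getElem?_range hi, Option.map_some, Option.getD_some]
    by_cases h2 : M = i
    · rw [if_pos h2.symm, if_pos h2]; norm_num
    · rw [if_neg (Ne.symm h2), if_neg h2]; norm_num
  · have h1 : ((List.range (M + 1)).map fun i => if i = M then (1 : ℤ) else 0)[i]? = none := by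
      rw [List.getElem?_eq_none]; simpa using hi
    rw [h1, if_neg (by omega)]
    simp

/-- functionals with rational coefficients are represented by integer lists on finite sets -/
theorem exists_list (f : QV →ₗ[ℚ] ℚ) (S : Finset QV) :
    ∃ (l : List ℤ) (D : ℕ), ∀ z ∈ S, fn l z = (D + 1 : ℚ) * f z := by
  classical
  -- a bound for the supports
  obtain ⟨M, hM⟩ : ∃ M : ℕ, ∀ z ∈ S, ∀ i, M ≤ i → z i = 0 := by
    refine ⟨(S.sup fun z => z.support.sup id) + 1, fun z hz i hi => ?_⟩
    by_contra h
    have h1 : i ∈ z.support := Finsupp.mem_support_iff.2 h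
    have h2 : i ≤ z.support.sup id := Finset.le_sup (f := id) h1
    have h3 : z.support.sup id ≤ S.sup fun z => z.support.sup id :=
      Finset.le_sup (f := fun z : QV => z.support.sup id) hz
    omega
  let D : ℕ := ∏ i ∈ Finset.range M, (f (Finsupp.single i 1)).den
  have hD : 0 < D := Finset.prod_pos fun i _ => (f (Finsupp.single i 1)).pos
  have hDf : ∀ i < M, ∃ n : ℤ, (D : ℚ) * f (Finsupp.single i 1) = n := by
    intro i hi
    have h1 : (f (Finsupp.single i 1)).den ∣ D :=
      Finset.dvd_prod_of_mem (fun i => (f (Finsupp.single i 1)).den) (Finset.mem_range.2 hi)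
    obtain ⟨k, hk⟩ := h1
    refine ⟨(f (Finsupp.single i 1)).num * k, ?_⟩
    rw [hk]
    push_cast
    have h2 : ((f (Finsupp.single i 1)).den : ℚ) * f (Finsupp.single i 1) =
        (f (Finsupp.single i 1)).num := by
      rw [mul_comm]; exact Rat.mul_den_eq_num _
    rw [mul_assoc, mul_comm (k : ℚ), ← mul_assoc, h2]
  choose! c hc using hDf
  refine ⟨(List.range M).map c, D - 1, fun z hz => ?_⟩
  have h1 : (((D - 1 : ℕ) : ℚ) + 1) = D := by
    have : D - 1 + 1 = D := by omega
    exact_mod_cast this
  rw [h1, fn_apply]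
  have h2 : z = ∑ i ∈ Finset.range M, z i • Finsupp.single i (1 : ℚ) := by
    ext j
    rw [Finsupp.finsetSum_apply]
    simp only [Finsupp.smul_apply, smul_eq_mul, Finsupp.single_apply, mul_ite, mul_one, mul_zero]
    rw [Finset.sum_ite_eq' (Finset.range M) j]
    by_cases hj : j < M
    · rw [if_pos (Finset.mem_range.2 hj)]
    · rw [if_neg (fun h => hj (Finset.mem_range.1 h))]
      exact hM z hz j (by omega)
  conv_rhs => rw [h2]
  rw [map_sum, Finset.mul_sum]
  simp only [List.length_map, List.length_range]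
  refine Finset.sum_congr rfl fun i hi => ?_
  rw [Finset.mem_range] at hi
  rw [map_smul, smul_eq_mul, List.getD_eq_getElem?_getD, List.getElem?_map,
    List.getElem?_range hi]
  simp only [Option.map_some, Option.getD_some]
  rw [← hc i hi]
  ring

/-- every vector has a code -/
theorem val_surj (v : QV) : ∃ x : Vc, val x = v := by
  classical
  obtain ⟨M, hM⟩ : ∃ M : ℕ, ∀ i, M ≤ i → v i = 0 := by
    refine ⟨v.support.sup id + 1, fun i hi => ?_⟩
    by_contra h
    have h1 : i ∈ v.support := Finsupp.mem_support_iff.2 h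
    have h2 : i ≤ v.support.sup id := Finset.le_sup (f := id) h1
    omega
  let D : ℕ := ∏ i ∈ Finset.range M, (v i).den
  have hD : 0 < D := Finset.prod_pos fun i _ => (v i).pos
  have hDf : ∀ i < M, ∃ n : ℤ, (D : ℚ) * v i = n := by
    intro i hi
    have h1 : (v i).den ∣ D :=
      Finset.dvd_prod_of_mem (fun i => (v i).den) (Finset.mem_range.2 hi)
    obtain ⟨k, hk⟩ := h1
    refine ⟨(v i).num * k, ?_⟩
    rw [hk]
    push_cast
    have h2 : ((v i).den : ℚ) * v i = (v i).num := by
      rw [mul_comm]; exact Rat.mul_den_eq_num _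
    rw [mul_assoc, mul_comm (k : ℚ), ← mul_assoc, h2]
  choose! c hc using hDf
  refine ⟨((List.range M).map c, D - 1), ?_⟩
  have h1 : (((D - 1 : ℕ) : ℚ) + 1) = D := by
    have : D - 1 + 1 = D := by omega
    exact_mod_cast this
  have hD' : (D : ℚ) ≠ 0 := by exact_mod_cast hD.ne'
  ext i
  rw [val_apply]
  simp only
  rw [h1]
  by_cases hi : i < M
  · rw [List.getD_eq_getElem?_getD, List.getElem?_map, List.getElem?_range hi]
    simp only [Option.map_some, Option.getD_some]
    rw [← hc i hi]
    field_simp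
  · rw [hM i (by omega), List.getD_eq_getElem?_getD, List.getElem?_eq_none (by simpa using hi)]
    simp

end Pool.Agent.V8H40.OG
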